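import Pool.Agent.H945_Excise.Defs

open MeasureTheory Set Filter Topology Metric
open scoped ContDiff ENNReal NNReal

namespace Pool.Agent.H945

/-- `g` is smooth on `V`, injective on `V` and has injective derivative at every point of `V`. -/
structure GoodOn {n : ℕ} (g : E n → E n) (V : Set (E n)) : Prop where
  smooth : ContDiffOn ℝ ∞ g V
  inj : InjOn g V
  imm : ∀ x ∈ V, Function.Injective (fderiv ℝ g x)

/-- the `p`-energy of `g` on `W`. -/
noncomputable def En {n : ℕ} (p : ℝ) (g : E n → E n) (W : Set (E n)) : ℝ≥0∞ :=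
  ∫⁻ x in W, (‖g x‖ₑ ^ p + ‖fderiv ℝ g x‖ₑ ^ p)

/-- the `W^{1,p}` distance on `W`. -/
noncomputable def Dist {n : ℕ} (p : ℝ) (g g' : E n → E n) (W : Set (E n)) : ℝ≥0∞ :=
  eLpNorm (fun x => g' x - g x) (ENNReal.ofReal p) (volume.restrict W)
    + eLpNorm (fun x => fderiv ℝ g' x - fderiv ℝ g x) (ENNReal.ofReal p) (volume.restrict W)

variable {n : ℕ} {p : ℝ}

lemma GoodOn.mono {g : E n → E n} {V W : Set (E n)} (h : GoodOn g V) (hW : W ⊆ V) :
    GoodOn g W :=
  ⟨h.smooth.mono hW, h.inj.mono hW, fun x hx => h.imm x (hW hx)⟩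

lemma GoodOn.aesm {g : E n → E n} {V : Set (E n)} (h : GoodOn g V) (hV : IsOpen V) :
    AEStronglyMeasurable g (volume.restrict V) :=
  h.smooth.continuousOn.aestronglyMeasurable hV.measurableSet

lemma GoodOn.aesm' {g : E n → E n} {V W : Set (E n)} (h : GoodOn g V) (hV : IsOpen V)
    (hW : volume (W \ V) = 0) :
    AEStronglyMeasurable g (volume.restrict W) := by
  have h1 : AEStronglyMeasurable g (volume.restrict (V ∪ (W \ V))) := by
    rw [aestronglyMeasurable_union_iff]
    refine ⟨h.aesm hV, ?_⟩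
    rw [Measure.restrict_eq_zero.2 hW]
    exact aestronglyMeasurable_zero_measure _
  refine h1.mono_measure (Measure.restrict_mono ?_ le_rfl)
  intro x hx
  by_cases hxV : x ∈ V
  · exact Or.inl hxV
  · exact Or.inr ⟨hx, hxV⟩

lemma aesm_fderiv (g : E n → E n) (μ : Measure (E n)) :
    AEStronglyMeasurable (fderiv ℝ g) μ :=
  (measurable_fderiv ℝ g).aestronglyMeasurable

lemma eLpNorm_le_En (hp : 1 ≤ p) (g : E n → E n) (W : Set (E n)) :
    eLpNorm g (ENNReal.ofReal p) (volume.restrict W) ≤ (En p g W) ^ (1 / p) := by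
  have hp0 : 0 < p := by linarith
  rw [eLpNorm_eq_lintegral_rpow_enorm_toReal (by simpa using hp0) ENNReal.ofReal_ne_top,
    ENNReal.toReal_ofReal hp0.le]
  refine ENNReal.rpow_le_rpow ?_ (by positivity)
  exact lintegral_mono fun x => le_self_add

lemma eLpNorm_fderiv_le_En (hp : 1 ≤ p) (g : E n → E n) (W : Set (E n)) :
    eLpNorm (fderiv ℝ g) (ENNReal.ofReal p) (volume.restrict W) ≤ (En p g W) ^ (1 / p) := by
  have hp0 : 0 < p := by linarith
  rw [eLpNorm_eq_lintegral_rpow_enorm_toReal (by simpa using hp0) ENNReal.ofReal_ne_top,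
    ENNReal.toReal_ofReal hp0.le]
  refine ENNReal.rpow_le_rpow ?_ (by positivity)
  exact lintegral_mono fun x => le_add_self

lemma Dist_triangle (hp : 1 ≤ p) {g g' g'' : E n → E n} {W : Set (E n)}
    (h1 : AEStronglyMeasurable g (volume.restrict W))
    (h2 : AEStronglyMeasurable g' (volume.restrict W))
    (h3 : AEStronglyMeasurable g'' (volume.restrict W)) :
    Dist p g g'' W ≤ Dist p g g' W + Dist p g' g'' W := by
  have hp1 : 1 ≤ ENNReal.ofReal p := by
    rw [← ENNReal.ofReal_one]; exact ENNReal.ofReal_le_ofReal hp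
  have e1 : eLpNorm (fun x => g'' x - g x) (ENNReal.ofReal p) (volume.restrict W) ≤
      eLpNorm (fun x => g' x - g x) (ENNReal.ofReal p) (volume.restrict W)
      + eLpNorm (fun x => g'' x - g' x) (ENNReal.ofReal p) (volume.restrict W) := by
    have := eLpNorm_add_le (μ := volume.restrict W) (f := fun x => g' x - g x)
      (g := fun x => g'' x - g' x) (h2.sub h1) (h3.sub h2) hp1
    refine le_trans (le_of_eq ?_) this
    congr 1; ext x; simp
  have e2 : eLpNorm (fun x => fderiv ℝ g'' x - fderiv ℝ g x) (ENNReal.ofReal p)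
        (volume.restrict W) ≤
      eLpNorm (fun x => fderiv ℝ g' x - fderiv ℝ g x) (ENNReal.ofReal p) (volume.restrict W)
      + eLpNorm (fun x => fderiv ℝ g'' x - fderiv ℝ g' x) (ENNReal.ofReal p)
        (volume.restrict W) := by
    have := eLpNorm_add_le (μ := volume.restrict W) (f := fun x => fderiv ℝ g' x - fderiv ℝ g x)
      (g := fun x => fderiv ℝ g'' x - fderiv ℝ g' x)
      ((aesm_fderiv g' _).sub (aesm_fderiv g _)) ((aesm_fderiv g'' _).sub (aesm_fderiv g' _)) hp1
    refine le_trans (le_of_eq ?_) this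
    congr 1; ext x; simp
  unfold Dist
  calc _ ≤ _ := add_le_add e1 e2
    _ = _ := by ring

lemma Dist_mono (g g' : E n → E n) {W W' : Set (E n)} (h : W ⊆ W') :
    Dist p g g' W ≤ Dist p g g' W' :=
  add_le_add (eLpNorm_mono_measure _ (Measure.restrict_mono h le_rfl))
    (eLpNorm_mono_measure _ (Measure.restrict_mono h le_rfl))

/-- if `g' = g` (with derivatives) off a measurable set `N`, the distance is controlled by the
energies on `N`. -/
lemma Dist_le_of_eq_off (hp : 1 ≤ p) {g g' : E n → E n} {W N : Set (E n)}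
    (hN : MeasurableSet N)
    (hoff : ∀ᵐ x ∂(volume.restrict W), x ∉ N → g' x = g x ∧ fderiv ℝ g' x = fderiv ℝ g x)
    (h1 : AEStronglyMeasurable g (volume.restrict W))
    (h2 : AEStronglyMeasurable g' (volume.restrict W)) :
    Dist p g g' W ≤ 2 * ((En p g' (W ∩ N)) ^ (1 / p) + (En p g (W ∩ N)) ^ (1 / p)) := by
  have hp1 : 1 ≤ ENNReal.ofReal p := by
    rw [← ENNReal.ofReal_one]; exact ENNReal.ofReal_le_ofReal hp
  have key : ∀ {F : Type} [NormedAddCommGroup F] (u v : E n → F),
      (∀ᵐ x ∂(volume.restrict W), x ∉ N → v x = u x) →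
      AEStronglyMeasurable u (volume.restrict W) → AEStronglyMeasurable v (volume.restrict W) →
      eLpNorm (fun x => v x - u x) (ENNReal.ofReal p) (volume.restrict W) ≤
        eLpNorm v (ENNReal.ofReal p) (volume.restrict (W ∩ N))
        + eLpNorm u (ENNReal.ofReal p) (volume.restrict (W ∩ N)) := by
    intro F _ u v huv hu hv
    have e : eLpNorm (fun x => v x - u x) (ENNReal.ofReal p) (volume.restrict W)
        = eLpNorm (fun x => v x - u x) (ENNReal.ofReal p) (volume.restrict (W ∩ N)) := by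
      have : eLpNorm (fun x => v x - u x) (ENNReal.ofReal p) (volume.restrict W)
          = eLpNorm (N.indicator (fun x => v x - u x)) (ENNReal.ofReal p)
            (volume.restrict W) := by
        refine eLpNorm_congr_ae ?_
        filter_upwards [huv] with x hx
        by_cases hxN : x ∈ N
        · simp [hxN]
        · simp [hxN, hx hxN]
      rw [this, eLpNorm_indicator_eq_eLpNorm_restrict hN, Measure.restrict_restrict hN,
        inter_comm]
    rw [e]
    have hr : volume.restrict (W ∩ N) ≤ volume.restrict W :=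
      Measure.restrict_mono inter_subset_left le_rfl
    exact eLpNorm_sub_le (hv.mono_measure hr) (hu.mono_measure hr) hp1
  have k1 := key g g' (by filter_upwards [hoff] with x hx hn using (hx hn).1) h1 h2
  have k2 := key (fderiv ℝ g) (fderiv ℝ g')
    (by filter_upwards [hoff] with x hx hn using (hx hn).2) (aesm_fderiv _ _) (aesm_fderiv _ _)
  unfold Dist
  calc _ ≤ _ := add_le_add k1 k2
    _ ≤ ((En p g' (W ∩ N)) ^ (1 / p) + (En p g (W ∩ N)) ^ (1 / p))
        + ((En p g' (W ∩ N)) ^ (1 / p) + (En p g (W ∩ N)) ^ (1 / p)) := by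
        gcongr
        · exact eLpNorm_le_En hp _ _
        · exact eLpNorm_le_En hp _ _
        · exact eLpNorm_fderiv_le_En hp _ _
        · exact eLpNorm_fderiv_le_En hp _ _
    _ = _ := by ring

end Pool.Agent.H945
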