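import Mathlib

open MeasureTheory Set Filter Topology Metric
open scoped ContDiff ENNReal NNReal

namespace Pool.Agent.H945

/-- shorthand for the smooth transition function. -/
noncomputable abbrev st : ℝ → ℝ := Real.smoothTransition

lemma st_hasDerivAt (x : ℝ) : HasDerivAt st (deriv st x) x :=
  ((Real.smoothTransition.contDiff (n := 1)).differentiable (by norm_num) x).hasDerivAt

lemma st_deriv_nonneg (x : ℝ) : 0 ≤ deriv st x :=
  Real.smoothTransition.monotone.deriv_nonneg

lemma st_deriv_of_nonpos {x : ℝ} (hx : x ≤ 0) : deriv st x = 0 := by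
  refine IsLocalMin.deriv_eq_zero (Filter.Eventually.of_forall fun y => ?_)
  change Real.smoothTransition x ≤ Real.smoothTransition y
  rw [Real.smoothTransition.zero_of_nonpos hx]
  exact Real.smoothTransition.nonneg y

lemma st_deriv_of_one_le {x : ℝ} (hx : 1 ≤ x) : deriv st x = 0 := by
  refine IsLocalMax.deriv_eq_zero (Filter.Eventually.of_forall fun y => ?_)
  change Real.smoothTransition y ≤ Real.smoothTransition x
  rw [Real.smoothTransition.one_of_one_le hx]
  exact Real.smoothTransition.le_one y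

lemma exists_st_bound : ∃ C : ℝ, 1 ≤ C ∧ ∀ x, |deriv st x| ≤ C := by
  have hc : Continuous (deriv st) :=
    (Real.smoothTransition.contDiff (n := 1)).continuous_deriv (by norm_num)
  obtain ⟨C, hC⟩ := (isCompact_Icc (a := (0:ℝ)) (b := 1)).exists_bound_of_continuousOn
    hc.continuousOn
  refine ⟨max C 1, le_max_right _ _, fun x => ?_⟩
  by_cases h0 : x ≤ 0
  · rw [st_deriv_of_nonpos h0]; simp
  by_cases h1 : 1 ≤ x
  · rw [st_deriv_of_one_le h1]; simp
  push Not at h0 h1
  exact (hC x ⟨h0.le, h1.le⟩).trans (le_max_left _ _)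

/-- a bound for the derivative of the transition function. -/
noncomputable def Cst : ℝ := exists_st_bound.choose

lemma one_le_Cst : 1 ≤ Cst := exists_st_bound.choose_spec.1
lemma st_deriv_le (x : ℝ) : |deriv st x| ≤ Cst := exists_st_bound.choose_spec.2 x

/-! ### the radial profile -/

/-- the derivative of the radial profile. -/
noncomputable def mmd (δ s : ℝ) : ℝ := 1 - (1 - δ / 2) * st ((1 - s) / (δ / 2))

/-- the radial profile. -/
noncomputable def mm (δ σ : ℝ) : ℝ := 1 - ∫ s in σ..1, mmd δ s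

lemma mmd_contDiff (δ : ℝ) : ContDiff ℝ ∞ (mmd δ) := by
  unfold mmd
  have : ContDiff ℝ ∞ (fun s : ℝ => st ((1 - s) / (δ / 2))) :=
    Real.smoothTransition.contDiff.comp (by fun_prop)
  fun_prop

lemma mmd_continuous (δ : ℝ) : Continuous (mmd δ) := (mmd_contDiff δ).continuous

lemma mm_hasDerivAt (δ σ : ℝ) : HasDerivAt (mm δ) (mmd δ σ) σ := by
  have h := intervalIntegral.integral_hasDerivAt_left
    ((mmd_continuous δ).intervalIntegrable σ 1)
    (mmd_continuous δ).stronglyMeasurable.stronglyMeasurableAtFilter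
    (mmd_continuous δ).continuousAt
  have h2 := h.const_sub 1
  rw [neg_neg] at h2
  exact h2

lemma mm_contDiff (δ : ℝ) : ContDiff ℝ ∞ (mm δ) := by
  rw [contDiff_infty_iff_deriv]
  refine ⟨fun x => (mm_hasDerivAt δ x).differentiableAt, ?_⟩
  have : deriv (mm δ) = mmd δ := funext fun x => (mm_hasDerivAt δ x).deriv
  rw [this]
  exact mmd_contDiff δ

lemma mmd_le_one {δ : ℝ} (h1 : δ ≤ 1) (s : ℝ) : mmd δ s ≤ 1 := by
  unfold mmd
  have := Real.smoothTransition.nonneg ((1 - s) / (δ / 2))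
  nlinarith

lemma half_le_mmd {δ : ℝ} (h1 : δ ≤ 1) (s : ℝ) : δ / 2 ≤ mmd δ s := by
  unfold mmd
  have := Real.smoothTransition.le_one ((1 - s) / (δ / 2))
  nlinarith

lemma mmd_of_one_le {δ : ℝ} (h0 : 0 < δ) {s : ℝ} (hs : 1 ≤ s) : mmd δ s = 1 := by
  unfold mmd
  have : st ((1 - s) / (δ / 2)) = 0 :=
    Real.smoothTransition.zero_of_nonpos (div_nonpos_of_nonpos_of_nonneg (by linarith)
      (by linarith))
  rw [this]; ring

lemma mm_one (δ : ℝ) : mm δ 1 = 1 := by simp [mm]

lemma mm_of_one_le {δ : ℝ} (h0 : 0 < δ) {s : ℝ} (hs : 1 ≤ s) : mm δ s = s := by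
  have : ∫ t in s..1, mmd δ t = ∫ t in s..1, (1:ℝ) := by
    refine intervalIntegral.integral_congr fun t ht => ?_
    rw [uIcc_of_ge hs] at ht
    exact mmd_of_one_le h0 ht.1
  unfold mm
  rw [this]; simp

lemma mm_strictMono {δ : ℝ} (h0 : 0 < δ) (h1 : δ ≤ 1) : StrictMono (mm δ) := by
  refine strictMono_of_deriv_pos fun x => ?_
  rw [(mm_hasDerivAt δ x).deriv]
  have := half_le_mmd h1 x
  linarith

lemma mm_zero_ge {δ : ℝ} (h0 : 0 < δ) (h1 : δ ≤ 1) : (1 - δ / 2) ^ 2 ≤ mm δ 0 := by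
  have hI : ∀ a b : ℝ, IntervalIntegrable (mmd δ) volume a b :=
    fun a b => (mmd_continuous δ).intervalIntegrable a b
  have hsplit : ∫ s in (0:ℝ)..1, mmd δ s
      = (∫ s in (0:ℝ)..(1 - δ / 2), mmd δ s) + ∫ s in (1 - δ / 2)..1, mmd δ s :=
    (intervalIntegral.integral_add_adjacent_intervals (hI _ _) (hI _ _)).symm
  have e1 : ∫ s in (0:ℝ)..(1 - δ / 2), mmd δ s = (δ / 2) * (1 - δ / 2) := by
    have : ∫ s in (0:ℝ)..(1 - δ / 2), mmd δ s = ∫ s in (0:ℝ)..(1 - δ / 2), (δ / 2) := by
      refine intervalIntegral.integral_congr fun t ht => ?_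
      rw [uIcc_of_le (by linarith)] at ht
      have : st ((1 - t) / (δ / 2)) = 1 := by
        refine Real.smoothTransition.one_of_one_le ?_
        rw [le_div_iff₀ (by linarith)]
        linarith [ht.2]
      simp only [mmd]
      rw [this]; ring
    rw [this]; simp; ring
  have e2 : ∫ s in (1 - δ / 2)..1, mmd δ s ≤ δ / 2 := by
    have : ∫ s in (1 - δ / 2)..1, mmd δ s ≤ ∫ s in (1 - δ / 2)..1, (1:ℝ) := by
      refine intervalIntegral.integral_mono_on (by linarith) (hI _ _) (by simp) ?_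
      intro x _
      exact mmd_le_one h1 x
    refine this.trans ?_
    simp
  unfold mm
  rw [hsplit, e1]
  nlinarith

lemma mm_le_one {δ : ℝ} (h0 : 0 < δ) (h1 : δ ≤ 1) {s : ℝ} (hs : s ≤ 1) : mm δ s ≤ 1 := by
  have := (mm_strictMono h0 h1).monotone hs
  rwa [mm_one] at this

/-! ### the axial profile -/

/-- the axial profile: positive, decreasing, equal to `-z` for `z ≤ -1`. -/
noncomputable def lam (z : ℝ) : ℝ :=
  (1 - st (2 * z + 2)) * (-z) + st (2 * z + 2) * ((1 + Real.exp (-z)) / 8)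

/-- its derivative -/
noncomputable def lamd (z : ℝ) : ℝ :=
  2 * deriv st (2 * z + 2) * (z + (1 + Real.exp (-z)) / 8) - (1 - st (2 * z + 2))
    - st (2 * z + 2) * (Real.exp (-z) / 8)

lemma lam_contDiff : ContDiff ℝ ∞ lam := by
  unfold lam
  have h1 : ContDiff ℝ ∞ (fun z : ℝ => st (2 * z + 2)) :=
    Real.smoothTransition.contDiff.comp (by fun_prop)
  have h2 : ContDiff ℝ ∞ (fun z : ℝ => Real.exp (-z)) := by fun_prop
  fun_prop

lemma lam_hasDerivAt (z : ℝ) : HasDerivAt lam (lamd z) z := by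
  have h1 : HasDerivAt (fun z : ℝ => st (2 * z + 2)) (deriv st (2 * z + 2) * 2) z := by
    have ha : HasDerivAt (fun z : ℝ => 2 * z + 2) (2 : ℝ) z := by
      simpa using ((hasDerivAt_id z).const_mul 2).add_const 2
    exact (st_hasDerivAt (2 * z + 2)).comp z ha
  have h2 : HasDerivAt (fun z : ℝ => (1 + Real.exp (-z)) / 8) (-Real.exp (-z) / 8) z := by
    have ha : HasDerivAt (fun z : ℝ => Real.exp (-z)) (Real.exp (-z) * (-1)) z :=
      (Real.hasDerivAt_exp (-z)).comp z (hasDerivAt_neg z)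
    exact ((ha.const_add 1).div_const 8).congr_deriv (by ring)
  have h3 := ((h1.const_sub 1).mul (hasDerivAt_neg z)).add (h1.mul h2)
  exact h3.congr_deriv (by unfold lamd; ring)

lemma exp_le_of {z : ℝ} (hz : -1 ≤ z) : Real.exp (-z) ≤ 2.72 := by
  have h1 : Real.exp (-z) ≤ Real.exp 1 := Real.exp_le_exp.2 (by linarith)
  have h2 := Real.exp_one_lt_d9
  linarith

lemma lam_of_le {z : ℝ} (hz : z ≤ -1) : lam z = -z := by
  have : st (2 * z + 2) = 0 := Real.smoothTransition.zero_of_nonpos (by linarith)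
  simp [lam, this]

lemma lam_ge (z : ℝ) : 1 / 8 ≤ lam z := by
  have hT0 : 0 ≤ st (2 * z + 2) := Real.smoothTransition.nonneg _
  have hT1 : st (2 * z + 2) ≤ 1 := Real.smoothTransition.le_one _
  have he := Real.exp_pos (-z)
  unfold lam
  by_cases hz : -1/2 ≤ z
  · have : st (2 * z + 2) = 1 := Real.smoothTransition.one_of_one_le (by linarith)
    rw [this]; linarith
  · push Not at hz
    have h1 : (1 - st (2 * z + 2)) * (1/8) ≤ (1 - st (2 * z + 2)) * (-z) :=
      mul_le_mul_of_nonneg_left (by linarith) (by linarith)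
    have h2 : st (2 * z + 2) * (1/8) ≤ st (2 * z + 2) * ((1 + Real.exp (-z)) / 8) :=
      mul_le_mul_of_nonneg_left (by linarith) hT0
    linarith

lemma lam_le_one {z : ℝ} (hz : -1 ≤ z) : lam z ≤ 1 := by
  have hT0 : 0 ≤ st (2 * z + 2) := Real.smoothTransition.nonneg _
  have hT1 : st (2 * z + 2) ≤ 1 := Real.smoothTransition.le_one _
  have he := exp_le_of hz
  unfold lam
  have h1 : (1 - st (2 * z + 2)) * (-z) ≤ (1 - st (2 * z + 2)) * 1 :=
    mul_le_mul_of_nonneg_left (by linarith) (by linarith)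
  have h2 : st (2 * z + 2) * ((1 + Real.exp (-z)) / 8) ≤ st (2 * z + 2) * 1 :=
    mul_le_mul_of_nonneg_left (by linarith) hT0
  linarith

lemma lamd_neg (z : ℝ) : lamd z < 0 := by
  have hT0 : 0 ≤ st (2 * z + 2) := Real.smoothTransition.nonneg _
  have hT1 : st (2 * z + 2) ≤ 1 := Real.smoothTransition.le_one _
  have he := Real.exp_pos (-z)
  have hrest : 0 < (1 - st (2 * z + 2)) + st (2 * z + 2) * (Real.exp (-z) / 8) := by
    rcases eq_or_lt_of_le hT1 with h | h
    · rw [h]; linarith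
    · have : 0 ≤ st (2 * z + 2) * (Real.exp (-z) / 8) := by positivity
      linarith
  have hfirst : 2 * deriv st (2 * z + 2) * (z + (1 + Real.exp (-z)) / 8) ≤ 0 := by
    by_cases h0 : 2 * z + 2 ≤ 0
    · rw [st_deriv_of_nonpos h0]; simp
    by_cases h1 : 1 ≤ 2 * z + 2
    · rw [st_deriv_of_one_le h1]; simp
    push Not at h0 h1
    have h2 := exp_le_of (z := z) (by linarith)
    have h3 := st_deriv_nonneg (2 * z + 2)
    refine mul_nonpos_of_nonneg_of_nonpos (by positivity) ?_
    linarith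
  unfold lamd
  linarith

lemma lamd_ge (z : ℝ) : -(4 * Cst + 2) ≤ lamd z := by
  have hT0 : 0 ≤ st (2 * z + 2) := Real.smoothTransition.nonneg _
  have hT1 : st (2 * z + 2) ≤ 1 := Real.smoothTransition.le_one _
  have hC := one_le_Cst
  have he := Real.exp_pos (-z)
  by_cases h0 : 2 * z + 2 ≤ 0
  · have e1 : st (2 * z + 2) = 0 := Real.smoothTransition.zero_of_nonpos h0
    have e2 := st_deriv_of_nonpos h0
    unfold lamd
    rw [e1, e2]; linarith
  push Not at h0
  have h2 := exp_le_of (z := z) (by linarith)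
  have h4 : st (2 * z + 2) * (Real.exp (-z) / 8) ≤ 1 * 1 :=
    mul_le_mul hT1 (by linarith) (by positivity) (by norm_num)
  by_cases h1 : 1 ≤ 2 * z + 2
  · have e2 := st_deriv_of_one_le h1
    unfold lamd
    rw [e2]; linarith
  push Not at h1
  have h3 := st_deriv_nonneg (2 * z + 2)
  have h5 := (abs_le.1 (st_deriv_le (2 * z + 2))).2
  have h6 : deriv st (2 * z + 2) * (-(z + (1 + Real.exp (-z)) / 8)) ≤ Cst * 1 :=
    mul_le_mul h5 (by linarith) (by linarith) (by linarith)
  unfold lamd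
  linarith

end Pool.Agent.H945
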