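import Pool.Agent.H945_Excise.Basic
import Pool.Agent.H945_Excise.Ramp

open MeasureTheory Set Filter Topology Metric
open scoped ContDiff ENNReal NNReal InnerProductSpace

namespace Pool.Agent.H945

variable {n : ℕ} {p : ℝ}

/-- the radial collapse map. -/
noncomputable def col (δ : ℝ) (b : E n) (R : ℝ) (x : E n) : E n :=
  b + (R * mm δ (‖x - b‖ / R) / ‖x - b‖) • (x - b)

/-- radial factor -/
noncomputable def colA (δ : ℝ) (b : E n) (R : ℝ) (x : E n) : ℝ :=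
  R * mm δ (‖x - b‖ / R) / ‖x - b‖

/-- the derivative of the radial collapse map. -/
noncomputable def colD (δ : ℝ) (b : E n) (R : ℝ) (x : E n) : E n →L[ℝ] E n :=
  colA δ b R x • ContinuousLinearMap.id ℝ (E n)
    + ((mmd δ (‖x - b‖ / R) - colA δ b R x) / ‖x - b‖ ^ 2) •
      (innerSL ℝ (x - b)).smulRight (x - b)

lemma mm_pos {δ : ℝ} (h0 : 0 < δ) (h1 : δ ≤ 1) {s : ℝ} (hs : 0 ≤ s) : 1 / 4 ≤ mm δ s := by
  have h2 := mm_zero_ge h0 h1
  have h3 := (mm_strictMono h0 h1).monotone hs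
  nlinarith

section
variable {δ : ℝ} {b : E n} {R : ℝ} {x : E n}

lemma norm_col_sub (h0 : 0 < δ) (h1 : δ ≤ 1) (hR : 0 < R) (hx : x ≠ b) :
    ‖col δ b R x - b‖ = R * mm δ (‖x - b‖ / R) := by
  have hs : 0 < ‖x - b‖ := norm_pos_iff.2 (sub_ne_zero.2 hx)
  have hm := mm_pos h0 h1 (div_nonneg hs.le hR.le)
  unfold col
  rw [add_sub_cancel_left, norm_smul, Real.norm_of_nonneg (by positivity)]
  field_simp

lemma col_of_le (h0 : 0 < δ) (hR : 0 < R) (hx : R ≤ ‖x - b‖) : col δ b R x = x := by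
  have hs : 0 < ‖x - b‖ := hR.trans_le hx
  unfold col
  rw [mm_of_one_le h0 ((one_le_div hR).2 hx)]
  have : R * (‖x - b‖ / R) / ‖x - b‖ = 1 := by field_simp
  rw [this]; simp

lemma col_hasFDerivAt (hR : 0 < R) (hx : x ≠ b) :
    HasFDerivAt (col δ b R) (colD δ b R x) x := by
  have hs : 0 < ‖x - b‖ := norm_pos_iff.2 (sub_ne_zero.2 hx)
  have hne : x - b ≠ 0 := sub_ne_zero.2 hx
  -- derivative of the norm
  have hnorm : HasFDerivAt (fun x : E n => ‖x - b‖) ((‖x - b‖)⁻¹ • innerSL ℝ (x - b)) x := by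
    have h1 : HasFDerivAt (fun x : E n => x - b) (ContinuousLinearMap.id ℝ (E n)) x :=
      (hasFDerivAt_id x).sub_const b
    have h2 : HasFDerivAt (fun x : E n => ‖x - b‖ ^ 2) ((2 : ℝ) • innerSL ℝ (x - b)) x := by
      have := h1.norm_sq
      refine this.congr_fderiv ?_
      ext v; simp
    have h3 : HasFDerivAt (fun x : E n => Real.sqrt (‖x - b‖ ^ 2))
        ((1 / (2 * Real.sqrt (‖x - b‖ ^ 2))) • ((2 : ℝ) • innerSL ℝ (x - b))) x :=
      h2.sqrt (by positivity)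
    have h4 : (fun x : E n => Real.sqrt (‖x - b‖ ^ 2)) = fun x => ‖x - b‖ := by
      ext y; exact Real.sqrt_sq (norm_nonneg _)
    rw [h4] at h3
    refine h3.congr_fderiv ?_
    rw [Real.sqrt_sq hs.le, smul_smul]
    congr 1
    field_simp
  have hdiv : HasFDerivAt (fun x : E n => ‖x - b‖ / R)
      (R⁻¹ • ((‖x - b‖)⁻¹ • innerSL ℝ (x - b))) x := by
    have := hnorm.const_mul R⁻¹
    refine this.congr_of_eventuallyEq (Eventually.of_forall fun y => ?_)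
    simp only
    ring
  have hmm : HasFDerivAt (fun x : E n => mm δ (‖x - b‖ / R))
      (mmd δ (‖x - b‖ / R) • (R⁻¹ • ((‖x - b‖)⁻¹ • innerSL ℝ (x - b)))) x :=
    HasDerivAt.comp_hasFDerivAt (h₂ := mm δ) (f := fun x : E n => ‖x - b‖ / R) x
      (mm_hasDerivAt δ (‖x - b‖ / R)) hdiv
  have hinv : HasFDerivAt (fun x : E n => (‖x - b‖)⁻¹)
      ((-(‖x - b‖ ^ 2)⁻¹) • ((‖x - b‖)⁻¹ • innerSL ℝ (x - b))) x :=
    (hasDerivAt_inv hs.ne').comp_hasFDerivAt x hnorm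
  have hA := (hmm.const_mul R).mul hinv
  have hfin := (hA.smul ((hasFDerivAt_id x).sub_const b)).const_add b
  refine (hfin.congr_of_eventuallyEq (Eventually.of_forall fun y => ?_)).congr_fderiv ?_
  · simp only [col, id]
    congr 2
  · ext1 v
    simp only [colD, colA, add_apply, smul_apply,
      ContinuousLinearMap.smulRight_apply, ContinuousLinearMap.id_apply, innerSL_apply_apply,
      id, smul_eq_mul, Pi.mul_apply, smul_smul]
    congr 1
    congr 1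
    field_simp
    ring

lemma col_contDiffAt (hx : x ≠ b) : ContDiffAt ℝ ∞ (col δ b R) x := by
  have hne : x - b ≠ 0 := sub_ne_zero.2 hx
  have hn : ContDiffAt ℝ ∞ (fun x : E n => ‖x - b‖) x :=
    (contDiffAt_id.sub contDiffAt_const).norm ℝ hne
  have hm : ContDiffAt ℝ ∞ (fun x : E n => mm δ (‖x - b‖ / R)) x :=
    (mm_contDiff δ).contDiffAt.comp x (hn.div_const R)
  have hsub : ContDiffAt ℝ ∞ (fun x : E n => x - b) x := contDiffAt_id.sub contDiffAt_const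
  exact contDiffAt_const.add
    (((contDiffAt_const.mul hm).div hn (norm_ne_zero_iff.2 hne)).smul hsub)

lemma colD_apply (v : E n) : colD δ b R x v = colA δ b R x • v
    + ((mmd δ (‖x - b‖ / R) - colA δ b R x) / ‖x - b‖ ^ 2 * ⟪x - b, v⟫_ℝ) • (x - b) := by
  unfold colD
  simp only [add_apply, smul_apply,
    ContinuousLinearMap.smulRight_apply, ContinuousLinearMap.id_apply, innerSL_apply_apply,
    smul_smul]

lemma colA_pos (h0 : 0 < δ) (h1 : δ ≤ 1) (hR : 0 < R) (hx : x ≠ b) : 0 < colA δ b R x := by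
  have hs : 0 < ‖x - b‖ := norm_pos_iff.2 (sub_ne_zero.2 hx)
  have hm := mm_pos h0 h1 (div_nonneg hs.le hR.le)
  unfold colA
  positivity

lemma colD_injective (h0 : 0 < δ) (h1 : δ ≤ 1) (hR : 0 < R) (hx : x ≠ b) :
    Function.Injective (colD δ b R x) := by
  have hs : 0 < ‖x - b‖ := norm_pos_iff.2 (sub_ne_zero.2 hx)
  have hA := colA_pos h0 h1 hR hx
  rw [injective_iff_map_eq_zero]
  intro v hv
  rw [colD_apply] at hv
  have h2 : ⟪x - b, colA δ b R x • v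
    + ((mmd δ (‖x - b‖ / R) - colA δ b R x) / ‖x - b‖ ^ 2 * ⟪x - b, v⟫_ℝ) • (x - b)⟫_ℝ = 0 := by
    rw [hv]; simp
  rw [inner_add_right, inner_smul_right, inner_smul_right, real_inner_self_eq_norm_sq] at h2
  have h3 : mmd δ (‖x - b‖ / R) * ⟪x - b, v⟫_ℝ = 0 := by
    field_simp at h2
    linarith
  have h4 : ⟪x - b, v⟫_ℝ = 0 := by
    have := half_le_mmd h1 (‖x - b‖ / R)
    rcases mul_eq_zero.1 h3 with h | h
    · linarith
    · exact h
  rw [h4] at hv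
  simp only [mul_zero, zero_smul, add_zero] at hv
  rcases smul_eq_zero.1 hv with h | h
  · linarith
  · exact h

lemma colD_det (hx : x ≠ b) (hA : colA δ b R x ≠ 0) :
    (colD δ b R x).det = colA δ b R x ^ n * (mmd δ (‖x - b‖ / R) / colA δ b R x) := by
  have hs : 0 < ‖x - b‖ := norm_pos_iff.2 (sub_ne_zero.2 hx)
  set A := colA δ b R x with hAdef
  set B := (mmd δ (‖x - b‖ / R) - A) / ‖x - b‖ ^ 2 with hB
  have h1 : ((colD δ b R x : E n →L[ℝ] E n) : E n →ₗ[ℝ] E n)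
      = A • (LinearMap.transvection ((B / A) • ((innerSL ℝ (x - b)) : E n →ₗ[ℝ] ℝ)) (x - b)) := by
    ext1 v
    simp only [ContinuousLinearMap.coe_coe, colD_apply, LinearMap.smul_apply,
      LinearMap.transvection.apply, innerSL_apply_apply, smul_add, smul_smul, ← hAdef, ← hB]
    congr 2
    simp only [smul_eq_mul]
    field_simp
  change LinearMap.det ((colD δ b R x : E n →L[ℝ] E n) : E n →ₗ[ℝ] E n) = _
  rw [h1, LinearMap.det_smul, LinearMap.transvection.det]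
  have h2 : Module.finrank ℝ (E n) = n := by simp
  rw [h2]
  congr 1
  simp only [LinearMap.smul_apply, ContinuousLinearMap.coe_coe, innerSL_apply_apply,
    real_inner_self_eq_norm_sq, smul_eq_mul]
  rw [hB]
  field_simp
  ring

lemma colA_le (h0 : 0 < δ) (h1 : δ ≤ 1) (hR : 0 < R) (hx : x ≠ b) (hxR : ‖x - b‖ < R) :
    colA δ b R x ≤ R / ‖x - b‖ := by
  have hs : 0 < ‖x - b‖ := norm_pos_iff.2 (sub_ne_zero.2 hx)
  have := mm_le_one h0 h1 (s := ‖x - b‖ / R) ((div_le_one hR).2 hxR.le)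
  unfold colA
  gcongr
  nlinarith

lemma colD_norm_le (h0 : 0 < δ) (h1 : δ ≤ 1) (hR : 0 < R) (hx : x ≠ b) (hxR : ‖x - b‖ < R) :
    ‖colD δ b R x‖ ≤ 2 * (R / ‖x - b‖) := by
  have hs : 0 < ‖x - b‖ := norm_pos_iff.2 (sub_ne_zero.2 hx)
  have hA := colA_pos h0 h1 hR hx
  have hA' := colA_le h0 h1 hR hx hxR
  have hm1 := mmd_le_one h1 (‖x - b‖ / R)
  have hm2 := half_le_mmd h1 (‖x - b‖ / R)
  have hRs : 1 ≤ R / ‖x - b‖ := (one_le_div hs).2 hxR.le
  refine ContinuousLinearMap.opNorm_le_bound _ (by positivity) fun v => ?_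
  rw [colD_apply]
  have hin : |⟪x - b, v⟫_ℝ| ≤ ‖x - b‖ * ‖v‖ := abs_real_inner_le_norm _ _
  have hB : |mmd δ (‖x - b‖ / R) - colA δ b R x| ≤ R / ‖x - b‖ := by
    rw [abs_le]; constructor <;> linarith
  calc _ ≤ ‖colA δ b R x • v‖
        + ‖((mmd δ (‖x - b‖ / R) - colA δ b R x) / ‖x - b‖ ^ 2 * ⟪x - b, v⟫_ℝ) • (x - b)‖ :=
        norm_add_le _ _
    _ = colA δ b R x * ‖v‖ + (|mmd δ (‖x - b‖ / R) - colA δ b R x| / ‖x - b‖ ^ 2
          * |⟪x - b, v⟫_ℝ|) * ‖x - b‖ := by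
        rw [norm_smul, norm_smul, Real.norm_of_nonneg hA.le, Real.norm_eq_abs, abs_mul, abs_div,
          abs_of_pos (by positivity : 0 < ‖x - b‖ ^ 2)]
    _ ≤ (R / ‖x - b‖) * ‖v‖ + ((R / ‖x - b‖) / ‖x - b‖ ^ 2 * (‖x - b‖ * ‖v‖)) * ‖x - b‖ := by
        gcongr
    _ = _ := by field_simp; ring

/-- the basic Jacobian inequality of the collapse. -/
lemma col_jac (h0 : 0 < δ) (h1 : δ ≤ 1) (hR : 0 < R) (hx : x ≠ b) (hxR : ‖x - b‖ < R)
    (hn : 1 ≤ n) (hpn : p ≤ (n : ℝ) - 1) :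
    (2 * (R / ‖x - b‖)) ^ p ≤ (2 ^ p * 4 ^ (n - 1) * (2 / δ)) * |(colD δ b R x).det| := by
  have hs : 0 < ‖x - b‖ := norm_pos_iff.2 (sub_ne_zero.2 hx)
  have hA := colA_pos h0 h1 hR hx
  have hm1 := mmd_le_one h1 (‖x - b‖ / R)
  have hm2 := half_le_mmd h1 (‖x - b‖ / R)
  have hRs : 1 ≤ R / ‖x - b‖ := (one_le_div hs).2 hxR.le
  have hA4 : (R / ‖x - b‖) / 4 ≤ colA δ b R x := by
    have := mm_pos h0 h1 (div_nonneg hs.le hR.le)
    unfold colA
    rw [div_div, div_le_div_iff₀ (by positivity) hs]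
    nlinarith [mul_pos hR hs]
  obtain ⟨k, rfl⟩ : ∃ k, n = k + 1 := ⟨n - 1, by omega⟩
  rw [colD_det hx hA.ne']
  have e1 : colA δ b R x ^ (k + 1) * (mmd δ (‖x - b‖ / R) / colA δ b R x)
      = colA δ b R x ^ k * mmd δ (‖x - b‖ / R) := by
    rw [pow_succ]; field_simp
  rw [e1, abs_of_pos (mul_pos (pow_pos hA _) (by linarith))]
  have e2 : ((R / ‖x - b‖) / 4) ^ k * (δ / 2) ≤ colA δ b R x ^ k * mmd δ (‖x - b‖ / R) := by
    gcongr
  have e3 : (R / ‖x - b‖) ^ p ≤ (R / ‖x - b‖) ^ k := by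
    rw [← Real.rpow_natCast]
    refine Real.rpow_le_rpow_of_exponent_le hRs ?_
    push_cast at hpn
    linarith
  rw [Real.mul_rpow (by norm_num) (by positivity)]
  have e4 : (2:ℝ) ^ p * 4 ^ (k + 1 - 1) * (2 / δ) * (((R / ‖x - b‖) / 4) ^ k * (δ / 2))
      = 2 ^ p * (R / ‖x - b‖) ^ k := by
    rw [div_pow (R / ‖x - b‖) 4 k]
    simp only [Nat.add_sub_cancel]
    field_simp
  calc 2 ^ p * (R / ‖x - b‖) ^ p ≤ 2 ^ p * (R / ‖x - b‖) ^ k := by gcongr
    _ = _ := e4.symm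
    _ ≤ _ := by gcongr

end

end Pool.Agent.H945
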