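import Pool.Agent.H945_Excise.Collapse

open MeasureTheory Set Filter Topology Metric
open scoped ContDiff ENNReal NNReal InnerProductSpace

namespace Pool.Agent.H945

variable {n : ℕ} {p : ℝ}

/-- the constant of the collapse lemma. -/
noncomputable def Kc (n : ℕ) (p δ : ℝ) : ℝ := 2 ^ p * 4 ^ (n - 1) * (2 / δ)

lemma fderiv_eq_of_eq_off {g g' : E n → E n} {A : Set (E n)} (hA : IsOpen A)
    (h : ∀ x ∈ A, g' x = g x) : ∀ x ∈ A, fderiv ℝ g' x = fderiv ℝ g x := by
  intro x hx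
  refine Filter.EventuallyEq.fderiv_eq ?_
  filter_upwards [hA.mem_nhds hx] with y hy using h y hy

/-- Collapse: a diffeomorphism which is defined near the sphere of radius `R` about `b`, inside up
to radius `(1 - δ) R`, can be replaced by one which is defined on the punctured ball. -/
lemma collapse (hn : 1 ≤ n) (hp : 1 ≤ p) (hpn : p ≤ (n : ℝ) - 1) {V : Set (E n)}
    (hV : IsOpen V) {g : E n → E n} (hg : GoodOn g V) {b : E n} {R δ : ℝ} (hR : 0 < R)
    (h0 : 0 < δ) (h1 : δ ≤ 1) (hA : closedBall b R \ ball b ((1 - δ) * R) ⊆ V) :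
    ∃ g' : E n → E n, GoodOn g' ((V ∪ ball b R) \ {b}) ∧ (∀ x, x ∉ ball b R → g' x = g x) ∧
      En p g' (ball b R) ≤
        ENNReal.ofReal (Kc n p δ) * En p g (ball b R \ closedBall b ((1 - δ) * R)) ∧
      ∃ K : ℝ, ∀ x ∈ ball b R, x ≠ b → ‖g' x‖ ≤ K ∧ ‖fderiv ℝ g' x‖ * ‖x - b‖ ≤ K := by
  set c := col δ b R with hc
  have hp0 : 0 < p := by linarith
  -- norm of the image
  have hshell : ∀ x ∈ ball b R, x ≠ b →
      (1 - δ / 2) ^ 2 * R ≤ ‖c x - b‖ ∧ (1 - δ) * R < ‖c x - b‖ ∧ ‖c x - b‖ < R := by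
    intro x hx hxb
    rw [mem_ball, dist_eq_norm] at hx
    have hs : 0 < ‖x - b‖ := norm_pos_iff.2 (sub_ne_zero.2 hxb)
    rw [hc, norm_col_sub h0 h1 hR hxb]
    have e1 := mm_zero_ge h0 h1
    have e2 : mm δ 0 < mm δ (‖x - b‖ / R) := mm_strictMono h0 h1 (by positivity)
    have e3 : mm δ (‖x - b‖ / R) < mm δ 1 := mm_strictMono h0 h1 ((div_lt_one hR).2 hx)
    rw [mm_one] at e3
    have e4 : 1 - δ ≤ (1 - δ / 2) ^ 2 := by nlinarith [sq_nonneg δ]
    refine ⟨?_, ?_, ?_⟩
    · nlinarith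
    · nlinarith
    · nlinarith
  have hmap : ∀ x ∈ (V ∪ ball b R) \ {b}, c x ∈ V := by
    rintro x ⟨hx, hxb⟩
    rw [mem_singleton_iff] at hxb
    by_cases hxR : x ∈ ball b R
    · obtain ⟨_, e2, e3⟩ := hshell x hxR hxb
      refine hA ⟨?_, ?_⟩
      · rw [mem_closedBall, dist_eq_norm]; exact e3.le
      · rw [mem_ball, dist_eq_norm]; exact not_lt.2 e2.le
    · have : c x = x := by
        rw [hc]; refine col_of_le h0 hR ?_
        rw [mem_ball, dist_eq_norm] at hxR
        exact not_lt.1 hxR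
      rw [this]
      rcases hx with h | h
      · exact h
      · exact absurd h hxR
  have hder : ∀ x, x ≠ b → c x ∈ V →
      HasFDerivAt (g ∘ c) ((fderiv ℝ g (c x)).comp (colD δ b R x)) x := by
    intro x hxb hcx
    have hgd : DifferentiableAt ℝ g (c x) :=
      ((hg.smooth.contDiffAt (hV.mem_nhds hcx)).differentiableAt (by simp))
    exact hgd.hasFDerivAt.comp x (col_hasFDerivAt hR hxb)
  have hcinj : ∀ x y, x ≠ b → y ≠ b → c x = c y → x = y := by
    intro x y hx hy hxy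
    have hsx : 0 < ‖x - b‖ := norm_pos_iff.2 (sub_ne_zero.2 hx)
    have hsy : 0 < ‖y - b‖ := norm_pos_iff.2 (sub_ne_zero.2 hy)
    have hn' : ‖x - b‖ = ‖y - b‖ := by
      have e1 := norm_col_sub h0 h1 hR hx
      have e2 := norm_col_sub h0 h1 hR hy
      rw [hc] at hxy
      rw [hxy, e2] at e1
      have e3 := (mm_strictMono h0 h1).injective (mul_left_cancel₀ hR.ne' e1)
      field_simp at e3
      exact e3.symm
    have hAx := colA_pos h0 h1 hR hx
    have e4 : colA δ b R x • (x - b) = colA δ b R y • (y - b) := by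
      have : b + colA δ b R x • (x - b) = b + colA δ b R y • (y - b) := hxy
      exact add_left_cancel this
    have e5 : colA δ b R y = colA δ b R x := by unfold colA; rw [hn']
    rw [e5] at e4
    have := smul_right_injective (E n) hAx.ne' e4
    exact sub_left_injective this
  have hcimg : c '' (ball b R \ {b}) ⊆ ball b R \ closedBall b ((1 - δ) * R) := by
    rintro _ ⟨x, ⟨hx, hxb⟩, rfl⟩
    obtain ⟨_, e2, e3⟩ := hshell x hx hxb
    refine ⟨?_, ?_⟩
    · rw [mem_ball, dist_eq_norm]; exact e3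
    · rw [mem_closedBall, dist_eq_norm]; exact not_le.2 e2
  refine ⟨g ∘ c, ⟨?_, ?_, ?_⟩, ?_, ?_, ?_⟩
  · -- smooth
    intro x hx
    have hxb : x ≠ b := hx.2
    exact (((hg.smooth.contDiffAt (hV.mem_nhds (hmap x hx))).comp x
      (col_contDiffAt hxb))).contDiffWithinAt
  · -- injective
    intro x hx y hy hxy
    exact hcinj x y hx.2 hy.2 (hg.inj (hmap x hx) (hmap y hy) hxy)
  · -- immersion
    intro x hx
    rw [(hder x hx.2 (hmap x hx)).fderiv]
    exact (hg.imm _ (hmap x hx)).comp (colD_injective h0 h1 hR hx.2)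
  · -- off the ball
    intro x hx
    have : c x = x := by
      rw [hc]; refine col_of_le h0 hR ?_
      rw [mem_ball, dist_eq_norm] at hx
      exact not_lt.1 hx
    simp [this]
  · -- energy
    have : Nonempty (Fin n) := ⟨⟨0, by omega⟩⟩
    have : Nontrivial (E n) := inferInstance
    set F : E n → ℝ≥0∞ := fun y => ‖g y‖ₑ ^ p + ‖fderiv ℝ g y‖ₑ ^ p with hF
    have hae : (ball b R \ {b} : Set (E n)) =ᵐ[volume] ball b R := by
      have : volume ({b} : Set (E n)) = 0 := measure_singleton b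
      exact sdiff_null_ae_eq_self this
    have hEn : En p (g ∘ c) (ball b R)
        = ∫⁻ x in (ball b R \ {b}), (‖(g ∘ c) x‖ₑ ^ p + ‖fderiv ℝ (g ∘ c) x‖ₑ ^ p) := by
      unfold En
      exact setLIntegral_congr hae.symm
    have hms : MeasurableSet (ball b R \ {b} : Set (E n)) :=
      measurableSet_ball.diff (measurableSet_singleton b)
    rw [hEn]
    have hpt : ∀ x ∈ (ball b R \ {b} : Set (E n)),
        ‖(g ∘ c) x‖ₑ ^ p + ‖fderiv ℝ (g ∘ c) x‖ₑ ^ p ≤
          ENNReal.ofReal (Kc n p δ) * (ENNReal.ofReal |(colD δ b R x).det| * F (c x)) := by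
      rintro x ⟨hx, hxb⟩
      rw [mem_singleton_iff] at hxb
      have hxR : ‖x - b‖ < R := by rwa [mem_ball, dist_eq_norm] at hx
      have hs : 0 < ‖x - b‖ := norm_pos_iff.2 (sub_ne_zero.2 hxb)
      have hRs : 1 ≤ R / ‖x - b‖ := (one_le_div hs).2 hxR.le
      have hcx : c x ∈ V := hmap x ⟨Or.inr hx, hxb⟩
      have hj := col_jac (p := p) h0 h1 hR hxb hxR hn hpn
      have hK : 0 ≤ Kc n p δ := by unfold Kc; positivity
      have hj1 : (1:ℝ) ≤ Kc n p δ * |(colD δ b R x).det| := by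
        refine le_trans ?_ hj
        exact Real.one_le_rpow (by linarith) hp0.le
      rw [← mul_assoc, ← ENNReal.ofReal_mul hK, hF, mul_add]
      refine add_le_add ?_ ?_
      · have : (1:ℝ≥0∞) ≤ ENNReal.ofReal (Kc n p δ * |(colD δ b R x).det|) := by
          rw [← ENNReal.ofReal_one]; exact ENNReal.ofReal_le_ofReal hj1
        calc ‖(g ∘ c) x‖ₑ ^ p = 1 * ‖g (c x)‖ₑ ^ p := by rw [one_mul]; rfl
          _ ≤ _ := by gcongr
      · rw [(hder x hxb hcx).fderiv]
        have e1 : ‖(fderiv ℝ g (c x)).comp (colD δ b R x)‖ₑ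
            ≤ ‖colD δ b R x‖ₑ * ‖fderiv ℝ g (c x)‖ₑ := by
          rw [mul_comm]
          have := ContinuousLinearMap.opNorm_comp_le (fderiv ℝ g (c x)) (colD δ b R x)
          rw [← ofReal_norm, ← ofReal_norm, ← ofReal_norm,
            ← ENNReal.ofReal_mul (norm_nonneg _)]
          exact ENNReal.ofReal_le_ofReal this
        calc ‖(fderiv ℝ g (c x)).comp (colD δ b R x)‖ₑ ^ p
            ≤ (‖colD δ b R x‖ₑ * ‖fderiv ℝ g (c x)‖ₑ) ^ p := by gcongr
          _ = ‖colD δ b R x‖ₑ ^ p * ‖fderiv ℝ g (c x)‖ₑ ^ p :=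
              ENNReal.mul_rpow_of_nonneg _ _ hp0.le
          _ ≤ ENNReal.ofReal (Kc n p δ * |(colD δ b R x).det|) * ‖fderiv ℝ g (c x)‖ₑ ^ p := by
              gcongr
              rw [← ofReal_norm, ENNReal.ofReal_rpow_of_nonneg (norm_nonneg _) hp0.le]
              refine ENNReal.ofReal_le_ofReal (le_trans ?_ hj)
              exact Real.rpow_le_rpow (norm_nonneg _) (colD_norm_le h0 h1 hR hxb hxR) hp0.le
    calc ∫⁻ x in (ball b R \ {b}), (‖(g ∘ c) x‖ₑ ^ p + ‖fderiv ℝ (g ∘ c) x‖ₑ ^ p)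
        ≤ ∫⁻ x in (ball b R \ {b}),
          ENNReal.ofReal (Kc n p δ) * (ENNReal.ofReal |(colD δ b R x).det| * F (c x)) :=
          setLIntegral_mono' hms hpt
      _ = ENNReal.ofReal (Kc n p δ) * ∫⁻ x in (ball b R \ {b}),
          (ENNReal.ofReal |(colD δ b R x).det| * F (c x)) :=
          lintegral_const_mul' _ _ ENNReal.ofReal_ne_top
      _ = ENNReal.ofReal (Kc n p δ) * ∫⁻ y in c '' (ball b R \ {b}), F y := by
          rw [lintegral_image_eq_lintegral_abs_det_fderiv_mul volume hms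
            (fun x hx => (col_hasFDerivAt hR hx.2).hasFDerivWithinAt)
            (fun x hx y hy hxy => hcinj x y hx.2 hy.2 hxy)]
      _ ≤ ENNReal.ofReal (Kc n p δ) * En p g (ball b R \ closedBall b ((1 - δ) * R)) := by
          unfold En
          gcongr
  · -- bounds
    have hcomp : IsCompact (closedBall b R \ ball b ((1 - δ / 2) ^ 2 * R)) :=
      (isCompact_closedBall b R).diff isOpen_ball
    have hsub : closedBall b R \ ball b ((1 - δ / 2) ^ 2 * R) ⊆ V := by
      refine subset_trans ?_ hA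
      rintro x ⟨hx1, hx2⟩
      refine ⟨hx1, fun hx3 => hx2 ?_⟩
      rw [mem_ball] at hx3 ⊢
      refine hx3.trans_le ?_
      have e4 : 1 - δ ≤ (1 - δ / 2) ^ 2 := by nlinarith [sq_nonneg δ]
      nlinarith
    have hgc : ContinuousOn g (closedBall b R \ ball b ((1 - δ / 2) ^ 2 * R)) :=
      hg.smooth.continuousOn.mono hsub
    have hgc' : ContinuousOn (fderiv ℝ g) (closedBall b R \ ball b ((1 - δ / 2) ^ 2 * R)) :=
      (hg.smooth.continuousOn_fderiv_of_isOpen hV (by simp)).mono hsub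
    obtain ⟨K1, hK1⟩ := hcomp.exists_bound_of_continuousOn hgc
    obtain ⟨K2, hK2⟩ := hcomp.exists_bound_of_continuousOn hgc'
    refine ⟨max K1 (K2 * (2 * R)), fun x hx hxb => ?_⟩
    obtain ⟨e1, e2, e3⟩ := hshell x hx hxb
    have hxR : ‖x - b‖ < R := by rwa [mem_ball, dist_eq_norm] at hx
    have hs : 0 < ‖x - b‖ := norm_pos_iff.2 (sub_ne_zero.2 hxb)
    have hcx : c x ∈ closedBall b R \ ball b ((1 - δ / 2) ^ 2 * R) := by
      refine ⟨?_, ?_⟩
      · rw [mem_closedBall, dist_eq_norm]; exact e3.le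
      · rw [mem_ball, dist_eq_norm]; exact not_lt.2 e1
    refine ⟨(hK1 _ hcx).trans (le_max_left _ _), le_trans ?_ (le_max_right _ _)⟩
    rw [(hder x hxb (hsub hcx)).fderiv]
    calc ‖(fderiv ℝ g (c x)).comp (colD δ b R x)‖ * ‖x - b‖
        ≤ (‖fderiv ℝ g (c x)‖ * ‖colD δ b R x‖) * ‖x - b‖ := by
          gcongr; exact ContinuousLinearMap.opNorm_comp_le _ _
      _ ≤ (K2 * (2 * (R / ‖x - b‖))) * ‖x - b‖ := by
          have := colD_norm_le h0 h1 hR hxb hxR
          have hK2' := hK2 _ hcx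
          have : 0 ≤ K2 := (norm_nonneg _).trans hK2'
          gcongr
      _ = K2 * (2 * R) := by field_simp

end Pool.Agent.H945
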