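import Pool.Agent.H945_Excise.Basic

open MeasureTheory Set Filter Topology Metric
open scoped ContDiff ENNReal NNReal

namespace Pool.Agent.H945

variable {n : ℕ}

/-- merged ball -/
noncomputable def mergeBall (x y : E n × ℝ) : E n × ℝ :=
  ((x.2 + y.2)⁻¹ • (x.2 • x.1 + y.2 • y.1), x.2 + y.2)

lemma merge_left {x y : E n × ℝ} (hx : 0 < x.2) (hy : 0 < y.2)
    (h : dist x.1 y.1 ≤ x.2 + y.2) :
    closedBall x.1 x.2 ⊆ closedBall (mergeBall x y).1 (mergeBall x y).2 := by
  have hs : 0 < x.2 + y.2 := by linarith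
  have h1 : x.1 - (mergeBall x y).1 = (y.2 / (x.2 + y.2)) • (x.1 - y.1) := by
    have e1 : (x.2 + y.2)⁻¹ • ((x.2 + y.2) • x.1) = x.1 := by
      rw [smul_smul, inv_mul_cancel₀ hs.ne', one_smul]
    have e2 : x.1 - (mergeBall x y).1
        = (x.2 + y.2)⁻¹ • ((x.2 + y.2) • x.1) - (x.2 + y.2)⁻¹ • (x.2 • x.1 + y.2 • y.1) := by
      rw [e1]; rfl
    rw [e2, ← smul_sub, div_eq_inv_mul, ← smul_smul]
    congr 1
    module
  refine closedBall_subset_closedBall' ?_
  rw [dist_eq_norm, h1, norm_smul, ← dist_eq_norm, Real.norm_of_nonneg (by positivity)]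
  have h2 : y.2 / (x.2 + y.2) * dist x.1 y.1 ≤ y.2 / (x.2 + y.2) * (x.2 + y.2) := by gcongr
  rw [div_mul_cancel₀ _ hs.ne'] at h2
  show x.2 + _ ≤ x.2 + y.2
  linarith

lemma mergeBall_comm (x y : E n × ℝ) : mergeBall x y = mergeBall y x := by
  unfold mergeBall
  rw [add_comm x.2, add_comm (x.2 • x.1)]

lemma merge_right {x y : E n × ℝ} (hx : 0 < x.2) (hy : 0 < y.2)
    (h : dist x.1 y.1 ≤ x.2 + y.2) :
    closedBall y.1 y.2 ⊆ closedBall (mergeBall x y).1 (mergeBall x y).2 := by
  rw [mergeBall_comm]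
  exact merge_left hy hx (by rw [dist_comm, add_comm]; exact h)

open Classical in
lemma merge_step {F : Finset (E n × ℝ)} (hF : ∀ x ∈ F, 0 < x.2) {x y : E n × ℝ} (hx : x ∈ F)
    (hy : y ∈ F) (hxy : x ≠ y) (h : dist x.1 y.1 ≤ x.2 + y.2) :
    ∃ F' : Finset (E n × ℝ), F'.card < F.card ∧ (∀ x ∈ F', 0 < x.2) ∧
      (∀ z ∈ F, ∃ w ∈ F', closedBall z.1 z.2 ⊆ closedBall w.1 w.2) ∧
      (∀ w ∈ F', ∃ z ∈ F, closedBall z.1 z.2 ⊆ closedBall w.1 w.2) ∧
      ∑ w ∈ F', w.2 ≤ ∑ z ∈ F, z.2 := by
  have hx0 := hF x hx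
  have hy0 := hF y hy
  have hyx : y ∈ F.erase x := Finset.mem_erase.2 ⟨hxy.symm, hy⟩
  set F₀ := (F.erase x).erase y with hF₀
  refine ⟨insert (mergeBall x y) F₀, ?_, ?_, ?_, ?_, ?_⟩
  · have h1 := Finset.card_insert_le (mergeBall x y) F₀
    have h2 : F₀.card + 1 = (F.erase x).card := Finset.card_erase_add_one hyx
    have h3 : (F.erase x).card + 1 = F.card := Finset.card_erase_add_one hx
    omega
  · intro z hz
    rcases Finset.mem_insert.1 hz with rfl | hz
    · show 0 < x.2 + y.2
      linarith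
    · exact hF z (Finset.mem_of_mem_erase (Finset.mem_of_mem_erase hz))
  · intro z hz
    by_cases hzx : z = x
    · exact ⟨_, Finset.mem_insert_self _ _, by rw [hzx]; exact merge_left hx0 hy0 h⟩
    by_cases hzy : z = y
    · exact ⟨_, Finset.mem_insert_self _ _, by rw [hzy]; exact merge_right hx0 hy0 h⟩
    exact ⟨z, Finset.mem_insert_of_mem (Finset.mem_erase.2 ⟨hzy, Finset.mem_erase.2 ⟨hzx, hz⟩⟩),
      Subset.rfl⟩
  · intro w hw
    rcases Finset.mem_insert.1 hw with rfl | hw
    · exact ⟨x, hx, merge_left hx0 hy0 h⟩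
    · exact ⟨w, Finset.mem_of_mem_erase (Finset.mem_of_mem_erase hw), Subset.rfl⟩
  · have h1 : ∑ z ∈ F, z.2 = x.2 + (y.2 + ∑ z ∈ F₀, z.2) := by
      rw [← Finset.add_sum_erase F _ hx, ← Finset.add_sum_erase (F.erase x) _ hyx]
    rw [h1]
    by_cases hm : mergeBall x y ∈ F₀
    · rw [Finset.insert_eq_of_mem hm]; linarith
    · rw [Finset.sum_insert hm]
      show x.2 + y.2 + _ ≤ _
      linarith

open Classical in
theorem grow (N : ℕ) : ∀ (F : Finset (E n × ℝ)), F.card ≤ N → (∀ x ∈ F, 0 < x.2) →
    ∀ T : ℝ, 0 < T → ∀ (μ : Measure (E n)) [IsFiniteMeasure μ],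
    ∃ τ : ℝ, 0 < τ ∧ τ ≤ T ∧ ∃ G : Finset (E n × ℝ), (∀ x ∈ G, 0 < x.2) ∧
      (G : Set (E n × ℝ)).PairwiseDisjoint (fun x => ball x.1 (Real.exp τ * x.2)) ∧
      (∀ x ∈ F, ∃ y ∈ G, closedBall x.1 x.2 ⊆ closedBall y.1 y.2) ∧
      (∀ y ∈ G, ∃ x ∈ F, closedBall x.1 x.2 ⊆ closedBall y.1 y.2) ∧
      ∑ y ∈ G, Real.exp τ * y.2 ≤ Real.exp T * ∑ x ∈ F, x.2 ∧
      μ.real (⋃ y ∈ G, (ball y.1 (Real.exp τ * y.2) \ closedBall y.1 y.2))
        ≤ τ / T * μ.real univ := by
  induction N with
  | zero =>
    intro F hF _ T hT μ _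
    have hF0 : F = ∅ := Finset.card_eq_zero.1 (Nat.le_zero.1 hF)
    subst hF0
    refine ⟨T, hT, le_rfl, ∅, by simp, by simp, by simp, by simp, by simp, ?_⟩
    simp only [Finset.notMem_empty, iUnion_of_empty, iUnion_empty, measureReal_empty]
    positivity
  | succ N ih =>
    intro F hcard hF T hT μ _
    by_cases hne : F.offDiag.Nonempty
    swap
    · -- at most one ball
      rw [Finset.not_nonempty_iff_eq_empty] at hne
      refine ⟨T, hT, le_rfl, F, hF, ?_, fun x hx => ⟨x, hx, Subset.rfl⟩,
        fun x hx => ⟨x, hx, Subset.rfl⟩, ?_, ?_⟩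
      · intro x hx y hy hxy
        exfalso
        have : (x, y) ∈ F.offDiag := Finset.mem_offDiag.2 ⟨hx, hy, hxy⟩
        rw [hne] at this
        exact absurd this (Finset.notMem_empty _)
      · rw [Finset.mul_sum]
      · rw [div_self hT.ne', one_mul]
        exact measureReal_mono (subset_univ _)
    obtain ⟨⟨x, y⟩, hxyF, hmin⟩ := Finset.exists_min_image F.offDiag
      (fun q => dist q.1.1 q.2.1 / (q.1.2 + q.2.2)) hne
    obtain ⟨hx, hy, hxy⟩ := Finset.mem_offDiag.1 hxyF
    simp only at hx hy hxy hmin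
    have hx0 := hF x hx
    have hy0 := hF y hy
    set ρ : ℝ := dist x.1 y.1 / (x.2 + y.2) with hρ
    have hρd : dist x.1 y.1 = ρ * (x.2 + y.2) := by
      rw [hρ, div_mul_cancel₀ _ (by linarith)]
    have hdisj : ∀ z ∈ F, ∀ w ∈ F, z ≠ w → ρ * (z.2 + w.2) ≤ dist z.1 w.1 := by
      intro z hz w hw hzw
      have h1 := hmin (z, w) (Finset.mem_offDiag.2 ⟨hz, hw, hzw⟩)
      simp only at h1
      have h2 : 0 < z.2 + w.2 := by linarith [hF z hz, hF w hw]
      rwa [le_div_iff₀ h2] at h1
    rcases le_or_gt ρ 1 with hρ1 | hρ1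
    · -- merge right now
      obtain ⟨F', hc, hpos, hcov, hcov', hsum⟩ := merge_step hF hx hy hxy (by
        rw [hρd]; nlinarith)
      obtain ⟨τ, hτ, hτT, G, hG, hGd, hG1, hG2, hG3, hG4⟩ := ih F' (by omega) hpos T hT μ
      refine ⟨τ, hτ, hτT, G, hG, hGd, ?_, ?_, ?_, hG4⟩
      · intro z hz
        obtain ⟨w, hw, hzw⟩ := hcov z hz
        obtain ⟨v, hv, hwv⟩ := hG1 w hw
        exact ⟨v, hv, hzw.trans hwv⟩
      · intro v hv
        obtain ⟨w, hw, hwv⟩ := hG2 v hv
        obtain ⟨z, hz, hzw⟩ := hcov' w hw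
        exact ⟨z, hz, hzw.trans hwv⟩
      · exact hG3.trans (by gcongr)
    · -- grow for a while
      have hρ0 : 0 < ρ := by linarith
      set t : ℝ := min (Real.log ρ) T with ht
      have ht0 : 0 < t := lt_min (Real.log_pos hρ1) hT
      have htρ : Real.exp t ≤ ρ := by
        calc Real.exp t ≤ Real.exp (Real.log ρ) := Real.exp_le_exp.2 (min_le_left _ _)
          _ = ρ := Real.exp_log hρ0
      have hpd : (F : Set (E n × ℝ)).PairwiseDisjoint
          (fun x => ball x.1 (Real.exp t * x.2)) := by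
        intro z hz w hw hzw
        refine ball_disjoint_ball ?_
        calc Real.exp t * z.2 + Real.exp t * w.2 = Real.exp t * (z.2 + w.2) := by ring
          _ ≤ ρ * (z.2 + w.2) := by
            have := hF z hz
            have := hF w hw
            gcongr
          _ ≤ dist z.1 w.1 := hdisj z hz w hw hzw
      set A : Set (E n) := ⋃ y ∈ F, (ball y.1 (Real.exp t * y.2) \ closedBall y.1 y.2) with hA
      have hAm : MeasurableSet A :=
        Finset.measurableSet_biUnion _ fun y _ => measurableSet_ball.diff measurableSet_closedBall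
      by_cases hcase : μ.real A ≤ t / T * μ.real univ
      · refine ⟨t, ht0, min_le_right _ _, F, hF, hpd, fun x hx => ⟨x, hx, Subset.rfl⟩,
          fun x hx => ⟨x, hx, Subset.rfl⟩, ?_, hcase⟩
        rw [← Finset.mul_sum]
        have : 0 ≤ ∑ x ∈ F, x.2 := Finset.sum_nonneg fun x hx => (hF x hx).le
        have h2 : t ≤ T := min_le_right _ _
        gcongr
      · push Not at hcase
        have htT : t < T := by
          by_contra hcon
          have : t = T := le_antisymm (min_le_right _ _) (not_lt.1 hcon)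
          rw [this, div_self hT.ne', one_mul] at hcase
          exact absurd (measureReal_mono (subset_univ A)) (not_le.2 hcase)
        have htlog : t = Real.log ρ := by
          rcases min_choice (Real.log ρ) T with h | h
          · exact h
          · rw [← ht] at h; exact absurd h htT.ne
        have hexpt : Real.exp t = ρ := by rw [htlog, Real.exp_log hρ0]
        -- scaled family
        set F₁ : Finset (E n × ℝ) := F.image (fun z => (z.1, Real.exp t * z.2)) with hF₁
        have hcard1 : F₁.card ≤ F.card := Finset.card_image_le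
        have hinj : InjOn (fun z : E n × ℝ => (z.1, Real.exp t * z.2)) (F : Set (E n × ℝ)) := by
          intro z _ w _ hzw
          simp only [Prod.mk.injEq] at hzw
          ext1
          · exact hzw.1
          · exact mul_left_cancel₀ (Real.exp_pos t).ne' hzw.2
        have hF₁pos : ∀ z ∈ F₁, 0 < z.2 := by
          intro z hz
          obtain ⟨w, hw, rfl⟩ := Finset.mem_image.1 hz
          exact mul_pos (Real.exp_pos t) (hF w hw)
        have hF₁sum : ∑ z ∈ F₁, z.2 = Real.exp t * ∑ z ∈ F, z.2 := by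
          rw [hF₁, Finset.sum_image hinj, Finset.mul_sum]
        obtain ⟨F', hc, hpos, hcov, hcov', hsum⟩ := merge_step (F := F₁) hF₁pos
          (x := (x.1, Real.exp t * x.2)) (y := (y.1, Real.exp t * y.2))
          (Finset.mem_image_of_mem _ hx) (Finset.mem_image_of_mem _ hy)
          (fun h => hxy (hinj hx hy h)) (by
            simp only
            rw [hρd, hexpt]
            exact le_of_eq (by ring))
        have hTt : 0 < T - t := by linarith
        obtain ⟨τ, hτ, hτT, G, hG, hGd, hG1, hG2, hG3, hG4⟩ :=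
          ih F' (by omega) hpos (T - t) hTt (μ.restrict Aᶜ)
        have hsub : ∀ z ∈ F, closedBall z.1 z.2 ⊆ closedBall z.1 (Real.exp t * z.2) := by
          intro z hz
          refine closedBall_subset_closedBall ?_
          have := Real.one_le_exp ht0.le
          have := hF z hz
          nlinarith
        refine ⟨τ, hτ, by linarith, G, hG, hGd, ?_, ?_, ?_, ?_⟩
        · intro z hz
          obtain ⟨w, hw, hzw⟩ := hcov (z.1, Real.exp t * z.2) (Finset.mem_image_of_mem _ hz)
          obtain ⟨v, hv, hwv⟩ := hG1 w hw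
          exact ⟨v, hv, (hsub z hz).trans (hzw.trans hwv)⟩
        · intro v hv
          obtain ⟨w, hw, hwv⟩ := hG2 v hv
          obtain ⟨z', hz', hzw⟩ := hcov' w hw
          obtain ⟨z, hz, rfl⟩ := Finset.mem_image.1 hz'
          exact ⟨z, hz, (hsub z hz).trans (hzw.trans hwv)⟩
        · calc ∑ y ∈ G, Real.exp τ * y.2 ≤ Real.exp (T - t) * ∑ x ∈ F', x.2 := hG3
            _ ≤ Real.exp (T - t) * (Real.exp t * ∑ z ∈ F, z.2) := by
              rw [← hF₁sum]; gcongr
            _ = Real.exp T * ∑ z ∈ F, z.2 := by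
              rw [← mul_assoc, ← Real.exp_add]; congr 2; ring
        · set B : Set (E n) := ⋃ y ∈ G, (ball y.1 (Real.exp τ * y.2) \ closedBall y.1 y.2)
            with hB
          have hBm : MeasurableSet B :=
            Finset.measurableSet_biUnion _ fun y _ =>
              measurableSet_ball.diff measurableSet_closedBall
          have hBA : B ⊆ Aᶜ := by
            intro z hz hzA
            simp only [hB, mem_iUnion, exists_prop] at hz
            simp only [hA, mem_iUnion, exists_prop] at hzA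
            obtain ⟨v, hv, hzv1, hzv2⟩ := hz
            obtain ⟨u, hu, hzu1, hzu2⟩ := hzA
            obtain ⟨w, hw, huw⟩ := hcov (u.1, Real.exp t * u.2) (Finset.mem_image_of_mem _ hu)
            obtain ⟨v', hv', hwv'⟩ := hG1 w hw
            have hzv' : z ∈ closedBall v'.1 v'.2 := hwv' (huw (ball_subset_closedBall hzu1))
            by_cases hvv : v' = v
            · rw [hvv] at hzv'; exact hzv2 hzv'
            · have hd := hGd hv' hv hvv
              refine Set.disjoint_left.1 hd ?_ hzv1
              refine (closedBall_subset_ball ?_) hzv'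
              have h1 := Real.one_lt_exp_iff.2 hτ
              have h2 := hG v' hv'
              nlinarith
          have h1 : (μ.restrict Aᶜ).real B = μ.real B := by
            rw [measureReal_restrict_apply hBm, inter_eq_left.2 hBA]
          have h2 : (μ.restrict Aᶜ).real univ = μ.real univ - μ.real A := by
            rw [measureReal_restrict_apply MeasurableSet.univ, univ_inter, measureReal_compl hAm]
          rw [h1, h2] at hG4
          refine hG4.trans ?_
          have h3 : μ.real univ - μ.real A ≤ (T - t) / T * μ.real univ := by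
            have : (T - t) / T * μ.real univ = μ.real univ - t / T * μ.real univ := by
              field_simp
            rw [this]; linarith
          calc τ / (T - t) * (μ.real univ - μ.real A)
              ≤ τ / (T - t) * ((T - t) / T * μ.real univ) := by gcongr
            _ = τ / T * μ.real univ := by field_simp

end Pool.Agent.H945
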