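import Pool.Agent.H945_Excise.MultiCollapse
import Pool.Agent.H945_Excise.Growth

open MeasureTheory Set Filter Topology Metric
open scoped ContDiff ENNReal NNReal

namespace Pool.Agent.H945

variable {n : ℕ} {p : ℝ}

/-- the constant of the core collapse step -/
noncomputable def C0 (n : ℕ) (p : ℝ) : ℝ := 2 ^ p * 4 ^ (n - 1) * 12

lemma C0_pos : 0 < C0 n p := by unfold C0; positivity

lemma one_sub_exp_ge {x : ℝ} (h0 : 0 ≤ x) (h1 : x ≤ 1) : x / 2 ≤ 1 - Real.exp (-x) := by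
  have h2 : Real.exp (-x) ≤ 1 / (1 + x) := by
    rw [Real.exp_neg, ← one_div]
    exact one_div_le_one_div_of_le (by linarith) (by linarith [Real.add_one_le_exp x])
  have h3 : 1 / (1 + x) ≤ 1 - x / 2 := by
    rw [div_le_iff₀ (by linarith)]
    nlinarith
  linarith

lemma Kc_mul_le {τ : ℝ} (h0 : 0 < τ) (h1 : τ ≤ 1) :
    Kc n p (1 - Real.exp (-(τ / 3))) * τ ≤ C0 n p := by
  have h2 : τ / 6 ≤ 1 - Real.exp (-(τ / 3)) := by
    have := one_sub_exp_ge (x := τ / 3) (by positivity) (by linarith)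
    linarith
  have h3 : 2 / (1 - Real.exp (-(τ / 3))) * τ ≤ 12 := by
    rw [div_mul_eq_mul_div, div_le_iff₀ (by linarith)]
    linarith
  unfold Kc C0
  rw [mul_assoc]
  gcongr

open Classical in
/-- The core collapse step. -/
lemma core (hn : 1 ≤ n) (hp : 1 ≤ p) (hpn : p ≤ (n : ℝ) - 1) {V W : Set (E n)} (hV : IsOpen V)
    {g : E n → E n} (hg : GoodOn g V) {ε' : ℝ} (hε' : 0 ≤ ε')
    (hE : En p g W ≤ ENNReal.ofReal ε') (F : Finset (E n × ℝ)) (hF : ∀ x ∈ F, 0 < x.2)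
    (hW : ∀ x ∈ F, closedBall x.1 (2 * (Real.exp 1 * ∑ x ∈ F, x.2)) ⊆ W) :
    ∃ τ : ℝ, 0 < τ ∧ τ ≤ 1 ∧ ∃ G : Finset (E n × ℝ), (∀ x ∈ G, 0 < x.2) ∧
      (G : Set (E n × ℝ)).PairwiseDisjoint (fun x => ball x.1 (Real.exp τ * x.2)) ∧
      (∀ x ∈ F, ∃ y ∈ G, closedBall x.1 x.2 ⊆ closedBall y.1 y.2) ∧
      (∀ y ∈ G, ∃ x ∈ F, closedBall y.1 (Real.exp τ * y.2) ⊆
        closedBall x.1 (2 * (Real.exp 1 * ∑ x ∈ F, x.2))) ∧
      (∀ y ∈ G, Real.exp τ * y.2 ≤ Real.exp 1 * ∑ x ∈ F, x.2) ∧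
      ∀ J ⊆ G, (∀ y ∈ J, closedBall y.1 (Real.exp (2 * τ / 3) * y.2) \
          ball y.1 (Real.exp (τ / 3) * y.2) ⊆ V) →
        ∃ g' : E n → E n,
          GoodOn g' ((V ∪ ⋃ y ∈ J, ball y.1 (Real.exp (2 * τ / 3) * y.2)) \
            ((J.image Prod.fst : Finset (E n)) : Set (E n))) ∧
          (∀ x, x ∉ (⋃ y ∈ J, ball y.1 (Real.exp (2 * τ / 3) * y.2)) → g' x = g x) ∧
          En p g' (⋃ y ∈ J, ball y.1 (Real.exp (2 * τ / 3) * y.2))
            ≤ ENNReal.ofReal (C0 n p * ε') := by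
  set D : E n → ℝ≥0∞ := fun x => ‖g x‖ₑ ^ p + ‖fderiv ℝ g x‖ₑ ^ p with hD
  set μ : Measure (E n) := (volume.restrict W).withDensity D with hμ
  have hμu : μ univ = En p g W := by
    rw [hμ, withDensity_apply _ MeasurableSet.univ, Measure.restrict_univ]; rfl
  have hfin : IsFiniteMeasure μ := ⟨by
    rw [hμu]; exact lt_of_le_of_lt hE ENNReal.ofReal_lt_top⟩
  obtain ⟨τ, hτ0, hτ1, G, hG, hGd, hG1, hG2, hG3, hG4⟩ :=
    grow F.card F le_rfl hF 1 one_pos μ
  set sr : ℝ := ∑ x ∈ F, x.2 with hsr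
  have hrad : ∀ y ∈ G, Real.exp τ * y.2 ≤ Real.exp 1 * sr := by
    intro y hy
    refine le_trans ?_ hG3
    exact Finset.single_le_sum (f := fun y : E n × ℝ => Real.exp τ * y.2)
      (fun z hz => (mul_pos (Real.exp_pos τ) (hG z hz)).le) hy
  have heτ : 1 < Real.exp τ := Real.one_lt_exp_iff.2 hτ0
  have hin : ∀ y ∈ G, ∃ x ∈ F, closedBall y.1 (Real.exp τ * y.2) ⊆
        closedBall x.1 (2 * (Real.exp 1 * sr)) := by
    intro y hy
    obtain ⟨x, hx, hxy⟩ := hG2 y hy
    refine ⟨x, hx, closedBall_subset_closedBall' ?_⟩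
    have h1 : dist x.1 y.1 ≤ y.2 := hxy (mem_closedBall_self (hF x hx).le)
    rw [dist_comm] at h1
    have h2 := hrad y hy
    have h3 := hG y hy
    nlinarith
  refine ⟨τ, hτ0, hτ1, G, hG, hGd, hG1, hin, hrad, ?_⟩
  intro J hJ hcol
  set δ : ℝ := 1 - Real.exp (-(τ / 3)) with hδ
  have hδ0 : 0 < δ := by
    have : Real.exp (-(τ / 3)) < 1 := by rw [Real.exp_lt_one_iff]; linarith
    rw [hδ]; linarith
  have hδ1 : δ ≤ 1 := by have := Real.exp_pos (-(τ / 3)); rw [hδ]; linarith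
  have hδe : ∀ y : E n × ℝ, (1 - δ) * (Real.exp (2 * τ / 3) * y.2) = Real.exp (τ / 3) * y.2 := by
    intro y
    rw [hδ, sub_sub_cancel, ← mul_assoc, ← Real.exp_add]
    congr 2; ring
  have he1 : Real.exp (2 * τ / 3) < Real.exp τ := Real.exp_lt_exp.2 (by linarith)
  have he2 : 1 < Real.exp (τ / 3) := Real.one_lt_exp_iff.2 (by positivity)
  -- the scaled family
  set sc : E n × ℝ → E n × ℝ := fun y => (y.1, Real.exp (2 * τ / 3) * y.2) with hsc
  set J' : Finset (E n × ℝ) := J.image sc with hJ'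
  have himg : J'.image Prod.fst = J.image Prod.fst := by
    rw [hJ', Finset.image_image]; rfl
  have hunion : (⋃ y ∈ J', ball y.1 y.2) = ⋃ y ∈ J, ball y.1 (Real.exp (2 * τ / 3) * y.2) := by
    rw [hJ', Finset.set_biUnion_finset_image]
  obtain ⟨g', hg', hoff, hE'⟩ := multi_collapse hn hp hpn hV hg hδ0 hδ1 J' (by
      intro y hy
      obtain ⟨z, hz, rfl⟩ := Finset.mem_image.1 hy
      exact mul_pos (Real.exp_pos _) (hG z (hJ hz))) (by
      intro y hy z hz hyz
      obtain ⟨y, hy', rfl⟩ := Finset.mem_image.1 (Finset.mem_coe.1 hy)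
      obtain ⟨z, hz', rfl⟩ := Finset.mem_image.1 (Finset.mem_coe.1 hz)
      have hne : y ≠ z := fun h => hyz (by rw [h])
      refine (hGd (hJ hy') (hJ hz') hne).mono ?_ ?_
      · refine closedBall_subset_ball ?_
        have := hG y (hJ hy')
        show Real.exp (2 * τ / 3) * y.2 < Real.exp τ * y.2
        gcongr
      · refine closedBall_subset_ball ?_
        have := hG z (hJ hz')
        show Real.exp (2 * τ / 3) * z.2 < Real.exp τ * z.2
        gcongr) (by
      intro y hy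
      obtain ⟨z, hz, rfl⟩ := Finset.mem_image.1 hy
      show closedBall z.1 (Real.exp (2 * τ / 3) * z.2) \
        ball z.1 ((1 - δ) * (Real.exp (2 * τ / 3) * z.2)) ⊆ V
      rw [hδe]
      exact hcol z hz)
  rw [himg, hunion] at hg'
  rw [hunion] at hoff
  refine ⟨g', hg', hoff, ?_⟩
  -- the energy
  have hpd : (J : Set (E n × ℝ)).PairwiseDisjoint
      (fun y => ball y.1 (Real.exp (2 * τ / 3) * y.2)) := by
    intro y hy z hz hyz
    refine (hGd (hJ hy) (hJ hz) hyz).mono ?_ ?_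
    · refine ball_subset_ball ?_
      have := hG y (hJ hy)
      gcongr
    · refine ball_subset_ball ?_
      have := hG z (hJ hz)
      gcongr
  have hpd2 : (J : Set (E n × ℝ)).PairwiseDisjoint
      (fun y => ball y.1 (Real.exp (2 * τ / 3) * y.2) \ closedBall y.1 (Real.exp (τ / 3) * y.2)) :=
    fun y hy z hz hyz => (hpd hy hz hyz).mono sdiff_subset sdiff_subset
  have hann : (⋃ y ∈ J, (ball y.1 (Real.exp (2 * τ / 3) * y.2) \
      closedBall y.1 (Real.exp (τ / 3) * y.2))) ⊆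
      ⋃ y ∈ G, (ball y.1 (Real.exp τ * y.2) \ closedBall y.1 y.2) := by
    intro z hz
    simp only [mem_iUnion, exists_prop] at hz ⊢
    obtain ⟨y, hy, hz1, hz2⟩ := hz
    have hy0 := hG y (hJ hy)
    refine ⟨y, hJ hy, ball_subset_ball (by gcongr) hz1, fun h => hz2 ?_⟩
    refine closedBall_subset_closedBall ?_ h
    nlinarith
  have hAW : (⋃ y ∈ G, (ball y.1 (Real.exp τ * y.2) \ closedBall y.1 y.2)) ⊆ W := by
    intro z hz
    simp only [mem_iUnion, exists_prop] at hz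
    obtain ⟨y, hy, hz1, -⟩ := hz
    obtain ⟨x, hx, hxy⟩ := hin y hy
    exact hW x hx (hxy (ball_subset_closedBall hz1))
  have hAm : MeasurableSet (⋃ y ∈ G, (ball y.1 (Real.exp τ * y.2) \ closedBall y.1 y.2)) :=
    Finset.measurableSet_biUnion _ fun y _ => measurableSet_ball.diff measurableSet_closedBall
  have hEA : En p g (⋃ y ∈ G, (ball y.1 (Real.exp τ * y.2) \ closedBall y.1 y.2)) ≤
      ENNReal.ofReal (τ * ε') := by
    have h1 : μ (⋃ y ∈ G, (ball y.1 (Real.exp τ * y.2) \ closedBall y.1 y.2)) =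
        En p g (⋃ y ∈ G, (ball y.1 (Real.exp τ * y.2) \ closedBall y.1 y.2)) := by
      rw [hμ, withDensity_apply _ hAm, Measure.restrict_restrict hAm, inter_eq_left.2 hAW]; rfl
    rw [← h1, ← ofReal_measureReal (measure_ne_top μ _)]
    refine ENNReal.ofReal_le_ofReal (hG4.trans ?_)
    rw [div_one]
    have h2 : μ.real univ ≤ ε' := by
      rw [measureReal_def, hμu]
      exact ENNReal.toReal_le_of_le_ofReal hε' hE
    gcongr
  have hKc0 : 0 ≤ Kc n p δ := by unfold Kc; positivity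
  calc En p g' (⋃ y ∈ J, ball y.1 (Real.exp (2 * τ / 3) * y.2))
      = ∑ y ∈ J, En p g' (ball y.1 (Real.exp (2 * τ / 3) * y.2)) := by
        unfold En
        rw [lintegral_biUnion_finset hpd (fun _ _ => measurableSet_ball)]
    _ ≤ ∑ y ∈ J, ENNReal.ofReal (Kc n p δ) * En p g (ball y.1 (Real.exp (2 * τ / 3) * y.2) \
          closedBall y.1 (Real.exp (τ / 3) * y.2)) := by
        refine Finset.sum_le_sum fun y hy => ?_
        have := hE' (sc y) (Finset.mem_image_of_mem _ hy)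
        simp only [hsc] at this
        rwa [hδe] at this
    _ = ENNReal.ofReal (Kc n p δ) * En p g (⋃ y ∈ J, (ball y.1 (Real.exp (2 * τ / 3) * y.2) \
          closedBall y.1 (Real.exp (τ / 3) * y.2))) := by
        rw [← Finset.mul_sum]
        congr 1
        unfold En
        rw [lintegral_biUnion_finset hpd2
          (fun _ _ => measurableSet_ball.diff measurableSet_closedBall)]
    _ ≤ ENNReal.ofReal (Kc n p δ) * ENNReal.ofReal (τ * ε') := by
        gcongr
        exact (lintegral_mono_set hann).trans hEA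
    _ = ENNReal.ofReal (Kc n p δ * τ * ε') := by
        rw [← ENNReal.ofReal_mul hKc0, mul_assoc]
    _ ≤ ENNReal.ofReal (C0 n p * ε') := by
        refine ENNReal.ofReal_le_ofReal ?_
        have := Kc_mul_le (n := n) (p := p) hτ0 hτ1
        gcongr

end Pool.Agent.H945
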