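import Pool.Agent.H945_Excise.Basic

open MeasureTheory Set Filter Topology Metric
open scoped ContDiff ENNReal NNReal

namespace Pool.Agent.H945

variable {n : ℕ}

lemma volume_eq_zero_of_hausdorff (hn : 1 ≤ n) {S : Set (E n)}
    (hS : Measure.hausdorffMeasure 1 S = 0) : volume S = 0 := by
  have h0 : (1 : ℝ) ≤ (Module.finrank ℝ (E n) : ℝ) := by
    rw [finrank_euclideanSpace, Fintype.card_fin]; exact_mod_cast hn
  have h1 : (Measure.hausdorffMeasure (Module.finrank ℝ (E n) : ℝ) : Measure (E n)) S = 0 :=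
    le_antisymm ((Measure.hausdorffMeasure_mono h0 S).trans hS.le) (by simp)
  have h2 := Measure.isAddLeftInvariant_eq_smul (volume : Measure (E n))
    (Measure.hausdorffMeasure (Module.finrank ℝ (E n) : ℝ))
  rw [h2, Measure.smul_apply, h1, smul_zero]

lemma sum_image_le' {ι α : Type*} [DecidableEq ι] [DecidableEq α] (s : Finset ι) (f : ι → α) (w : α → ℝ)
    (hw : ∀ i ∈ s, 0 ≤ w (f i)) : ∑ x ∈ s.image f, w x ≤ ∑ i ∈ s, w (f i) := by
  induction s using Finset.induction_on with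
  | empty => simp
  | insert a s ha ih =>
    have h1 := ih (fun i hi => hw i (Finset.mem_insert_of_mem hi))
    have h2 := hw a (Finset.mem_insert_self _ _)
    rw [Finset.image_insert, Finset.sum_insert ha]
    by_cases h : f a ∈ s.image f
    · rw [Finset.insert_eq_of_mem h]; linarith
    · rw [Finset.sum_insert h]; linarith

open Classical in
/-- a compact set of zero length has finite covers by balls of small total radius -/
lemma exists_cover {T : Set (E n)} (hT : IsCompact T)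
    (h : Measure.hausdorffMeasure 1 T = 0) {η : ℝ} (hη : 0 < η) :
    ∃ F : Finset (E n × ℝ), (∀ x ∈ F, 0 < x.2 ∧ x.1 ∈ T) ∧
      T ⊆ (⋃ x ∈ F, closedBall x.1 x.2) ∧ ∑ x ∈ F, x.2 ≤ η := by
  have h1 : (⨅ (t : ℕ → Set (E n)) (_ : T ⊆ ⋃ n, t n) (_ : ∀ n, ediam (t n) ≤ (1 : ℝ≥0∞)),
      ∑' n, ⨆ _ : (t n).Nonempty, ediam (t n) ^ (1 : ℝ)) < ENNReal.ofReal (η / 2) := by
    have h2 := Measure.hausdorffMeasure_apply (X := E n) 1 T
    rw [h] at h2
    have h3 := le_iSup₂ (f := fun (r : ℝ≥0∞) (_ : 0 < r) =>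
      ⨅ (t : ℕ → Set (E n)) (_ : T ⊆ ⋃ n, t n) (_ : ∀ n, ediam (t n) ≤ r),
      ∑' n, ⨆ _ : (t n).Nonempty, ediam (t n) ^ (1 : ℝ)) 1 one_pos
    rw [← h2] at h3
    exact lt_of_le_of_lt h3 (by simpa using hη)
  simp only [iInf_lt_iff] at h1
  obtain ⟨t, htT, htd, hts⟩ := h1
  set c : ℕ → E n := fun i => if h : (t i ∩ T).Nonempty then h.some else 0 with hc
  set r : ℕ → ℝ := fun i => (ediam (t i)).toReal + η / 2 / 2 / 2 ^ i with hr
  have hrpos : ∀ i, 0 < r i := fun i => by
    have : 0 < η / 2 / 2 / 2 ^ i := by positivity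
    have h2 : 0 ≤ (ediam (t i)).toReal := ENNReal.toReal_nonneg
    simp only [hr]; linarith
  have hdt : ∀ i, ediam (t i) ≠ (⊤ : ℝ≥0∞) := fun i =>
    ne_top_of_le_ne_top ENNReal.one_ne_top (htd i)
  have hcov : T ⊆ ⋃ i, (if (t i ∩ T).Nonempty then ball (c i) (r i) else ∅) := by
    intro z hz
    obtain ⟨i, hi⟩ := mem_iUnion.1 (htT hz)
    refine mem_iUnion.2 ⟨i, ?_⟩
    have hne : (t i ∩ T).Nonempty := ⟨z, hi, hz⟩
    rw [if_pos hne, mem_ball]
    have hci : c i ∈ t i ∩ T := by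
      simp only [hc, dif_pos hne]; exact hne.some_mem
    have h2 : dist z (c i) ≤ (ediam (t i)).toReal := by
      rw [dist_edist]
      exact ENNReal.toReal_mono (hdt i) (edist_le_ediam_of_mem hi hci.1)
    have : 0 < η / 2 / 2 / 2 ^ i := by positivity
    simp only [hr]; linarith
  obtain ⟨s, hs⟩ := hT.elim_finite_subcover _ (fun i => by
    split_ifs
    · exact isOpen_ball
    · exact isOpen_empty) hcov
  set s' : Finset ℕ := s.filter (fun i => (t i ∩ T).Nonempty) with hs'
  refine ⟨s'.image (fun i => (c i, r i)), ?_, ?_, ?_⟩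
  · intro x hx
    obtain ⟨i, hi, rfl⟩ := Finset.mem_image.1 hx
    have hne : (t i ∩ T).Nonempty := (Finset.mem_filter.1 hi).2
    refine ⟨hrpos i, ?_⟩
    simp only [hc, dif_pos hne]
    exact hne.some_mem.2
  · intro z hz
    have hz' := hs hz
    simp only [mem_iUnion, exists_prop] at hz' ⊢
    obtain ⟨i, hi, hzi⟩ := hz'
    by_cases hne : (t i ∩ T).Nonempty
    · rw [if_pos hne] at hzi
      exact ⟨(c i, r i), Finset.mem_image_of_mem _ (Finset.mem_filter.2 ⟨hi, hne⟩),
        ball_subset_closedBall hzi⟩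
    · rw [if_neg hne] at hzi
      exact absurd hzi (notMem_empty _)
  · refine (sum_image_le' s' (fun i => (c i, r i)) (fun x : E n × ℝ => x.2) (fun i _ => (hrpos i).le)).trans ?_
    have h2 : ∑ i ∈ s', (ediam (t i)).toReal ≤ η / 2 := by
      have h3 : ∑ i ∈ s', ediam (t i) ≤ ENNReal.ofReal (η / 2) := by
        refine le_trans ?_ hts.le
        refine le_trans ?_ (ENNReal.sum_le_tsum s')
        refine Finset.sum_le_sum fun i hi => ?_
        have hne : (t i).Nonempty := (Finset.mem_filter.1 hi).2.mono inter_subset_left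
        rw [ENNReal.rpow_one]
        exact le_iSup (fun _ : (t i).Nonempty => ediam (t i)) hne
      rw [← ENNReal.toReal_sum (fun i _ => hdt i)]
      exact ENNReal.toReal_le_of_le_ofReal (by positivity) h3
    have h4 : ∑ i ∈ s', η / 2 / 2 / 2 ^ i ≤ η / 2 := by
      calc ∑ i ∈ s', η / 2 / 2 / 2 ^ i ≤ ∑' i : ℕ, η / 2 / 2 / 2 ^ i :=
            Summable.sum_le_tsum _ (fun i _ => by positivity) (summable_geometric_two' _)
        _ = η / 2 := tsum_geometric_two' _
    simp only [hr, Finset.sum_add_distrib]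
    linarith

end Pool.Agent.H945
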