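import Mathlib

open MeasureTheory Set Filter Topology
open scoped ContDiff ENNReal

namespace Pool.Agent.H945

/-- Euclidean space of dimension `n`. -/
abbrev E (n : ℕ) := EuclideanSpace ℝ (Fin n)

section

variable {X : Type*} [NormedAddCommGroup X] [NormedSpace ℝ X] [MeasureSpace X]

/-- `g` restricts to a smooth diffeomorphism of `U` onto an open set: it is smooth on `U`, its
image is open and it has an inverse which is smooth on the image. -/
def IsDiffeoOn (g : X → X) (U : Set X) : Prop :=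
  ContDiffOn ℝ ∞ g U ∧ IsOpen (g '' U) ∧
    ∃ h : X → X, ContDiffOn ℝ ∞ h (g '' U) ∧ ∀ x ∈ U, h (g x) = x

/-- `G` is a weak derivative of `f` on `U`. -/
def IsWeakDeriv (U : Set X) (f : X → X) (G : X → X →L[ℝ] X) : Prop :=
  ∀ φ : X → ℝ, ContDiff ℝ ∞ φ → HasCompactSupport φ → tsupport φ ⊆ U → ∀ v : X,
    ∫ x in U, φ x • G x v = -∫ x in U, fderiv ℝ φ x v • f x

/-- `f` belongs to the Sobolev space `W^{1,p}` of the open set `U` with weak derivative `G`. -/
def MemW1p (p : ℝ) (U : Set X) (f : X → X) (G : X → X →L[ℝ] X) : Prop :=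
  MemLp f (ENNReal.ofReal p) (volume.restrict U) ∧
  MemLp G (ENNReal.ofReal p) (volume.restrict U) ∧ IsWeakDeriv U f G

/-- the `W^{1,p}` distance of two maps with given weak derivatives -/
noncomputable def W1pDist (p : ℝ) (U : Set X) (f₁ : X → X) (G₁ : X → X →L[ℝ] X) (f₂ : X → X)
    (G₂ : X → X →L[ℝ] X) : ℝ≥0∞ :=
  eLpNorm (fun x => f₁ x - f₂ x) (ENNReal.ofReal p) (volume.restrict U) +
    eLpNorm (fun x => G₁ x - G₂ x) (ENNReal.ofReal p) (volume.restrict U)

/-- `f` is the limit in `W^{1,p}` of `U` of smooth diffeomorphisms of `U` onto their images. -/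
def ApproxByDiffeos (p : ℝ) (U : Set X) (f : X → X) : Prop :=
  ∃ G : X → X →L[ℝ] X, MemW1p p U f G ∧
    ∃ g : ℕ → X → X, (∀ j, IsDiffeoOn (g j) U ∧ MemW1p p U (g j) (fderiv ℝ (g j))) ∧
      Tendsto (fun j => W1pDist p U (g j) (fderiv ℝ (g j)) f G) atTop (𝓝 0)

end

end Pool.Agent.H945
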