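import Pool.Agent.H945_Excise.Push

open MeasureTheory Set Filter Topology Metric
open scoped ContDiff ENNReal NNReal InnerProductSpace

namespace Pool.Agent.H945

lemma tt_meas {n : ℕ} (a e : E n) : Measurable (tt a e) := by
  unfold tt
  exact (continuous_const.inner (continuous_id.sub continuous_const)).measurable

lemma ss_meas {n : ℕ} (a e : E n) : Measurable (ss a e) := by
  have h1 : Continuous (tt a e) := continuous_const.inner (continuous_id.sub continuous_const)
  have h2 : Continuous (xp a e) :=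
    (continuous_id.sub continuous_const).sub (h1.smul continuous_const)
  exact (h2.norm.pow 2).measurable

lemma exists_basis {k : ℕ} {e : E (k + 1)} (he : ‖e‖ = 1) :
    ∃ b : OrthonormalBasis (Fin (k + 1)) ℝ (E (k + 1)), b 0 = e := by
  have hv : Orthonormal ℝ (({0} : Set (Fin (k + 1))).domRestrict (fun _ => e)) := by
    constructor
    · intro i; simpa using he
    · intro i j hij
      exact absurd (Subtype.ext (by rw [i.2, j.2])) hij
  obtain ⟨b, hb⟩ := hv.exists_orthonormalBasis_extension_of_card_eq (by simp)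
  exact ⟨b, hb 0 rfl⟩

/-- the coordinate map -/
noncomputable def cmap {k : ℕ} (b : OrthonormalBasis (Fin (k + 1)) ℝ (E (k + 1))) (a : E (k + 1))
    (x : E (k + 1)) : ℝ × (Fin k → ℝ) :=
  (b.repr (x - a) 0, fun i => b.repr (x - a) i.succ)

lemma cmap_measurePreserving {k : ℕ} (b : OrthonormalBasis (Fin (k + 1)) ℝ (E (k + 1)))
    (a : E (k + 1)) : MeasurePreserving (cmap b a) volume volume := by
  have h1 : MeasurePreserving (fun x : E (k + 1) => x - a) volume volume :=
    measurePreserving_sub_right volume a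
  have h2 := b.measurePreserving_repr
  have h3 := PiLp.volume_preserving_ofLp (Fin (k + 1))
  have h4 := volume_preserving_piFinSuccAbove (fun _ : Fin (k + 1) => ℝ) 0
  have h5 := h4.comp (h3.comp (h2.comp h1))
  have : (⇑(MeasurableEquiv.piFinSuccAbove (fun _ : Fin (k + 1) => ℝ) 0) ∘
      (WithLp.ofLp ∘ (⇑b.repr ∘ fun x : E (k + 1) => x - a))) = cmap b a := by
    ext x
    · rfl
    · simp [cmap, MeasurableEquiv.piFinSuccAbove, Fin.tail]
  rw [← this]
  exact h5

lemma ss_eq_sum {k : ℕ} (b : OrthonormalBasis (Fin (k + 1)) ℝ (E (k + 1))) (a x : E (k + 1)) :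
    ss a (b 0) x = ∑ i : Fin k, (b.repr (x - a) i.succ) ^ 2 := by
  have h1 := norm_sub_sq (a := a) (e := b 0) (b.norm_eq_one 0) x
  have h2 : ‖x - a‖ ^ 2 = ∑ i, (b.repr (x - a) i) ^ 2 := by
    rw [← b.repr.norm_map (x - a), EuclideanSpace.norm_sq_eq]
    simp
  rw [Fin.sum_univ_succ] at h2
  have h3 : b.repr (x - a) 0 = tt a (b 0) x := b.repr_apply_apply (x - a) 0
  rw [h3] at h2
  linarith

/-- Fubini estimate in a tube of variable radius. -/
lemma tube_lintegral {k : ℕ} {e : E (k + 1)} (he : ‖e‖ = 1) (a : E (k + 1)) {Φ : ℝ → ℝ≥0∞}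
    (hΦ : Measurable Φ) {r : ℝ → ℝ} (hr : Measurable r) (hr0 : ∀ s, 0 ≤ r s) :
    ∫⁻ x in {x : E (k + 1) | ss a e x < r (tt a e x) ^ 2}, Φ (tt a e x) ≤
      ∫⁻ s, Φ s * ENNReal.ofReal (2 * r s) ^ k := by
  obtain ⟨b, rfl⟩ := exists_basis he
  set H : ℝ × (Fin k → ℝ) → ℝ≥0∞ :=
    fun z => {z : ℝ × (Fin k → ℝ) | ∀ i, z.2 i ∈ Ioo (-r z.1) (r z.1)}.indicator
      (fun z => Φ z.1) z with hH
  have hmeasS : MeasurableSet {z : ℝ × (Fin k → ℝ) | ∀ i, z.2 i ∈ Ioo (-r z.1) (r z.1)} := by
    have : {z : ℝ × (Fin k → ℝ) | ∀ i, z.2 i ∈ Ioo (-r z.1) (r z.1)}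
        = ⋂ i, {z : ℝ × (Fin k → ℝ) | -r z.1 < z.2 i} ∩ {z | z.2 i < r z.1} := by
      ext z; simp [mem_Ioo]
    rw [this]
    refine MeasurableSet.iInter fun i => ?_
    have hz : Measurable fun z : ℝ × (Fin k → ℝ) => z.2 i :=
      (measurable_pi_apply i).comp measurable_snd
    have hrz : Measurable fun z : ℝ × (Fin k → ℝ) => r z.1 := hr.comp measurable_fst
    exact (measurableSet_lt hrz.neg hz).inter (measurableSet_lt hz hrz)
  have hHm : Measurable H := (hΦ.comp measurable_fst).indicator hmeasS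
  have hss : MeasurableSet {x : E (k + 1) | ss a (b 0) x < r (tt a (b 0) x) ^ 2} :=
    measurableSet_lt (ss_meas a (b 0)) ((hr.comp (tt_meas a (b 0))).pow_const 2)
  calc ∫⁻ x in {x : E (k + 1) | ss a (b 0) x < r (tt a (b 0) x) ^ 2}, Φ (tt a (b 0) x)
      = ∫⁻ x, {x : E (k + 1) | ss a (b 0) x < r (tt a (b 0) x) ^ 2}.indicator
          (fun x => Φ (tt a (b 0) x)) x := (lintegral_indicator hss _).symm
    _ ≤ ∫⁻ x, H (cmap b a x) := by
        refine lintegral_mono fun x => ?_
        by_cases hx : x ∈ {x : E (k + 1) | ss a (b 0) x < r (tt a (b 0) x) ^ 2}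
        · rw [indicator_of_mem hx]
          have h3 : b.repr (x - a) 0 = tt a (b 0) x := b.repr_apply_apply (x - a) 0
          have h4 : cmap b a x ∈ {z : ℝ × (Fin k → ℝ) | ∀ i, z.2 i ∈ Ioo (-r z.1) (r z.1)} := by
            intro i
            have h5 : (b.repr (x - a) i.succ) ^ 2 < r (tt a (b 0) x) ^ 2 := by
              refine lt_of_le_of_lt ?_ hx
              rw [ss_eq_sum]
              exact Finset.single_le_sum (f := fun i : Fin k => (b.repr (x - a) i.succ) ^ 2)
                (fun i _ => sq_nonneg _) (Finset.mem_univ i)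
            have h6 := abs_lt_of_sq_lt_sq h5 (hr0 _)
            simp only [cmap, h3]
            exact abs_lt.1 h6
          rw [hH]
          simp only
          rw [indicator_of_mem h4]
          simp only [cmap, h3]
          exact le_rfl
        · rw [indicator_of_notMem hx]; exact bot_le
    _ = ∫⁻ z, H z := (cmap_measurePreserving b a).lintegral_comp hHm
    _ = ∫⁻ s, ∫⁻ y, H (s, y) := by
        rw [Measure.volume_eq_prod, lintegral_prod _ hHm.aemeasurable]
    _ = ∫⁻ s, Φ s * ENNReal.ofReal (2 * r s) ^ k := by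
        refine lintegral_congr fun s => ?_
        have : (fun y => H (s, y)) = (univ.pi fun _ : Fin k => Ioo (-r s) (r s)).indicator
            (fun _ => Φ s) := by
          ext y
          by_cases hy : ∀ i, y i ∈ Ioo (-r s) (r s)
          · rw [indicator_of_mem (show y ∈ univ.pi fun _ : Fin k => Ioo (-r s) (r s) from
              fun i _ => hy i)]
            simp only [hH]
            rw [indicator_of_mem (show (s, y) ∈ {z : ℝ × (Fin k → ℝ) |
              ∀ i, z.2 i ∈ Ioo (-r z.1) (r z.1)} from hy)]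
          · rw [indicator_of_notMem (show y ∉ univ.pi fun _ : Fin k => Ioo (-r s) (r s) from
              fun h => hy fun i => h i (mem_univ i))]
            simp only [hH]
            rw [indicator_of_notMem (show (s, y) ∉ {z : ℝ × (Fin k → ℝ) |
              ∀ i, z.2 i ∈ Ioo (-r z.1) (r z.1)} from hy)]
        rw [this, lintegral_indicator (MeasurableSet.univ_pi fun _ => measurableSet_Ioo),
          setLIntegral_const, Real.volume_pi_Ioo]
        simp only [Finset.prod_const, Finset.card_univ, Fintype.card_fin]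
        congr 3
        ring

end Pool.Agent.H945
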