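import Pool.Agent.H945_Excise.Params
import Pool.Agent.H945_Excise.Fubini

open MeasureTheory Set Filter Topology Metric
open scoped ContDiff ENNReal NNReal InnerProductSpace

namespace Pool.Agent.H945

/-- index of a height -/
lemma TD.exists_idx {t ε : ℕ → ℝ} (h : TD t ε) {s : ℝ} (hs : s ∈ DD t) :
    ∃ j, s < t (j + 1) ∧ (j = 0 ∨ t j ≤ s) := by
  by_cases h0 : 0 ≤ s
  · obtain ⟨m, hm⟩ := hs
    obtain ⟨k, hk1, hk2⟩ := exists_index h.ht0 hm h0
    exact ⟨k, hk2, Or.inr hk1⟩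
  · push Not at h0
    refine ⟨0, ?_, Or.inl rfl⟩
    rw [← h.ht0] at h0
    exact h0.trans (h.ht (Nat.lt_succ_self 0))

/-- the intervals -/
def JJ (t : ℕ → ℝ) (j : ℕ) : Set ℝ := {s | -1 < s ∧ s < t (j + 1) ∧ (j = 0 ∨ t j ≤ s)}

lemma JJ_meas (t : ℕ → ℝ) (j : ℕ) : MeasurableSet (JJ t j) := by
  have : JJ t j = Ioi (-1) ∩ (Iio (t (j + 1)) ∩ {s | j = 0 ∨ t j ≤ s}) := by
    ext s; simp [JJ]
  rw [this]
  refine measurableSet_Ioi.inter (measurableSet_Iio.inter ?_)
  by_cases hj : j = 0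
  · simp [hj]
  · simp only [hj, false_or]
    exact measurableSet_Ici

lemma JJ_vol {t : ℕ → ℝ} (ht0 : t 0 = 0) (j : ℕ) :
    volume (JJ t j) ≤ ENNReal.ofReal (t (j + 1) - t j + 1) := by
  by_cases hj : j = 0
  · subst hj
    calc volume (JJ t 0) ≤ volume (Ioo (-1) (t 1)) := measure_mono fun s hs => ⟨hs.1, hs.2.1⟩
      _ = ENNReal.ofReal (t (0 + 1) - t 0 + 1) := by
          rw [Real.volume_Ioo, ht0]; congr 1; simp
  · calc volume (JJ t j) ≤ volume (Ico (t j) (t (j + 1))) := measure_mono fun s hs =>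
          ⟨hs.2.2.resolve_left hj, hs.2.1⟩
      _ ≤ ENNReal.ofReal (t (j + 1) - t j + 1) := by
          rw [Real.volume_Ico]; exact ENNReal.ofReal_le_ofReal (by linarith)

lemma tsum_half_pow {η : ℝ} (hη : 0 ≤ η) :
    ∑' j : ℕ, ENNReal.ofReal (η * (1 / 2) ^ (j + 1)) ≤ ENNReal.ofReal η := by
  have hs : Summable fun j : ℕ => η * (1 / 2 : ℝ) ^ (j + 1) :=
    ((summable_nat_add_iff 1).2 summable_geometric_two).mul_left η
  rw [← ENNReal.ofReal_tsum_of_nonneg (fun j => by positivity) hs]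
  refine ENNReal.ofReal_le_ofReal (le_of_eq ?_)
  rw [tsum_mul_left]
  have : ∑' j : ℕ, (1 / 2 : ℝ) ^ (j + 1) = 1 := by
    simp_rw [pow_succ]
    rw [tsum_mul_right, tsum_geometric_two]; norm_num
  rw [this, mul_one]

lemma excise {k : ℕ} {p : ℝ} (hp : 1 ≤ p) (hpk : p < k)
    {U K : Set (E (k + 1))} (hU : IsOpen U) (hK : IsClosed K) {a e : E (k + 1)} (ha : a ∈ U)
    (he : ‖e‖ = 1)
    (hray : ∀ s : ℝ, 0 ≤ s → (∀ s' ∈ Icc 0 s, a + s' • e ∈ U) → a + s • e ∉ K)
    {g : E (k + 1) → E (k + 1)} (hg : GoodOn g (U \ {a}))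
    {r₀ C₀ : ℝ} (hr₀ : 0 < r₀)
    (hb : ∀ x ∈ ball a r₀, x ≠ a → ‖g x‖ ≤ C₀ ∧ ‖fderiv ℝ g x‖ * ‖x - a‖ ≤ C₀)
    {η : ℝ} (hη : 0 < η) :
    ∃ (g' : E (k + 1) → E (k + 1)) (N : Set (E (k + 1))), MeasurableSet N ∧ N ⊆ U ∩ Kᶜ ∧
      volume N ≤ ENNReal.ofReal η ∧ En p g' N ≤ ENNReal.ofReal η ∧ GoodOn g' U ∧
      (∀ x, x ∉ N → g' x = g x) ∧
      ∀ x ∈ U, x ∉ N → fderiv ℝ g' x = fderiv ℝ g x := by
  have hp0 : 0 < p := by linarith
  set U' := U ∩ Kᶜ with hU'
  have hU'o : IsOpen U' := hU.inter hK.isOpen_compl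
  have hUa : IsOpen (U \ {a}) := hU.sdiff isClosed_singleton
  obtain ⟨t, ht, ht0, htU, htend⟩ := exists_times hU hK ha hray
  have haU' : a ∈ U' := by
    have := htU 0 0 ⟨le_rfl, ht0.ge⟩
    rwa [zero_smul, add_zero] at this
  obtain ⟨κ₁, hκ₁, hκball⟩ := Metric.isOpen_iff.1 hU'o a haU'
  set κ := κ₁ / 2 with hκ
  have hκ0 : 0 < κ := by positivity
  -- the segments
  set seg : ℕ → Set (E (k + 1)) := fun j => (fun s : ℝ => a + s • e) '' Icc (-κ) (t (j + 1))
    with hseg
  have hcont : Continuous fun s : ℝ => a + s • e := by fun_prop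
  have hsegc : ∀ j, IsCompact (seg j) := fun j => isCompact_Icc.image hcont
  have hsegU : ∀ j, seg j ⊆ U' := by
    rintro j _ ⟨s, hs, rfl⟩
    rcases le_total s 0 with h0 | h0
    · refine hκball ?_
      rw [mem_ball, dist_eq_norm]
      have : a + s • e - a = s • e := by abel
      rw [this, norm_smul, he, mul_one, Real.norm_eq_abs, abs_of_nonpos h0]
      have := hs.1
      linarith
    · exact htU (j + 1) s ⟨h0, hs.2⟩
  have hd : ∀ j, ∃ d, 0 < d ∧ cthickening d (seg j) ⊆ U' := fun j =>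
    (hsegc j).exists_cthickening_subset_open hU'o (hsegU j)
  choose d hd0 hdU using hd
  -- bounds
  have hKb : ∀ j, ∃ C : ℝ, 0 ≤ C ∧ ∀ y ∈ cthickening (d j) (seg j), y ≠ a →
      ‖g y‖ ≤ C ∧ ‖fderiv ℝ g y‖ * ‖y - a‖ ≤ C := by
    intro j
    have hAc : IsCompact (cthickening (d j) (seg j) \ ball a r₀) :=
      ((hsegc j).cthickening).diff isOpen_ball
    have hAsub : cthickening (d j) (seg j) \ ball a r₀ ⊆ U \ {a} := by
      rintro y ⟨hy1, hy2⟩
      refine ⟨(hdU j hy1).1, fun hya => hy2 ?_⟩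
      rw [mem_singleton_iff] at hya
      rw [hya]; exact mem_ball_self hr₀
    obtain ⟨C1', hC1'⟩ := hAc.exists_bound_of_continuousOn (hg.smooth.continuousOn.mono hAsub)
    have hc2 : ContinuousOn (fun y => ‖fderiv ℝ g y‖ * ‖y - a‖)
        (cthickening (d j) (seg j) \ ball a r₀) :=
      (((hg.smooth.continuousOn_fderiv_of_isOpen hUa (by simp)).mono hAsub).norm).mul
        (by fun_prop)
    obtain ⟨C2', hC2'⟩ := hAc.exists_bound_of_continuousOn hc2
    refine ⟨max (max C1' C2') (max C₀ 0), le_trans (le_max_right _ _) (le_max_right _ _),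
      fun y hy hya => ?_⟩
    by_cases hyb : y ∈ ball a r₀
    · obtain ⟨h1, h2⟩ := hb y hyb hya
      have h3 : C₀ ≤ max (max C1' C2') (max C₀ 0) := (le_max_left _ _).trans (le_max_right _ _)
      exact ⟨h1.trans h3, h2.trans h3⟩
    · have h1 := hC1' y ⟨hy, hyb⟩
      have h2 := hC2' y ⟨hy, hyb⟩
      rw [Real.norm_of_nonneg (by positivity)] at h2
      exact ⟨h1.trans ((le_max_left _ _).trans (le_max_left _ _)),
        h2.trans ((le_max_right _ _).trans (le_max_left _ _))⟩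
  choose KK hKK0 hKK using hKb
  -- exponent
  obtain ⟨m, hm1, hmq⟩ : ∃ m : ℕ, 1 ≤ m ∧ p * (1 + 1 / (m : ℝ)) < k := by
    obtain ⟨m, hm⟩ := exists_nat_gt (p / (k - p))
    have hkp : 0 < (k : ℝ) - p := by linarith
    have hm0 : 0 < (m : ℝ) := lt_of_le_of_lt (by positivity) hm
    refine ⟨m, by exact_mod_cast hm0, ?_⟩
    rw [div_lt_iff₀ hkp] at hm
    have : p * (1 + 1 / (m : ℝ)) = p + p / m := by ring
    rw [this]
    have h2 : p / m < k - p := by rw [div_lt_iff₀ hm0]; linarith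
    linarith
  set q := p * (1 + 1 / (m : ℝ)) with hq
  have hm0 : (0:ℝ) < m := by exact_mod_cast hm1
  have hq0 : 0 < q := by positivity
  set γ := (k : ℝ) - q with hγ
  have hγ0 : 0 < γ := by linarith
  have hC1pos : 0 ≤ C1 m := by
    unfold C1
    have := one_le_Cst
    positivity
  have htpos : ∀ j, 0 ≤ t j := fun j => by rw [← ht0]; exact ht.monotone (Nat.zero_le j)
  set A : ℕ → ℝ := fun j => 1 + KK j ^ p + (KK j * (C1 m * (1 + t (j + 1)))) ^ p with hA
  have hA1 : ∀ j, 1 ≤ A j := by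
    intro j
    have h1 : 0 ≤ KK j ^ p := Real.rpow_nonneg (hKK0 j) p
    have h2 : 0 ≤ (KK j * (C1 m * (1 + t (j + 1)))) ^ p :=
      Real.rpow_nonneg (mul_nonneg (hKK0 j) (mul_nonneg hC1pos (by linarith [htpos (j + 1)]))) p
    simp only [hA]; linarith
  have hb' : ∀ j, ∃ b : ℝ, 0 < b ∧ ∀ y, 0 ≤ y → y ≤ b →
      ((t (j + 1) - t j + 1) * (A j * 2 ^ k)) * (2 * y) ^ γ ≤ η * (1 / 2) ^ (j + 1) := fun j =>
    exists_small_rpow _ hγ0 (by positivity)
  choose b' hb'0 hb'le using hb'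
  have hCst := one_le_Cst
  set b : ℕ → ℝ := fun j => min (min (d j / 2) (κ / 2)) (min (min (1 / 2) (b' j))
    ((t (j + 1) - t j) / Cst)) with hbdef
  have hbpos : ∀ j, 0 < b j := by
    intro j
    have h1 : 0 < t (j + 1) - t j := sub_pos.2 (ht (Nat.lt_succ_self j))
    exact lt_min (lt_min (by linarith [hd0 j]) (by linarith))
      (lt_min (lt_min (by norm_num) (hb'0 j)) (div_pos h1 (by linarith)))
  obtain ⟨ε, hε, hε2, hεb⟩ := exists_eps hbpos
  have hεd : ∀ j, 2 * ε j ≤ d j := fun j => by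
    have := (hεb j).trans ((min_le_left _ _).trans (min_le_left _ _)); linarith
  have hεκ : ∀ j, 2 * ε j ≤ κ := fun j => by
    have := (hεb j).trans ((min_le_left _ _).trans (min_le_right _ _)); linarith
  have hε1 : ∀ j, 2 * ε j ≤ 1 := fun j => by
    have := (hεb j).trans ((min_le_right _ _).trans ((min_le_left _ _).trans (min_le_left _ _)))
    linarith
  have hεb' : ∀ j, ε j ≤ b' j := fun j =>
    (hεb j).trans ((min_le_right _ _).trans ((min_le_left _ _).trans (min_le_right _ _)))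
  have hε3 : ∀ j, ε j * Cst ≤ t (j + 1) - t j := fun j => by
    have := (hεb j).trans ((min_le_right _ _).trans (min_le_right _ _))
    rwa [le_div_iff₀ (by linarith)] at this
  have h : TD t ε := ⟨ht, ht0, hε, hε2, hε3, hε1 0⟩
  set r : ℝ → ℝ := rr t ε with hr
  set H := hh t ε m a e with hH
  set N := NN t ε a e with hN
  have hr0κ : r 0 ≤ κ := (rr_le_zero hε hε2 0).trans (hεκ 0)
  have hrle : ∀ j s, s < t (j + 1) → (j = 0 ∨ t j ≤ s) → r s ≤ 2 * ε j := by
    intro j s _ hj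
    rcases hj with rfl | hj
    · exact rr_le_zero hε hε2 s
    · exact rr_le ht hε hε2 hj
  -- membership in the thickened segments
  have hmem : ∀ (x : E (k + 1)) (u : ℝ) (j : ℕ), ss a e x < r (tt a e x) ^ 2 →
      r (tt a e x) ≤ 2 * ε j → -κ ≤ u → u ≤ t (j + 1) →
      a + xp a e x + u • e ∈ cthickening (d j) (seg j) := by
    intro x u j h1 h2 h3 h4
    refine mem_cthickening_of_dist_le _ (a + u • e) _ _ ⟨u, ⟨h3, h4⟩, rfl⟩ ?_
    rw [dist_eq_norm]
    have e1 : a + xp a e x + u • e - (a + u • e) = xp a e x := by abel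
    rw [e1]
    have h5 : ‖xp a e x‖ ≤ r (tt a e x) :=
      (abs_le_of_sq_le_sq' (show ‖xp a e x‖ ^ 2 ≤ r (tt a e x) ^ 2 from h1.le)
        (rr_nonneg hε _)).2
    linarith [hεd j]
  have hHx : ∀ x, H x = a + xp a e x + uu t ε m (ss a e x) (tt a e x) • e := by
    intro x
    conv_lhs => rw [decomp a e (H x)]
    rw [hH, xp_hh he, tt_hh he]
  have hNmem : ∀ x ∈ N, ∀ j, tt a e x < t (j + 1) → (j = 0 ∨ t j ≤ tt a e x) →
      x ∈ cthickening (d j) (seg j) ∧ H x ∈ cthickening (d j) (seg j) := by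
    rintro x ⟨hx1, hx2, hx3⟩ j hj1 hj2
    have hrj := hrle j _ hj1 hj2
    constructor
    · have := hmem x (tt a e x) j hx3 hrj (by linarith) hj1.le
      rwa [← decomp a e x] at this
    · rw [hHx]
      have hv1 := h.vv_neg hx2
      have hv2 := h.abs_vv_le hx1
      have hv3 := h.le_r0 (tt a e x)
      have hv4 : -κ ≤ vv t ε (tt a e x) := by
        have := (abs_le.1 hv2).1
        linarith
      have hv5 : vv t ε (tt a e x) ≤ t (j + 1) := hv1.le.trans (htpos _)
      exact hmem x _ j hx3 hrj (le_uu_of hx2 (by linarith) hv4) (uu_le_of hx2 hj1.le hv5)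
  have hNU : N ⊆ U' := by
    intro x hx
    obtain ⟨j, hj1, hj2⟩ := h.exists_idx hx.2.1
    exact hdU j (hNmem x hx j hj1 hj2).1
  have hHU : ∀ x ∈ U, H x ∈ U \ {a} := by
    intro x hx
    refine ⟨?_, h.hh_ne hm1 he x⟩
    by_cases hxN : x ∈ N
    · obtain ⟨j, hj1, hj2⟩ := h.exists_idx hxN.2.1
      exact (hdU j (hNmem x hxN j hj1 hj2).2).1
    · rw [hH, h.hh_of_not_mem hxN]; exact hx
  have haN : a ∈ N := by
    have h1 : tt a e a = 0 := by simp [tt]
    have h2 : ss a e a = 0 := by simp [ss, xp, tt]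
    refine ⟨?_, ?_, ?_⟩
    · rw [h1]; linarith [h.pos0]
    · rw [h1]; exact h.zero_mem
    · rw [h1, h2]; exact pow_pos h.pos0 2
  -- far points
  have hfar : ∀ x ∈ U, tt a e x ∉ DD t → ∀ᶠ y in 𝓝 x, H y = y := by
    intro x hxU hxD
    by_cases hss : 0 < ss a e x
    · exact h.hh_eventually_of_pos hxD hss
    · have hss0 : ss a e x = 0 := le_antisymm (not_lt.1 hss) (sq_nonneg _)
      have hxp : xp a e x = 0 := by
        have : ‖xp a e x‖ ^ 2 = 0 := hss0
        simpa using this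
      have hxa : x = a + tt a e x • e := by
        conv_lhs => rw [decomp a e x, hxp]
        simp
      have hle : ∀ k, t k ≤ tt a e x := fun k => by
        by_contra hc; exact hxD ⟨k, not_le.1 hc⟩
      obtain ⟨c, hc1, hc2⟩ := htend (tt a e x) hle (by rw [← hxa]; exact hxU)
      exact h.hh_eventually_of_gt hc1 hc2
  have hgd : ∀ y ∈ U \ {a}, DifferentiableAt ℝ g y := fun y hy =>
    (hg.smooth.contDiffAt (hUa.mem_nhds hy)).differentiableAt (by simp)
  -- the main energy estimate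
  have hmeasN : MeasurableSet N := by
    have h1 : MeasurableSet {x : E (k + 1) | -rr t ε 0 < tt a e x} :=
      measurableSet_lt measurable_const (tt_meas a e)
    have h2 : MeasurableSet {x : E (k + 1) | tt a e x ∈ DD t} := (tt_meas a e) DD_open.measurableSet
    have h3 : MeasurableSet {x : E (k + 1) | ss a e x < rr t ε (tt a e x) ^ 2} :=
      measurableSet_lt (ss_meas a e)
        (((rr_antitone ht hε hε2).measurable.comp (tt_meas a e)).pow_const 2)
    exact h1.inter (h2.inter h3)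
  set Φ : ℝ → ℝ≥0∞ := fun s => ∑' j, (JJ t j).indicator
    (fun s => ENNReal.ofReal (A j * r s ^ (-q))) s with hΦ
  have hrmeas : Measurable r := (rr_antitone ht hε hε2).measurable
  have hΦj : ∀ j, Measurable ((JJ t j).indicator
      (fun s => ENNReal.ofReal (A j * r s ^ (-q)))) := fun j =>
    (ENNReal.measurable_ofReal.comp ((hrmeas.pow_const (-q)).const_mul (A j))).indicator
      (JJ_meas t j)
  have hΦm : Measurable Φ := Measurable.tsum hΦj
  have hpoint : ∀ x ∈ N, 1 + (‖(g ∘ H) x‖ₑ ^ p + ‖fderiv ℝ (g ∘ H) x‖ₑ ^ p) ≤ Φ (tt a e x) := by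
    intro x hx
    obtain ⟨j, hj1, hj2⟩ := h.exists_idx hx.2.1
    have hxU : x ∈ U := (hNU hx).1
    have hHx' := hHU x hxU
    have hrpos : 0 < r (tt a e x) := h.pos hx.2.1
    have hr1 : r (tt a e x) ≤ 1 := (h.le_r0 _).trans h.r0_le
    have hJ : tt a e x ∈ JJ t j := ⟨by
      have := hx.1
      have := h.r0_le
      linarith, hj1, hj2⟩
    have hle : ENNReal.ofReal (A j * r (tt a e x) ^ (-q)) ≤ Φ (tt a e x) := by
      have h1 := ENNReal.le_tsum (f := fun j => (JJ t j).indicator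
        (fun s => ENNReal.ofReal (A j * r s ^ (-q))) (tt a e x)) j
      simp only [indicator_of_mem hJ] at h1
      exact h1
    refine le_trans ?_ hle
    obtain ⟨hb1, hb2⟩ := hKK j (H x) (hNmem x hx j hj1 hj2).2 (h.hh_ne hm1 he x)
    -- the root
    set l := r (tt a e x) ^ (1 / (m : ℝ)) with hl
    have hl0 : 0 < l := Real.rpow_pos_of_pos hrpos _
    have hl1 : l ≤ 1 := Real.rpow_le_one hrpos.le hr1 (by positivity)
    have hlm : l ^ m = rr t ε (tt a e x) := by
      rw [hl, ← Real.rpow_natCast, ← Real.rpow_mul hrpos.le, one_div_mul_cancel hm0.ne',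
        Real.rpow_one]
    have hfb := h.fderiv_bound hm1 he hx (htpos (j + 1)) hj1.le hl0 hl1 hlm
    have hrl : (r (tt a e x) * l) ^ (-p) = r (tt a e x) ^ (-q) := by
      rw [hl, ← Real.rpow_one_add' hrpos.le (by positivity), ← Real.rpow_mul hrpos.le]
      congr 1
      rw [hq]; ring
    have hdd : 0 < ‖H x - a‖ := norm_pos_iff.2 (sub_ne_zero.2 (h.hh_ne hm1 he x))
    have hnorm : ‖fderiv ℝ (g ∘ H) x‖ ≤
        (KK j * (C1 m * (1 + t (j + 1)))) * (r (tt a e x) * l)⁻¹ := by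
      have hcomp : HasFDerivAt (g ∘ H) ((fderiv ℝ g (H x)).comp (fderiv ℝ H x)) x :=
        (hgd _ hHx').hasFDerivAt.comp x
          ((h.hh_contDiffAt hx.2.1).differentiableAt (by simp)).hasFDerivAt
      rw [hcomp.fderiv]
      calc ‖(fderiv ℝ g (H x)).comp (fderiv ℝ H x)‖
          ≤ ‖fderiv ℝ g (H x)‖ * ‖fderiv ℝ H x‖ := ContinuousLinearMap.opNorm_comp_le _ _
        _ ≤ ‖fderiv ℝ g (H x)‖ *
            (C1 m * (1 + t (j + 1)) * (‖H x - a‖ / (rr t ε (tt a e x) * l))) := by gcongr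
        _ = (‖fderiv ℝ g (H x)‖ * ‖H x - a‖) * ((C1 m * (1 + t (j + 1))) *
            (rr t ε (tt a e x) * l)⁻¹) := by ring
        _ ≤ KK j * ((C1 m * (1 + t (j + 1))) * (rr t ε (tt a e x) * l)⁻¹) := by
            have h1 : 0 ≤ C1 m * (1 + t (j + 1)) :=
              mul_nonneg hC1pos (by linarith [htpos (j + 1)])
            have h2 : 0 < rr t ε (tt a e x) * l := mul_pos hrpos hl0
            gcongr
        _ = _ := by ring
    have hB0 : 0 ≤ KK j * (C1 m * (1 + t (j + 1))) :=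
      mul_nonneg (hKK0 j) (mul_nonneg hC1pos (by linarith [htpos (j + 1)]))
    have hrl0 : 0 < r (tt a e x) * l := mul_pos hrpos hl0
    have h3 : ‖fderiv ℝ (g ∘ H) x‖ₑ ^ p ≤
        ENNReal.ofReal ((KK j * (C1 m * (1 + t (j + 1)))) ^ p * r (tt a e x) ^ (-q)) := by
      rw [← ofReal_norm, ENNReal.ofReal_rpow_of_nonneg (norm_nonneg _) hp0.le]
      refine ENNReal.ofReal_le_ofReal ?_
      calc ‖fderiv ℝ (g ∘ H) x‖ ^ p ≤
          ((KK j * (C1 m * (1 + t (j + 1)))) * (r (tt a e x) * l)⁻¹) ^ p :=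
            Real.rpow_le_rpow (norm_nonneg _) hnorm hp0.le
        _ = (KK j * (C1 m * (1 + t (j + 1)))) ^ p * (r (tt a e x) * l) ^ (-p) := by
            rw [Real.mul_rpow hB0 (by positivity), Real.inv_rpow hrl0.le, Real.rpow_neg hrl0.le]
        _ = _ := by rw [hrl]
    have hrq : 1 ≤ r (tt a e x) ^ (-q) :=
      Real.one_le_rpow_of_pos_of_le_one_of_nonpos hrpos hr1 (by linarith)
    have h4 : ‖(g ∘ H) x‖ₑ ^ p ≤ ENNReal.ofReal (KK j ^ p * r (tt a e x) ^ (-q)) := by
      rw [← ofReal_norm, ENNReal.ofReal_rpow_of_nonneg (norm_nonneg _) hp0.le]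
      refine ENNReal.ofReal_le_ofReal ?_
      calc ‖(g ∘ H) x‖ ^ p ≤ KK j ^ p := Real.rpow_le_rpow (norm_nonneg _) hb1 hp0.le
        _ ≤ KK j ^ p * r (tt a e x) ^ (-q) :=
            le_mul_of_one_le_right (Real.rpow_nonneg (hKK0 j) p) hrq
    have h5 : (1:ℝ≥0∞) ≤ ENNReal.ofReal (r (tt a e x) ^ (-q)) := by
      rw [← ENNReal.ofReal_one]; exact ENNReal.ofReal_le_ofReal hrq
    have hrq0 : 0 ≤ r (tt a e x) ^ (-q) := by linarith
    have hKp : 0 ≤ KK j ^ p := Real.rpow_nonneg (hKK0 j) p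
    have hBp : 0 ≤ (KK j * (C1 m * (1 + t (j + 1)))) ^ p := Real.rpow_nonneg hB0 p
    calc 1 + (‖(g ∘ H) x‖ₑ ^ p + ‖fderiv ℝ (g ∘ H) x‖ₑ ^ p)
        ≤ ENNReal.ofReal (r (tt a e x) ^ (-q)) +
          (ENNReal.ofReal (KK j ^ p * r (tt a e x) ^ (-q)) +
          ENNReal.ofReal ((KK j * (C1 m * (1 + t (j + 1)))) ^ p * r (tt a e x) ^ (-q))) :=
          add_le_add h5 (add_le_add h4 h3)
      _ = ENNReal.ofReal (A j * r (tt a e x) ^ (-q)) := by
          rw [← ENNReal.ofReal_add (by positivity) (by positivity),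
            ← ENNReal.ofReal_add (by positivity) (by positivity)]
          congr 1
          simp only [hA]; ring
  have hint : ∫⁻ x in N, (1 + (‖(g ∘ H) x‖ₑ ^ p + ‖fderiv ℝ (g ∘ H) x‖ₑ ^ p)) ≤
      ENNReal.ofReal η := by
    calc ∫⁻ x in N, (1 + (‖(g ∘ H) x‖ₑ ^ p + ‖fderiv ℝ (g ∘ H) x‖ₑ ^ p))
        ≤ ∫⁻ x in N, Φ (tt a e x) := setLIntegral_mono' hmeasN hpoint
      _ ≤ ∫⁻ x in {x : E (k + 1) | ss a e x < r (tt a e x) ^ 2}, Φ (tt a e x) :=
          lintegral_mono_set fun x hx => hx.2.2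
      _ ≤ ∫⁻ s, Φ s * ENNReal.ofReal (2 * r s) ^ k :=
          tube_lintegral he a hΦm hrmeas (fun s => rr_nonneg hε s)
      _ = ∑' j, ∫⁻ s, (JJ t j).indicator (fun s => ENNReal.ofReal (A j * r s ^ (-q))) s
            * ENNReal.ofReal (2 * r s) ^ k := by
          simp only [hΦ]
          simp_rw [← ENNReal.tsum_mul_right]
          rw [lintegral_tsum]
          intro j
          exact ((hΦj j).mul ((ENNReal.measurable_ofReal.comp
            (hrmeas.const_mul 2)).pow_const k)).aemeasurable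
      _ ≤ ∑' j, ENNReal.ofReal (η * (1 / 2) ^ (j + 1)) := by
          refine ENNReal.tsum_le_tsum fun j => ?_
          have hAj := hA1 j
          have h1 : ∀ s, (JJ t j).indicator (fun s => ENNReal.ofReal (A j * r s ^ (-q))) s
              * ENNReal.ofReal (2 * r s) ^ k ≤
              (JJ t j).indicator (fun _ => ENNReal.ofReal (A j * 2 ^ k * (2 * ε j) ^ γ)) s := by
            intro s
            by_cases hs : s ∈ JJ t j
            · rw [indicator_of_mem hs, indicator_of_mem hs]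
              have hsD : s ∈ DD t := ⟨j + 1, hs.2.1⟩
              have hrs : 0 < r s := h.pos hsD
              have hrs2 : r s ≤ 2 * ε j := hrle j s hs.2.1 hs.2.2
              rw [← ENNReal.ofReal_pow (by positivity), ← ENNReal.ofReal_mul (by positivity)]
              refine ENNReal.ofReal_le_ofReal ?_
              have e1 : A j * r s ^ (-q) * (2 * r s) ^ k = A j * 2 ^ k * r s ^ γ := by
                rw [mul_pow, ← Real.rpow_natCast (r s) k, hγ, sub_eq_neg_add,
                  Real.rpow_add hrs]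
                ring
              rw [e1]
              have : r s ^ γ ≤ (2 * ε j) ^ γ := Real.rpow_le_rpow hrs.le hrs2 hγ0.le
              gcongr
            · rw [indicator_of_notMem hs, indicator_of_notMem hs]; simp
          calc ∫⁻ s, (JJ t j).indicator (fun s => ENNReal.ofReal (A j * r s ^ (-q))) s
                * ENNReal.ofReal (2 * r s) ^ k
              ≤ ∫⁻ s, (JJ t j).indicator
                (fun _ => ENNReal.ofReal (A j * 2 ^ k * (2 * ε j) ^ γ)) s := lintegral_mono h1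
            _ = ENNReal.ofReal (A j * 2 ^ k * (2 * ε j) ^ γ) * volume (JJ t j) := by
                rw [lintegral_indicator (JJ_meas t j), setLIntegral_const]
            _ ≤ ENNReal.ofReal (A j * 2 ^ k * (2 * ε j) ^ γ) *
                ENNReal.ofReal (t (j + 1) - t j + 1) := by gcongr; exact JJ_vol ht0 j
            _ = ENNReal.ofReal (((t (j + 1) - t j + 1) * (A j * 2 ^ k)) * (2 * ε j) ^ γ) := by
                rw [← ENNReal.ofReal_mul]
                · congr 1; ring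
                · have := hε j
                  positivity
            _ ≤ _ := ENNReal.ofReal_le_ofReal (hb'le j (ε j) (hε j).le (hεb' j))
      _ ≤ ENNReal.ofReal η := tsum_half_pow hη.le
  refine ⟨g ∘ H, N, hmeasN, hNU, ?_, ?_, ⟨?_, ?_, ?_⟩, ?_, ?_⟩
  · calc volume N = ∫⁻ x in N, 1 := by simp
      _ ≤ ∫⁻ x in N, (1 + (‖(g ∘ H) x‖ₑ ^ p + ‖fderiv ℝ (g ∘ H) x‖ₑ ^ p)) :=
          lintegral_mono fun x => le_self_add
      _ ≤ _ := hint
  · refine le_trans (lintegral_mono fun x => ?_) hint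
    exact le_add_self
  · -- smooth
    intro x hx
    refine ContDiffAt.contDiffWithinAt ?_
    by_cases hxD : tt a e x ∈ DD t
    · exact (hg.smooth.contDiffAt (hUa.mem_nhds (hHU x hx))).comp x (h.hh_contDiffAt hxD)
    · have hxa : x ∈ U \ {a} := by
        refine ⟨hx, fun hxa => hxD ?_⟩
        rw [mem_singleton_iff] at hxa
        rw [hxa]; exact haN.2.1
      refine (hg.smooth.contDiffAt (hUa.mem_nhds hxa)).congr_of_eventuallyEq ?_
      filter_upwards [hfar x hx hxD] with y hy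
      simp [hy]
  · -- injective
    intro x hx y hy hxy
    exact h.hh_injective he (hg.inj (hHU x hx) (hHU y hy) hxy)
  · -- immersion
    intro x hx
    by_cases hxD : tt a e x ∈ DD t
    · have hcomp : HasFDerivAt (g ∘ H) ((fderiv ℝ g (H x)).comp (fderiv ℝ H x)) x :=
        (hgd _ (hHU x hx)).hasFDerivAt.comp x
          ((h.hh_contDiffAt hxD).differentiableAt (by simp)).hasFDerivAt
      rw [hcomp.fderiv]
      exact (hg.imm _ (hHU x hx)).comp (h.hh_fderiv_injective he hxD)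
    · have hxa : x ∈ U \ {a} := by
        refine ⟨hx, fun hxa => hxD ?_⟩
        rw [mem_singleton_iff] at hxa
        rw [hxa]; exact haN.2.1
      have : g ∘ H =ᶠ[𝓝 x] g := by
        filter_upwards [hfar x hx hxD] with y hy
        simp [hy]
      rw [this.fderiv_eq]
      exact hg.imm x hxa
  · intro x hx
    simp only [Function.comp_apply]
    rw [hH, h.hh_of_not_mem hx]
  · intro x hxU hxN
    have hxa : x ∈ U \ {a} := ⟨hxU, fun hxa => hxN (by
      rw [mem_singleton_iff] at hxa; rw [hxa]; exact haN)⟩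
    by_cases hxD : tt a e x ∈ DD t
    · have h1 : HasFDerivAt H (ContinuousLinearMap.id ℝ (E (k + 1))) x :=
        h.hh_hasFDerivAt_of_not_mem he hxD hxN
      have h2 : H x = x := h.hh_of_not_mem hxN
      have h3 : HasFDerivAt g (fderiv ℝ g x) (H x) := by rw [h2]; exact (hgd x hxa).hasFDerivAt
      have h4 := h3.comp x h1
      rw [h4.fderiv]
      ext v; simp
    · have : g ∘ H =ᶠ[𝓝 x] g := by
        filter_upwards [hfar x hxU hxD] with y hy
        simp [hy]
      exact this.fderiv_eq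

end Pool.Agent.H945
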