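import Pool.Agent.H945_Excise.Stage

open MeasureTheory Set Filter Topology Metric
open scoped ContDiff ENNReal NNReal

namespace Pool.Agent.H945

section exhaustion

variable {n : ℕ}

/-- the compact exhaustion of `Ω`. -/
def Km (Ω : Set (E n)) (m : ℕ) : Set (E n) := {x | ‖x‖ + 1 ≤ m ∧ ball x (1 / (m : ℝ)) ⊆ Ω}

lemma Km_zero (Ω : Set (E n)) : Km Ω 0 = ∅ := by
  ext x
  simp only [Km, mem_ofPred_eq, mem_empty_iff_false, iff_false, not_and]
  intro h
  have := norm_nonneg x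
  norm_num at h
  linarith

lemma Km_pos {Ω : Set (E n)} {m : ℕ} {x : E n} (h : x ∈ Km Ω m) : 0 < (m : ℝ) := by
  have := norm_nonneg x
  have := h.1
  linarith

lemma Km_closed (Ω : Set (E n)) (m : ℕ) : IsClosed (Km Ω m) := by
  have h1 : Km Ω m = {x | ‖x‖ + 1 ≤ m} ∩ ⋂ q ∈ Ωᶜ, {x : E n | 1 / (m : ℝ) ≤ dist q x} := by
    ext x
    simp only [Km, mem_ofPred_eq, mem_inter_iff, mem_iInter, mem_compl_iff]
    refine and_congr_right fun _ => ⟨fun h q hq => ?_, fun h q hq => ?_⟩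
    · by_contra hcon
      exact hq (h (mem_ball.2 (not_le.1 hcon)))
    · by_contra hcon
      exact absurd (mem_ball.1 hq) (not_lt.2 (h q hcon))
  rw [h1]
  refine IsClosed.inter ?_ ?_
  · exact isClosed_le (by fun_prop) continuous_const
  · exact isClosed_biInter fun q _ => isClosed_le continuous_const (by fun_prop)

lemma Km_compact (Ω : Set (E n)) (m : ℕ) : IsCompact (Km Ω m) := by
  refine (isCompact_closedBall (0 : E n) m).of_isClosed_subset (Km_closed Ω m) ?_
  intro x hx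
  rw [mem_closedBall, dist_zero_right]
  linarith [hx.1]

lemma Km_subset (Ω : Set (E n)) (m : ℕ) : Km Ω m ⊆ Ω := by
  intro x hx
  have := Km_pos hx
  exact hx.2 (mem_ball_self (by positivity))

lemma Km_subset_interior (Ω : Set (E n)) (m : ℕ) : Km Ω m ⊆ interior (Km Ω (m + 1)) := by
  intro x hx
  have hm := Km_pos hx
  rw [mem_interior_iff_mem_nhds]
  have hr : 0 < min 1 (1 / (m : ℝ) - 1 / (m + 1 : ℝ)) := by
    refine lt_min one_pos ?_
    rw [sub_pos]
    exact one_div_lt_one_div_of_lt hm (by linarith)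
  refine Filter.mem_of_superset (ball_mem_nhds x hr) ?_
  intro y hy
  have h1 : dist y x < 1 := lt_of_lt_of_le hy (min_le_left _ _)
  have h2 : dist y x < 1 / (m : ℝ) - 1 / (m + 1 : ℝ) := lt_of_lt_of_le hy (min_le_right _ _)
  refine ⟨?_, ?_⟩
  · have h3 : ‖y‖ ≤ ‖x‖ + dist y x := by
      rw [dist_eq_norm]
      have := norm_add_le x (y - x)
      simpa using this
    push_cast
    linarith [hx.1]
  · refine Subset.trans (ball_subset_ball' ?_) hx.2
    push_cast
    linarith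

lemma Km_mono (Ω : Set (E n)) : Monotone (Km Ω) :=
  monotone_nat_of_le_succ fun m => (Km_subset_interior Ω m).trans interior_subset

lemma exists_mem_Km {Ω : Set (E n)} (hΩ : IsOpen Ω) {x : E n} (hx : x ∈ Ω) :
    ∃ m, x ∈ Km Ω m := by
  obtain ⟨r, hr, hrΩ⟩ := Metric.isOpen_iff.1 hΩ x hx
  obtain ⟨m, hm⟩ := exists_nat_ge (max (‖x‖ + 1) (1 / r))
  have hm1 : ‖x‖ + 1 ≤ m := (le_max_left _ _).trans hm
  have hm2 : 1 / r ≤ m := (le_max_right _ _).trans hm
  refine ⟨m, hm1, (ball_subset_ball ?_).trans hrΩ⟩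
  have h0 : (0 : ℝ) < m := by have := norm_nonneg x; linarith
  rw [div_le_iff₀ hr] at hm2
  rw [div_le_iff₀ h0]
  linarith

lemma Km_escape (hn : 0 < n) (Ω : Set (E n)) (m : ℕ) : Escape Ω (Km Ω m) := by
  intro a ha haK
  by_cases h1 : ‖a‖ + 1 ≤ m
  · -- near the boundary
    have h2 : ¬ ball a (1 / (m : ℝ)) ⊆ Ω := fun h => haK ⟨h1, h⟩
    rw [Set.not_subset] at h2
    obtain ⟨q, hq, hqΩ⟩ := h2
    have hqa : q - a ≠ 0 := fun h => hqΩ (by rw [sub_eq_zero.1 h]; exact ha)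
    have hn : 0 < ‖q - a‖ := norm_pos_iff.2 hqa
    refine ⟨‖q - a‖⁻¹ • (q - a), ?_, ?_⟩
    · rw [norm_smul, norm_inv, norm_norm, inv_mul_cancel₀ hn.ne']
    · intro s hs hs' hK
      rcases lt_or_ge s ‖q - a‖ with h | h
      · -- the point `q` is still close
        have h3 : dist q (a + s • ‖q - a‖⁻¹ • (q - a)) < 1 / (m : ℝ) := by
          have e : q - (a + s • ‖q - a‖⁻¹ • (q - a)) = ((‖q - a‖ - s) / ‖q - a‖) • (q - a) := by
            have e1 : (q - a) = (1 : ℝ) • (q - a) := (one_smul _ _).symm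
            have e2 : q - (a + s • ‖q - a‖⁻¹ • (q - a))
                = (1 - s * ‖q - a‖⁻¹) • (q - a) := by
              rw [sub_smul, one_smul, mul_smul]; abel
            rw [e2]; congr 1; field_simp
          rw [dist_eq_norm, e, norm_smul, Real.norm_of_nonneg (by
            apply div_nonneg _ hn.le; linarith), div_mul_cancel₀ _ hn.ne']
          have h4 : ‖q - a‖ < 1 / (m : ℝ) := by rw [← dist_eq_norm]; exact hq
          linarith
        exact hqΩ (hK.2 (mem_ball.2 h3))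
      · have h3 := hs' ‖q - a‖ ⟨hn.le, h⟩
        rw [smul_smul, mul_inv_cancel₀ hn.ne', one_smul, add_sub_cancel] at h3
        exact hqΩ h3
  · -- far away
    rw [not_le] at h1
    by_cases ha0 : a = 0
    · -- then `m = 0`
      have hm0 : m = 0 := by
        rw [ha0, norm_zero, zero_add] at h1
        have : m < 1 := by exact_mod_cast h1
        omega
      rw [hm0, Km_zero]
      exact ⟨EuclideanSpace.single ⟨0, hn⟩ 1, by simp, fun s _ _ h => h⟩
    · have hn : 0 < ‖a‖ := norm_pos_iff.2 ha0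
      refine ⟨‖a‖⁻¹ • a, ?_, ?_⟩
      · rw [norm_smul, norm_inv, norm_norm, inv_mul_cancel₀ hn.ne']
      · intro s hs _ hK
        have h2 := hK.1
        have h3 : ‖a + s • ‖a‖⁻¹ • a‖ = ‖a‖ + s := by
          have e : a + s • ‖a‖⁻¹ • a = (1 + s * ‖a‖⁻¹) • a := by
            rw [add_smul, one_smul, mul_smul]
          rw [e, norm_smul, Real.norm_of_nonneg (by positivity)]
          field_simp
        rw [h3] at h2
        linarith

end exhaustion

lemma exists_seq_of_step {α : Type*} {P : ℕ → α → Prop} {R : ℕ → α → α → Prop} (a₀ : α)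
    (h0 : P 0 a₀) (hstep : ∀ m a, P m a → ∃ a', P (m + 1) a' ∧ R m a a') :
    ∃ u : ℕ → α, u 0 = a₀ ∧ (∀ m, P m (u m)) ∧ ∀ m, R m (u m) (u (m + 1)) := by
  choose f hf using hstep
  let u' : (m : ℕ) → {a // P m a} := fun m =>
    Nat.rec ⟨a₀, h0⟩ (fun m a => ⟨f m a.1 a.2, (hf m a.1 a.2).1⟩) m
  exact ⟨fun m => (u' m).1, rfl, fun m => (u' m).2, fun m => (hf m (u' m).1 (u' m).2).2⟩

open Classical in
/-- Removability of sets of zero length for good maps. -/
theorem removable {k : ℕ} {p : ℝ} (hp : 1 ≤ p) (hpk : p < k) {Ω S : Set (E (k + 1))}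
    (hΩ : IsOpen Ω) (hSΩ : S ⊆ Ω) (hScl : IsOpen (Ω \ S))
    (hS : Measure.hausdorffMeasure 1 S = 0)
    {g : E (k + 1) → E (k + 1)} (hg : GoodOn g (Ω \ S)) (hE : En p g Ω ≠ (⊤ : ℝ≥0∞))
    {ε : ℝ≥0∞} (hε : 0 < ε) :
    ∃ g' : E (k + 1) → E (k + 1), GoodOn g' Ω ∧ Dist p g g' Ω ≤ ε := by
  have hSv : volume S = 0 := volume_eq_zero_of_hausdorff (by omega) hS
  set ε₀ : ℝ≥0∞ := min ε 1 / 2 with hε₀
  have hε₀0 : 0 < ε₀ := ENNReal.div_pos (lt_min hε one_pos).ne' (by norm_num)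
  have hε₀t : ε₀ ≠ (⊤ : ℝ≥0∞) :=
    ENNReal.div_ne_top (ne_top_of_le_ne_top ENNReal.one_ne_top (min_le_right _ _)) (by norm_num)
  obtain ⟨u, hu0, huP, huR⟩ := exists_seq_of_step
    (P := fun m (q : (E (k + 1) → E (k + 1)) × Set (E (k + 1))) => q.2 ⊆ S ∧ IsOpen (Ω \ q.2) ∧
      Disjoint q.2 (Km Ω m) ∧ GoodOn q.1 (Ω \ q.2) ∧ En p q.1 Ω ≠ (⊤ : ℝ≥0∞))
    (R := fun m q q' => (∀ x ∈ Km Ω m, q'.1 x = q.1 x) ∧ Dist p q.1 q'.1 Ω ≤ ε₀ / 2 ^ m / 2)
    (g, S) ⟨Subset.rfl, hScl, by rw [Km_zero]; exact disjoint_bot_right, hg, hE⟩ (by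
      rintro m ⟨g₁, S₁⟩ ⟨h1, h2, h3, h4, h5⟩
      simp only at h1 h2 h3 h4 h5
      have hη0 : 0 < ε₀ / 2 ^ m / 2 := by
        refine ENNReal.div_pos (ENNReal.div_pos hε₀0.ne' ?_).ne' (by norm_num)
        exact ENNReal.pow_ne_top (by norm_num)
      have hηt : ε₀ / 2 ^ m / 2 ≠ (⊤ : ℝ≥0∞) := by
        refine ENNReal.div_ne_top (ENNReal.div_ne_top hε₀t ?_) (by norm_num)
        exact pow_ne_zero _ (by norm_num)
      obtain ⟨g₂, S₂, k1, k2, k3, k4, k5, k6⟩ := stage hp hpk hΩ (h1.trans hSΩ) h2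
        (measure_mono_null h1 hS) (Km_closed Ω m) (Km_compact Ω (m + 1)) (Km_compact Ω (m + 2))
        (Km_subset Ω _) (Km_subset_interior Ω (m + 1)) h3 (Km_escape (Nat.succ_pos k) Ω m) h4 h5 hη0 hηt
      refine ⟨(g₂, S₂), ⟨k1.trans h1, k2, k3, k4, ?_⟩, k5, k6⟩
      have hn1 : volume (Ω \ (Ω \ S₁)) = 0 := measure_mono_null (fun x hx => by
        by_contra h
        exact hx.2 ⟨hx.1, fun h' => h (h1 h')⟩) hSv
      have hn2 : volume (Ω \ (Ω \ S₂)) = 0 := measure_mono_null (fun x hx => by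
        by_contra h
        exact hx.2 ⟨hx.1, fun h' => h (h1 (k1 h'))⟩) hSv
      exact En_ne_top_of_Dist hp (h4.aesm' h2 hn1) (k4.aesm' k2 hn2) h5
        (ne_top_of_le_ne_top hηt k6))
  set gs : ℕ → E (k + 1) → E (k + 1) := fun m => (u m).1 with hgs
  set Ss : ℕ → Set (E (k + 1)) := fun m => (u m).2 with hSs
  have hgs0 : gs 0 = g := by simp only [hgs, hu0]
  have hnull : ∀ m, volume (Ω \ (Ω \ Ss m)) = 0 := fun m => measure_mono_null (fun x hx => by
        by_contra h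
        exact hx.2 ⟨hx.1, fun h' => h ((huP m).1 h')⟩) hSv
  have hgm : ∀ m, AEStronglyMeasurable (gs m) (volume.restrict Ω) := fun m =>
    (huP m).2.2.2.1.aesm' (huP m).2.1 (hnull m)
  have hconst : ∀ m x, x ∈ Km Ω m → ∀ j, m ≤ j → gs j x = gs m x := by
    intro m x hx j hj
    induction j, hj using Nat.le_induction with
    | base => rfl
    | succ j hj ih => rw [← ih]; exact (huR j).1 x (Km_mono Ω hj hx)
  have hdist : ∀ m, Dist p g (gs m) Ω + ε₀ / 2 ^ m ≤ ε₀ := by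
    intro m
    induction m with
    | zero =>
      rw [hgs0, pow_zero, div_one]
      have : Dist p g g Ω = 0 := by
        unfold Dist
        simp only [sub_self]
        have h0 : ∀ {F : Type} [NormedAddCommGroup F],
            eLpNorm (fun _ : E (k + 1) => (0 : F)) (ENNReal.ofReal p) (volume.restrict Ω) = 0 :=
          fun {F} _ => eLpNorm_zero'
        rw [h0, h0, add_zero]
      rw [this, zero_add]
    | succ m ih =>
      have h1 : ε₀ / 2 ^ (m + 1) = ε₀ / 2 ^ m / 2 := by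
        rw [pow_succ, ENNReal.div_eq_inv_mul, ENNReal.div_eq_inv_mul, ENNReal.div_eq_inv_mul,
          ENNReal.mul_inv (Or.inr (by norm_num)) (Or.inr (by norm_num))]
        ring
      calc Dist p g (gs (m + 1)) Ω + ε₀ / 2 ^ (m + 1)
          ≤ (Dist p g (gs m) Ω + Dist p (gs m) (gs (m + 1)) Ω) + ε₀ / 2 ^ (m + 1) := by
            gcongr
            exact Dist_triangle hp (by rw [← hgs0]; exact hgm 0) (hgm m) (hgm (m + 1))
        _ ≤ (Dist p g (gs m) Ω + ε₀ / 2 ^ m / 2) + ε₀ / 2 ^ m / 2 := by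
            rw [h1]
            gcongr
            exact (huR m).2
        _ = Dist p g (gs m) Ω + ε₀ / 2 ^ m := by rw [add_assoc, ENNReal.add_halves]
        _ ≤ ε₀ := ih
  -- the limit map
  set gl : E (k + 1) → E (k + 1) := fun x =>
    if h : ∃ m, x ∈ Km Ω m then gs (Nat.find h) x else 0 with hgl
  have hgl_eq : ∀ m x, x ∈ Km Ω m → gl x = gs m x := by
    intro m x hx
    have hex : ∃ m, x ∈ Km Ω m := ⟨m, hx⟩
    simp only [hgl, dif_pos hex]
    exact (hconst _ x (Nat.find_spec hex) m (Nat.find_min' hex hx)).symm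
  have hev : ∀ m x, x ∈ Km Ω m → ∀ᶠ y in 𝓝 x, y ∈ Km Ω (m + 1) := fun m x hx =>
    mem_interior_iff_mem_nhds.1 (Km_subset_interior Ω m hx)
  have hgood_at : ∀ m x, x ∈ Km Ω m → x ∈ Ω \ Ss m := fun m x hx =>
    ⟨Km_subset Ω m hx, fun h => Set.disjoint_left.1 (huP m).2.2.1 h hx⟩
  have hfd : ∀ m x, x ∈ Km Ω m → ∀ j, m + 1 ≤ j → fderiv ℝ (gs j) x = fderiv ℝ gl x := by
    intro m x hx j hj
    refine Filter.EventuallyEq.fderiv_eq ?_
    filter_upwards [hev m x hx] with y hy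
    rw [hgl_eq (m + 1) y hy, hconst (m + 1) y hy j hj]
  refine ⟨gl, ⟨?_, ?_, ?_⟩, ?_⟩
  · intro x hx
    obtain ⟨m, hm⟩ := exists_mem_Km hΩ hx
    have h1 : ContDiffAt ℝ ∞ (gs (m + 1)) x :=
      ((huP (m + 1)).2.2.2.1.smooth).contDiffAt ((huP (m + 1)).2.1.mem_nhds
        (hgood_at (m + 1) x (Km_mono Ω (Nat.le_succ m) hm)))
    refine ContDiffAt.contDiffWithinAt (h1.congr_of_eventuallyEq ?_)
    filter_upwards [hev m x hm] with y hy using hgl_eq (m + 1) y hy
  · intro x hx y hy hxy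
    obtain ⟨m₁, hm₁⟩ := exists_mem_Km hΩ hx
    obtain ⟨m₂, hm₂⟩ := exists_mem_Km hΩ hy
    have hx' := Km_mono Ω (le_max_left m₁ m₂) hm₁
    have hy' := Km_mono Ω (le_max_right m₁ m₂) hm₂
    rw [hgl_eq _ x hx', hgl_eq _ y hy'] at hxy
    exact (huP (max m₁ m₂)).2.2.2.1.inj (hgood_at _ x hx') (hgood_at _ y hy') hxy
  · intro x hx
    obtain ⟨m, hm⟩ := exists_mem_Km hΩ hx
    rw [← hfd m x hm (m + 1) le_rfl]
    exact (huP (m + 1)).2.2.2.1.imm x (hgood_at (m + 1) x (Km_mono Ω (Nat.le_succ m) hm))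
  · -- the distance
    have hd1 : ∀ m, eLpNorm (fun x => gs m x - g x) (ENNReal.ofReal p) (volume.restrict Ω) ≤ ε₀ :=
      fun m => by
        refine le_trans ?_ (hdist m)
        unfold Dist
        rw [add_assoc]
        exact le_self_add
    have hd2 : ∀ m, eLpNorm (fun x => fderiv ℝ (gs m) x - fderiv ℝ g x) (ENNReal.ofReal p)
        (volume.restrict Ω) ≤ ε₀ :=
      fun m => by
        refine le_trans ?_ (hdist m)
        unfold Dist
        refine le_trans ?_ (le_self_add (a := _) (b := _))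
        exact le_add_self
    have hmem : ∀ᵐ x ∂(volume.restrict Ω), x ∈ Ω := ae_restrict_mem hΩ.measurableSet
    have hl1 : eLpNorm (fun x => gl x - g x) (ENNReal.ofReal p) (volume.restrict Ω) ≤ ε₀ := by
      refine (Lp.eLpNorm_lim_le_liminf_eLpNorm (f := fun m x => gs m x - g x)
        (fun m => (hgm m).sub (by rw [← hgs0]; exact hgm 0)) (fun x => gl x - g x) ?_).trans ?_
      · filter_upwards [hmem] with x hx
        obtain ⟨m, hm⟩ := exists_mem_Km hΩ hx
        refine tendsto_const_nhds.congr' ?_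
        filter_upwards [eventually_ge_atTop m] with j hj
        rw [hgl_eq m x hm, hconst m x hm j hj]
      · refine (liminf_le_liminf (Eventually.of_forall hd1)).trans ?_
        simp
    have hl2 : eLpNorm (fun x => fderiv ℝ gl x - fderiv ℝ g x) (ENNReal.ofReal p)
        (volume.restrict Ω) ≤ ε₀ := by
      refine (Lp.eLpNorm_lim_le_liminf_eLpNorm
        (f := fun m x => fderiv ℝ (gs m) x - fderiv ℝ g x)
        (fun m => (aesm_fderiv _ _).sub (aesm_fderiv _ _))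
        (fun x => fderiv ℝ gl x - fderiv ℝ g x) ?_).trans ?_
      · filter_upwards [hmem] with x hx
        obtain ⟨m, hm⟩ := exists_mem_Km hΩ hx
        refine tendsto_const_nhds.congr' ?_
        filter_upwards [eventually_ge_atTop (m + 1)] with j hj
        rw [hfd m x hm j hj]
      · refine (liminf_le_liminf (Eventually.of_forall hd2)).trans ?_
        simp
    calc Dist p g gl Ω ≤ ε₀ + ε₀ := add_le_add hl1 hl2
      _ = min ε 1 := ENNReal.add_halves _
      _ ≤ ε := min_le_left _ _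

end Pool.Agent.H945
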