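import Pool.Agent.H945_Excise.Basic

open MeasureTheory Set Filter Topology Metric
open scoped ContDiff ENNReal NNReal

namespace Pool.Agent.H945

variable {n : ℕ} {p : ℝ}

/-! ### diffeomorphisms -/

lemma isDiffeoOn_of_goodOn {g : E n → E n} {U : Set (E n)} (hU : IsOpen U) (hg : GoodOn g U) :
    IsDiffeoOn g U := by
  have hc : ∀ x ∈ U, ContDiffAt ℝ ∞ g x := fun x hx => hg.smooth.contDiffAt (hU.mem_nhds hx)
  have hd : ∀ x ∈ U, ∃ f' : E n ≃L[ℝ] E n, HasFDerivAt g (f' : E n →L[ℝ] E n) x := by
    intro x hx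
    set l : E n ≃ₗ[ℝ] E n :=
      LinearEquiv.ofInjectiveEndo (fderiv ℝ g x : E n →ₗ[ℝ] E n) (hg.imm x hx) with hl
    refine ⟨l.toContinuousLinearEquiv, ?_⟩
    have h1 := ((hc x hx).differentiableAt (by simp)).hasFDerivAt
    refine h1.congr_fderiv ?_
    ext v
    rfl
  have hop : IsOpen (g '' U) := by
    rw [isOpen_iff_mem_nhds]
    rintro _ ⟨x, hx, rfl⟩
    obtain ⟨f', hf'⟩ := hd x hx
    rw [← ((hc x hx).hasStrictFDerivAt' hf' (by simp)).map_nhds_eq_of_equiv]
    exact image_mem_map (hU.mem_nhds hx)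
  have hinv : ∀ x ∈ U, Function.invFunOn g U (g x) = x := fun x hx =>
    hg.inj.leftInvOn_invFunOn hx
  refine ⟨hg.smooth, hop, Function.invFunOn g U, ?_, hinv⟩
  rintro _ ⟨x, hx, rfl⟩
  obtain ⟨f', hf'⟩ := hd x hx
  have hn : (∞ : WithTop ℕ∞) ≠ 0 := by simp
  have h1 := (hc x hx).to_localInverse hf' hn
  refine ContDiffAt.contDiffWithinAt (h1.congr_of_eventuallyEq ?_)
  have h2 := ((hc x hx).hasStrictFDerivAt' hf' hn).eventually_right_inverse
  have h3 : ∀ᶠ y in 𝓝 (g x), (hc x hx).localInverse hf' hn y ∈ U := by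
    refine h1.continuousAt.eventually_mem ?_
    rw [(hc x hx).localInverse_apply_image hf' hn]
    exact hU.mem_nhds hx
  filter_upwards [h2, h3] with y hy2 hy3
  have h4 : g ((hc x hx).localInverse hf' hn y) = y := hy2
  conv_lhs => rw [← h4]
  exact hinv _ hy3

lemma goodOn_of_isDiffeoOn {g : E n → E n} {U : Set (E n)} (hU : IsOpen U)
    (hg : IsDiffeoOn g U) : GoodOn g U := by
  obtain ⟨h1, h2, h, h3, h4⟩ := hg
  refine ⟨h1, ?_, ?_⟩
  · intro x hx y hy hxy
    rw [← h4 x hx, hxy, h4 y hy]
  · intro x hx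
    have e1 : HasFDerivAt g (fderiv ℝ g x) x :=
      ((h1.contDiffAt (hU.mem_nhds hx)).differentiableAt (by simp)).hasFDerivAt
    have e2 : HasFDerivAt h (fderiv ℝ h (g x)) (g x) :=
      ((h3.contDiffAt (h2.mem_nhds (mem_image_of_mem g hx))).differentiableAt
        (by simp)).hasFDerivAt
    have e3 : HasFDerivAt (h ∘ g) ((fderiv ℝ h (g x)).comp (fderiv ℝ g x)) x := e2.comp x e1
    have e4 : HasFDerivAt (h ∘ g) (ContinuousLinearMap.id ℝ (E n)) x := by
      refine (hasFDerivAt_id x).congr_of_eventuallyEq ?_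
      filter_upwards [hU.mem_nhds hx] with y hy
      simp [h4 y hy]
    have e5 := e3.unique e4
    refine Function.LeftInverse.injective (g := fderiv ℝ h (g x)) fun v => ?_
    have := congrArg (fun L : E n →L[ℝ] E n => L v) e5
    simpa using this

lemma isDiffeoOn_iff {g : E n → E n} {U : Set (E n)} (hU : IsOpen U) :
    IsDiffeoOn g U ↔ GoodOn g U :=
  ⟨goodOn_of_isDiffeoOn hU, isDiffeoOn_of_goodOn hU⟩

/-! ### integration by parts -/

lemma weak_of_smooth {g : E n → E n} {U : Set (E n)} (hU : IsOpen U)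
    (hg : ContDiffOn ℝ ∞ g U) (φ : E n → ℝ) (hφ : ContDiff ℝ ∞ φ) (hc : HasCompactSupport φ)
    (hs : tsupport φ ⊆ U) (v : E n) :
    ∫ x in U, φ x • fderiv ℝ g x v = -∫ x in U, fderiv ℝ φ x v • g x := by
  have hgc : ∀ x ∈ tsupport φ, ContDiffAt ℝ ∞ g x := fun x hx =>
    hg.contDiffAt (hU.mem_nhds (hs hx))
  have hsupp : ∀ x, x ∉ tsupport φ → φ x = 0 := fun x hx => image_eq_zero_of_notMem_tsupport hx
  have hsupp' : ∀ x, x ∉ tsupport φ → fderiv ℝ φ x v = 0 := fun x hx => by
    have : fderiv ℝ φ x = 0 := by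
      by_contra h
      exact hx (support_fderiv_subset ℝ (f := φ) (by simpa using h))
    rw [this]; rfl
  have e1 : ∫ x in U, φ x • fderiv ℝ g x v = ∫ x, φ x • fderiv ℝ g x v := by
    refine setIntegral_eq_integral_of_forall_compl_eq_zero fun x hx => ?_
    rw [hsupp x fun h => hx (hs h), zero_smul]
  have e2 : ∫ x in U, fderiv ℝ φ x v • g x = ∫ x, fderiv ℝ φ x v • g x := by
    refine setIntegral_eq_integral_of_forall_compl_eq_zero fun x hx => ?_
    rw [hsupp' x fun h => hx (hs h), zero_smul]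
  have hφd : Continuous fun x => fderiv ℝ φ x v :=
    (hφ.continuous_fderiv (by simp)).clm_apply continuous_const
  have c1 : Continuous fun x => φ x • fderiv ℝ g x v := by
    refine continuous_of_tsupport fun x hx => ?_
    have hx' : x ∈ tsupport φ := tsupport_smul_subset_left φ (fun x => fderiv ℝ g x v) hx
    exact hφ.continuous.continuousAt.smul
      ((((hgc x hx').fderiv_right (m := ∞) (by simp)).continuousAt).clm_apply continuousAt_const)
  have c2 : Continuous fun x => fderiv ℝ φ x v • g x := by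
    refine continuous_of_tsupport fun x hx => ?_
    have hx' : x ∈ tsupport φ := by
      have h1 := tsupport_smul_subset_left (fun x => fderiv ℝ φ x v) g hx
      exact closure_minimal (fun y hy => by
        by_contra h; exact hy (hsupp' y h)) (isClosed_tsupport φ) h1
    exact hφd.continuousAt.smul (hgc x hx').continuousAt
  have c3 : Continuous fun x => φ x • g x := by
    refine continuous_of_tsupport fun x hx => ?_
    have hx' : x ∈ tsupport φ := tsupport_smul_subset_left φ g hx
    exact hφ.continuous.continuousAt.smul (hgc x hx').continuousAt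
  have k1 : HasCompactSupport fun x => φ x • fderiv ℝ g x v := hc.smul_right
  have k2 : HasCompactSupport fun x => fderiv ℝ φ x v • g x := by
    refine hc.mono' fun x hx => ?_
    by_contra h
    exact hx (by simp [hsupp' x h])
  have k3 : HasCompactSupport fun x => φ x • g x := hc.smul_right
  rw [e1, e2]
  refine integral_smul_fderiv_eq_neg_fderiv_smul_of_integrable
    (c2.integrable_of_hasCompactSupport k2) (c1.integrable_of_hasCompactSupport k1)
    (c3.integrable_of_hasCompactSupport k3) ?_ ?_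
  · intro x _
    exact (hφ.differentiable (by simp)).differentiableAt
  · intro x hx
    exact (hgc x hx).differentiableAt (by simp)

/-- pairing with a test function is continuous -/
lemma pairing_bound (hp : 1 ≤ p) {U : Set (E n)} {ψ : E n → ℝ} (hψ : Continuous ψ)
    (hc : HasCompactSupport ψ) :
    ∃ C : ℝ≥0∞, C ≠ (⊤ : ℝ≥0∞) ∧ ∀ h : E n → E n, AEStronglyMeasurable h (volume.restrict U) →
      ‖∫ x in U, ψ x • h x‖ₑ ≤ C * eLpNorm h (ENNReal.ofReal p) (volume.restrict U) := by
  have hp1 : 1 ≤ ENNReal.ofReal p := by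
    rw [← ENNReal.ofReal_one]; exact ENNReal.ofReal_le_ofReal hp
  have hH : ENNReal.HolderConjugate (ENNReal.ofReal p) (ENNReal.conjExponent (ENNReal.ofReal p)) :=
    ENNReal.HolderConjugate.conjExponent hp1
  have hH' : ENNReal.HolderTriple (ENNReal.conjExponent (ENNReal.ofReal p))
      (ENNReal.ofReal p) 1 := by
    have := hH
    exact ENNReal.HolderTriple.symm
  refine ⟨eLpNorm ψ (ENNReal.conjExponent (ENNReal.ofReal p)) (volume.restrict U), ?_,
    fun h hh => ?_⟩
  · exact ((hψ.memLp_of_hasCompactSupport hc).restrict U).2.ne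
  · have h1 : ‖∫ x in U, ψ x • h x‖ₑ ≤ eLpNorm (ψ • h) 1 (volume.restrict U) := by
      rw [eLpNorm_one_eq_lintegral_enorm]
      exact enorm_integral_le_lintegral_enorm _
    exact h1.trans (eLpNorm_smul_le_mul_eLpNorm hh hψ.aestronglyMeasurable)

/-- `W^{1,p}` limits of smooth maps -/
lemma memW1p_of_limit (hp : 1 ≤ p) {U : Set (E n)} {f : E n → E n}
    {G : E n → E n →L[ℝ] E n} {g : ℕ → E n → E n} {D : ℕ → E n → E n →L[ℝ] E n}
    (hf : MemLp f (ENNReal.ofReal p) (volume.restrict U))
    (hG : MemLp G (ENNReal.ofReal p) (volume.restrict U))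
    (hg : ∀ j, MemW1p p U (g j) (D j))
    (hlim : Tendsto (fun j =>
        eLpNorm (fun x => g j x - f x) (ENNReal.ofReal p) (volume.restrict U)
        + eLpNorm (fun x => D j x - G x) (ENNReal.ofReal p) (volume.restrict U))
        atTop (𝓝 0)) : MemW1p p U f G := by
  refine ⟨hf, hG, fun φ hφ hc hs v => ?_⟩
  have hp1 : 1 ≤ ENNReal.ofReal p := by
    rw [← ENNReal.ofReal_one]; exact ENNReal.ofReal_le_ofReal hp
  have hφd : Continuous fun x => fderiv ℝ φ x v :=
    (hφ.continuous_fderiv (by simp)).clm_apply continuous_const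
  have hsupp' : ∀ x, x ∉ tsupport φ → fderiv ℝ φ x v = 0 := fun x hx => by
    have : fderiv ℝ φ x = 0 := by
      by_contra h
      exact hx (support_fderiv_subset ℝ (f := φ) (by simpa using h))
    rw [this]; rfl
  have hcd : HasCompactSupport fun x => fderiv ℝ φ x v := by
    refine hc.mono' fun x hx => ?_
    by_contra h
    exact hx (hsupp' x h)
  obtain ⟨C₁, hC₁, hC₁'⟩ := pairing_bound (U := U) hp hφ.continuous hc
  obtain ⟨C₂, hC₂, hC₂'⟩ := pairing_bound (U := U) hp hφd hcd
  -- integrability of pairings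
  have hint : ∀ (ψ : E n → ℝ), Continuous ψ → HasCompactSupport ψ → ∀ h : E n → E n,
      MemLp h (ENNReal.ofReal p) (volume.restrict U) →
      Integrable (fun x => ψ x • h x) (volume.restrict U) := by
    intro ψ hψ hψc h hh
    have hH : ENNReal.HolderConjugate (ENNReal.ofReal p)
      (ENNReal.conjExponent (ENNReal.ofReal p)) := ENNReal.HolderConjugate.conjExponent hp1
    have hH' : ENNReal.HolderTriple (ENNReal.conjExponent (ENNReal.ofReal p))
        (ENNReal.ofReal p) 1 := by
      have := hH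
      exact ENNReal.HolderTriple.symm
    have h1 : MemLp ψ (ENNReal.conjExponent (ENNReal.ofReal p)) (volume.restrict U) :=
      (hψ.memLp_of_hasCompactSupport hψc).restrict U
    have h2 : MemLp (ψ • h) 1 (volume.restrict U) := hh.smul h1
    exact memLp_one_iff_integrable.1 h2
  have happ : ∀ (D : E n → E n →L[ℝ] E n), MemLp D (ENNReal.ofReal p) (volume.restrict U) →
      MemLp (fun x => D x v) (ENNReal.ofReal p) (volume.restrict U) := fun D hD =>
    hD.continuousLinearMap_comp (ContinuousLinearMap.apply ℝ (E n) v)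
  set I : E n := (∫ x in U, φ x • G x v) + ∫ x in U, fderiv ℝ φ x v • f x with hI
  have hId : ∀ j, I = -((∫ x in U, φ x • (D j x v - G x v))
      + ∫ x in U, fderiv ℝ φ x v • (g j x - f x)) := by
    intro j
    have h1 := (hg j).2.2 φ hφ hc hs v
    have h2 : ∫ x in U, φ x • (D j x v - G x v)
        = (∫ x in U, φ x • D j x v) - ∫ x in U, φ x • G x v := by
      rw [← integral_sub (hint φ hφ.continuous hc _ (happ _ (hg j).2.1))
        (hint φ hφ.continuous hc _ (happ _ hG))]
      refine integral_congr_ae (Eventually.of_forall fun x => ?_)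
      simp only [smul_sub]
    have h3 : ∫ x in U, fderiv ℝ φ x v • (g j x - f x)
        = (∫ x in U, fderiv ℝ φ x v • g j x) - ∫ x in U, fderiv ℝ φ x v • f x := by
      rw [← integral_sub (hint _ hφd hcd _ (hg j).1) (hint _ hφd hcd _ hf)]
      refine integral_congr_ae (Eventually.of_forall fun x => ?_)
      simp only [smul_sub]
    rw [h2, h3, h1, hI]
    abel
  have hbound : ∀ j, ‖I‖ₑ ≤ (C₁ * ‖v‖ₑ + C₂) *
      (eLpNorm (fun x => g j x - f x) (ENNReal.ofReal p) (volume.restrict U)
        + eLpNorm (fun x => D j x - G x) (ENNReal.ofReal p) (volume.restrict U)) := by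
    intro j
    rw [hId j, enorm_neg]
    have h1 : ‖∫ x in U, φ x • (D j x v - G x v)‖ₑ ≤ C₁ * (‖v‖ₑ *
        eLpNorm (fun x => D j x - G x) (ENNReal.ofReal p) (volume.restrict U)) := by
      refine (hC₁' (fun x => D j x v - G x v)
        (((happ _ (hg j).2.1).sub (happ _ hG)).1)).trans ?_
      gcongr
      have h4 : ∀ x, ‖D j x v - G x v‖₊ ≤ ‖v‖₊ * ‖D j x - G x‖₊ := fun x => by
        have := (D j x - G x).le_opNNNorm v
        rw [mul_comm]
        simpa using this
      exact eLpNorm_le_nnreal_smul_eLpNorm_of_ae_le_mul (Eventually.of_forall h4) _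
    have h2 := hC₂' (fun x => g j x - f x) (((hg j).1.sub hf).1)
    calc _ ≤ _ := enorm_add_le _ _
      _ ≤ C₁ * (‖v‖ₑ *
          eLpNorm (fun x => D j x - G x) (ENNReal.ofReal p) (volume.restrict U))
          + C₂ * eLpNorm (fun x => g j x - f x) (ENNReal.ofReal p) (volume.restrict U) :=
        add_le_add h1 h2
      _ ≤ _ := by
        rw [add_mul, mul_add, mul_add]
        have e1 : C₁ * (‖v‖ₑ *
          eLpNorm (fun x => D j x - G x) (ENNReal.ofReal p) (volume.restrict U))
          = C₁ * ‖v‖ₑ *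
          eLpNorm (fun x => D j x - G x) (ENNReal.ofReal p) (volume.restrict U) := by ring
        rw [e1]
        exact add_le_add le_add_self le_self_add
  have hlim2 : Tendsto (fun j => (C₁ * ‖v‖ₑ + C₂) *
      (eLpNorm (fun x => g j x - f x) (ENNReal.ofReal p) (volume.restrict U)
        + eLpNorm (fun x => D j x - G x) (ENNReal.ofReal p) (volume.restrict U))) atTop (𝓝 0) := by
    have h1 : C₁ * ‖v‖ₑ + C₂ ≠ (⊤ : ℝ≥0∞) :=
      ENNReal.add_ne_top.2 ⟨ENNReal.mul_ne_top hC₁ enorm_ne_top, hC₂⟩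
    have := ENNReal.Tendsto.const_mul (a := C₁ * ‖v‖ₑ + C₂) hlim (Or.inr h1)
    simpa using this
  have hI0 : ‖I‖ₑ = 0 := le_antisymm (ge_of_tendsto' hlim2 hbound) bot_le
  have hI1 : I = 0 := by simpa using hI0
  exact eq_neg_of_add_eq_zero_left hI1

/-! ### restriction to a smaller open set -/

lemma IsDiffeoOn.mono {g : E n → E n} {U V : Set (E n)} (hU : IsOpen U) (hV : IsOpen V)
    (h : IsDiffeoOn g U) (hVU : V ⊆ U) : IsDiffeoOn g V := by
  rw [isDiffeoOn_iff hV]
  exact ((isDiffeoOn_iff hU).1 h).mono hVU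

lemma setIntegral_eq_of_support {U V : Set (E n)} (hVU : V ⊆ U) (hV : MeasurableSet V)
    (hU : MeasurableSet U) {F : E n → E n} (hF : ∀ x, x ∉ V → F x = 0) :
    ∫ x in U, F x = ∫ x in V, F x := by
  rw [setIntegral_eq_integral_of_forall_compl_eq_zero (fun x hx => hF x fun h => hx (hVU h)),
    setIntegral_eq_integral_of_forall_compl_eq_zero (fun x hx => hF x hx)]

lemma MemW1p.mono {U V : Set (E n)} (hVU : V ⊆ U) (hV : MeasurableSet V)
    (hU : MeasurableSet U) {f : E n → E n} {G : E n → E n →L[ℝ] E n} (h : MemW1p p U f G) :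
    MemW1p p V f G := by
  refine ⟨h.1.mono_measure (Measure.restrict_mono hVU le_rfl),
    h.2.1.mono_measure (Measure.restrict_mono hVU le_rfl), fun φ hφ hc hs v => ?_⟩
  have h1 := h.2.2 φ hφ hc (hs.trans hVU) v
  rw [setIntegral_eq_of_support hVU hV hU (F := fun x => φ x • G x v) (fun x hx => by
      rw [image_eq_zero_of_notMem_tsupport (fun h => hx (hs h)), zero_smul]),
    setIntegral_eq_of_support hVU hV hU (F := fun x => fderiv ℝ φ x v • f x) (fun x hx => by
      have : fderiv ℝ φ x = 0 := by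
        by_contra h
        exact hx (hs (support_fderiv_subset ℝ (f := φ) (by simpa using h)))
      rw [this]; simp)] at h1
  exact h1

lemma ApproxByDiffeos.mono {U V : Set (E n)} (hU : IsOpen U) (hV : IsOpen V) (hVU : V ⊆ U)
    {f : E n → E n} (h : ApproxByDiffeos p U f) : ApproxByDiffeos p V f := by
  obtain ⟨G, hG, g, hg, hlim⟩ := h
  refine ⟨G, hG.mono hVU hV.measurableSet hU.measurableSet, g, fun j =>
    ⟨(hg j).1.mono hU hV hVU, (hg j).2.mono hVU hV.measurableSet hU.measurableSet⟩, ?_⟩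
  refine tendsto_of_tendsto_of_tendsto_of_le_of_le tendsto_const_nhds hlim (fun _ => bot_le)
    fun j => ?_
  exact add_le_add (eLpNorm_mono_measure _ (Measure.restrict_mono hVU le_rfl))
    (eLpNorm_mono_measure _ (Measure.restrict_mono hVU le_rfl))

end Pool.Agent.H945
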