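import Pool.Agent.H945_Excise.Limit
import Pool.Agent.H945_Excise.Sobolev

open MeasureTheory Set Filter Topology Metric
open scoped ContDiff ENNReal NNReal

namespace Pool.Agent.H945

theorem approx_iff_aux {k : ℕ} {p : ℝ} (hp : 1 ≤ p) (hpk : p < k) {Ω S : Set (E (k + 1))}
    (hΩ : IsOpen Ω) (hSΩ : S ⊆ Ω) (hScl : IsOpen (Ω \ S))
    (hS : Measure.hausdorffMeasure 1 S = 0) (f : E (k + 1) → E (k + 1)) :
    ApproxByDiffeos p Ω f ↔ ApproxByDiffeos p (Ω \ S) f := by
  have hp0 : 0 < p := by linarith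
  have hp1 : 1 ≤ ENNReal.ofReal p := by
    rw [← ENNReal.ofReal_one]; exact ENNReal.ofReal_le_ofReal hp
  have hSv : volume S = 0 := volume_eq_zero_of_hausdorff (by omega) hS
  have hnull : volume (Ω \ (Ω \ S)) = 0 := measure_mono_null (fun x hx => by
        by_contra h
        exact hx.2 ⟨hx.1, h⟩) hSv
  have hres : (volume : Measure (E (k + 1))).restrict Ω = volume.restrict (Ω \ S) :=
    restrict_eq_of_null sdiff_subset hnull
  refine ⟨fun h => h.mono hΩ hScl sdiff_subset, ?_⟩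
  rintro ⟨G, hG, g, hg, hlim⟩
  have hgood : ∀ j, GoodOn (g j) (Ω \ S) := fun j => (isDiffeoOn_iff hScl).1 (hg j).1
  have hEn : ∀ j, En p (g j) Ω ≠ (⊤ : ℝ≥0∞) := by
    intro j
    rw [En_ne_top_iff hp, hres]
    exact ⟨(hg j).2.1.2.ne, (hg j).2.2.1.2.ne⟩
  have hstep : ∀ j : ℕ, ∃ g' : E (k + 1) → E (k + 1), GoodOn g' Ω ∧
      Dist p (g j) g' Ω ≤ ENNReal.ofReal (1 / ((j : ℝ) + 1)) := fun j =>
    removable hp hpk hΩ hSΩ hScl hS (hgood j) (hEn j) (by
      rw [ENNReal.ofReal_pos]; positivity)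
  choose g' hg' hD using hstep
  have hm : ∀ j, AEStronglyMeasurable (g j) (volume.restrict Ω) := fun j => by
    rw [hres]; exact (hg j).2.1.1
  have hm' : ∀ j, AEStronglyMeasurable (g' j) (volume.restrict Ω) := fun j => (hg' j).aesm hΩ
  have hW : ∀ j, MemW1p p Ω (g' j) (fderiv ℝ (g' j)) := by
    intro j
    have h1 : En p (g' j) Ω ≠ (⊤ : ℝ≥0∞) :=
      En_ne_top_of_Dist hp (hm j) (hm' j) (hEn j)
        (ne_top_of_le_ne_top ENNReal.ofReal_ne_top (hD j))
    rw [En_ne_top_iff hp] at h1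
    exact ⟨⟨hm' j, h1.1.lt_top⟩, ⟨aesm_fderiv _ _, h1.2.lt_top⟩,
      fun φ hφ hc hs v => weak_of_smooth hΩ (hg' j).smooth φ hφ hc hs v⟩
  have hf : MemLp f (ENNReal.ofReal p) (volume.restrict Ω) := by rw [hres]; exact hG.1
  have hG' : MemLp G (ENNReal.ofReal p) (volume.restrict Ω) := by rw [hres]; exact hG.2.1
  have hlim' : Tendsto (fun j =>
        eLpNorm (fun x => g' j x - f x) (ENNReal.ofReal p) (volume.restrict Ω)
        + eLpNorm (fun x => fderiv ℝ (g' j) x - G x) (ENNReal.ofReal p) (volume.restrict Ω))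
        atTop (𝓝 0) := by
    have h0 : Tendsto (fun j : ℕ => ENNReal.ofReal (1 / ((j : ℝ) + 1))) atTop (𝓝 0) := by
      have := ENNReal.tendsto_ofReal (tendsto_one_div_add_atTop_nhds_zero_nat (𝕜 := ℝ))
      simpa using this
    unfold W1pDist at hlim
    rw [← hres] at hlim
    have h1 := h0.add hlim
    rw [add_zero] at h1
    refine tendsto_of_tendsto_of_tendsto_of_le_of_le tendsto_const_nhds h1 (fun _ => bot_le)
      fun j => ?_
    have e1 : eLpNorm (fun x => g' j x - f x) (ENNReal.ofReal p) (volume.restrict Ω) ≤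
        eLpNorm (fun x => g' j x - g j x) (ENNReal.ofReal p) (volume.restrict Ω)
        + eLpNorm (fun x => g j x - f x) (ENNReal.ofReal p) (volume.restrict Ω) := by
      have := eLpNorm_add_le (μ := volume.restrict Ω) (f := fun x => g' j x - g j x)
        (g := fun x => g j x - f x) ((hm' j).sub (hm j)) ((hm j).sub hf.1) hp1
      refine le_trans (le_of_eq ?_) this
      congr 1; ext x; simp
    have e2 : eLpNorm (fun x => fderiv ℝ (g' j) x - G x) (ENNReal.ofReal p)
          (volume.restrict Ω) ≤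
        eLpNorm (fun x => fderiv ℝ (g' j) x - fderiv ℝ (g j) x) (ENNReal.ofReal p)
          (volume.restrict Ω)
        + eLpNorm (fun x => fderiv ℝ (g j) x - G x) (ENNReal.ofReal p)
          (volume.restrict Ω) := by
      have := eLpNorm_add_le (μ := volume.restrict Ω)
        (f := fun x => fderiv ℝ (g' j) x - fderiv ℝ (g j) x)
        (g := fun x => fderiv ℝ (g j) x - G x) ((aesm_fderiv _ _).sub (aesm_fderiv _ _))
        ((aesm_fderiv _ _).sub hG'.1) hp1
      refine le_trans (le_of_eq ?_) this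
      congr 1; ext x; simp
    refine (add_le_add e1 e2).trans ?_
    have e3 := hD j
    unfold Dist at e3
    calc _ = (eLpNorm (fun x => g' j x - g j x) (ENNReal.ofReal p) (volume.restrict Ω)
        + eLpNorm (fun x => fderiv ℝ (g' j) x - fderiv ℝ (g j) x) (ENNReal.ofReal p)
          (volume.restrict Ω)) + (eLpNorm (fun x => g j x - f x) (ENNReal.ofReal p)
          (volume.restrict Ω) + eLpNorm (fun x => fderiv ℝ (g j) x - G x) (ENNReal.ofReal p)
          (volume.restrict Ω)) := by ring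
      _ ≤ _ := add_le_add e3 le_rfl
  exact ⟨G, memW1p_of_limit hp hf hG' hW hlim', g', fun j =>
    ⟨isDiffeoOn_of_goodOn hΩ (hg' j), hW j⟩, hlim'⟩

end Pool.Agent.H945
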