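import Pool.Agent.H945_Excise.CollapseLemma

open MeasureTheory Set Filter Topology Metric
open scoped ContDiff ENNReal NNReal

namespace Pool.Agent.H945

variable {n : ℕ} {p : ℝ}

lemma fderiv_congr_open {g g' : E n → E n} {W : Set (E n)} (hW : IsOpen W)
    (h : ∀ x ∈ W, g' x = g x) : ∀ x ∈ W, fderiv ℝ g' x = fderiv ℝ g x := by
  intro x hx
  refine Filter.EventuallyEq.fderiv_eq ?_
  filter_upwards [hW.mem_nhds hx] with y hy using h y hy

lemma En_congr {g g' : E n → E n} {W : Set (E n)} (hW : IsOpen W)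
    (h : ∀ x ∈ W, g' x = g x) : En p g' W = En p g W := by
  unfold En
  refine setLIntegral_congr_fun hW.measurableSet fun x hx => ?_
  simp only [h x hx, fderiv_congr_open hW h x hx]

open Classical in
lemma multi_collapse (hn : 1 ≤ n) (hp : 1 ≤ p) (hpn : p ≤ (n : ℝ) - 1) {V : Set (E n)}
    (hV : IsOpen V) {g : E n → E n} (hg : GoodOn g V) {δ : ℝ} (h0 : 0 < δ) (h1 : δ ≤ 1)
    (G : Finset (E n × ℝ)) (hpos : ∀ y ∈ G, 0 < y.2)
    (hdisj : (G : Set (E n × ℝ)).PairwiseDisjoint (fun x => closedBall x.1 x.2))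
    (hA : ∀ y ∈ G, closedBall y.1 y.2 \ ball y.1 ((1 - δ) * y.2) ⊆ V) :
    ∃ g' : E n → E n,
      GoodOn g' ((V ∪ ⋃ y ∈ G, ball y.1 y.2) \ ((G.image Prod.fst : Finset (E n)) : Set (E n))) ∧
      (∀ x, x ∉ (⋃ y ∈ G, ball y.1 y.2) → g' x = g x) ∧
      ∀ y ∈ G, En p g' (ball y.1 y.2) ≤
        ENNReal.ofReal (Kc n p δ) * En p g (ball y.1 y.2 \ closedBall y.1 ((1 - δ) * y.2)) := by
  induction G using Finset.induction_on with
  | empty => exact ⟨g, by simpa using hg, fun _ _ => rfl, by simp⟩
  | insert y G hyG ih =>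
    obtain ⟨g₁, hg₁, hoff₁, hE₁⟩ := ih (fun z hz => hpos z (Finset.mem_insert_of_mem hz))
      (hdisj.subset (by intro z hz; exact Finset.mem_insert_of_mem hz))
      (fun z hz => hA z (Finset.mem_insert_of_mem hz))
    have hy0 := hpos y (Finset.mem_insert_self _ _)
    have hd : ∀ z ∈ G, Disjoint (closedBall z.1 z.2) (closedBall y.1 y.2) := by
      intro z hz
      refine hdisj (Finset.mem_insert_of_mem hz) (Finset.mem_insert_self _ _) ?_
      rintro rfl; exact hyG hz
    have hcent : ∀ z ∈ G, z.1 ∉ closedBall y.1 y.2 := fun z hz h =>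
      Set.disjoint_left.1 (hd z hz)
        (mem_closedBall_self (hpos z (Finset.mem_insert_of_mem hz)).le) h
    have hV₁o : IsOpen ((V ∪ ⋃ z ∈ G, ball z.1 z.2) \
        ((G.image Prod.fst : Finset (E n)) : Set (E n))) :=
      (hV.union (isOpen_biUnion fun _ _ => isOpen_ball)).sdiff
        (Finset.finite_toSet _).isClosed
    have himg : ∀ x, x ∈ ((G.image Prod.fst : Finset (E n)) : Set (E n)) →
        x ∉ closedBall y.1 y.2 := by
      intro x hx
      obtain ⟨z, hz, rfl⟩ := Finset.mem_image.1 (Finset.mem_coe.1 hx)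
      exact hcent z hz
    obtain ⟨g₂, hg₂, hoff₂, hE₂, -⟩ := collapse hn hp hpn hV₁o hg₁ hy0 h0 h1 (b := y.1) (by
      intro x hx
      refine ⟨Or.inl (hA y (Finset.mem_insert_self _ _) hx), fun hx' => himg x hx' hx.1⟩)
    refine ⟨g₂, ?_, ?_, ?_⟩
    · refine hg₂.mono ?_
      rintro x ⟨hx, hxc⟩
      have hxy : x ≠ y.1 := fun h => hxc (by
        rw [h]; exact Finset.mem_coe.2 (Finset.mem_image_of_mem _ (Finset.mem_insert_self _ _)))
      refine ⟨?_, hxy⟩
      by_cases hxb : x ∈ ball y.1 y.2
      · exact Or.inr hxb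
      · refine Or.inl ⟨?_, fun h => hxc ?_⟩
        · rcases hx with hx | hx
          · exact Or.inl hx
          · simp only [mem_iUnion, exists_prop] at hx
            obtain ⟨z, hz, hxz⟩ := hx
            rcases Finset.mem_insert.1 hz with rfl | hz
            · exact absurd hxz hxb
            · exact Or.inr (mem_biUnion (Finset.mem_coe.2 hz) hxz)
        · obtain ⟨z, hz, rfl⟩ := Finset.mem_image.1 (Finset.mem_coe.1 h)
          exact Finset.mem_coe.2 (Finset.mem_image_of_mem _ (Finset.mem_insert_of_mem hz))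
    · intro x hx
      simp only [mem_iUnion, exists_prop, not_exists, not_and] at hx
      rw [hoff₂ x (hx y (Finset.mem_insert_self _ _)), hoff₁ x ?_]
      simp only [mem_iUnion, exists_prop, not_exists, not_and]
      exact fun z hz => hx z (Finset.mem_insert_of_mem hz)
    · intro z hz
      rcases Finset.mem_insert.1 hz with rfl | hz
      · refine hE₂.trans (le_of_eq ?_)
        congr 1
        refine En_congr (isOpen_ball.sdiff isClosed_closedBall) fun x hx => hoff₁ x ?_
        intro hx'
        simp only [mem_iUnion, exists_prop] at hx'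
        obtain ⟨w, hw, hxw⟩ := hx'
        exact Set.disjoint_left.1 (hd w hw) (ball_subset_closedBall hxw)
          (ball_subset_closedBall hx.1)
      · refine le_trans (le_of_eq ?_) (hE₁ z hz)
        refine En_congr isOpen_ball fun x hx => hoff₂ x ?_
        intro hx'
        exact Set.disjoint_left.1 (hd z hz) (ball_subset_closedBall hx)
          (ball_subset_closedBall hx')

end Pool.Agent.H945
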