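import Pool.Agent.H945_Excise.Push3

open MeasureTheory Set Filter Topology Metric
open scoped ContDiff ENNReal NNReal InnerProductSpace

namespace Pool.Agent.H945

/-- the exit times of a ray -/
lemma exists_times {n : ℕ} {U K : Set (E n)} (hU : IsOpen U) (hK : IsClosed K) {a e : E n}
    (ha : a ∈ U)
    (hray : ∀ s : ℝ, 0 ≤ s → (∀ s' ∈ Icc 0 s, a + s' • e ∈ U) → a + s • e ∉ K) :
    ∃ t : ℕ → ℝ, StrictMono t ∧ t 0 = 0 ∧
      (∀ k, ∀ s ∈ Icc 0 (t k), a + s • e ∈ U ∩ Kᶜ) ∧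
      (∀ s : ℝ, (∀ k, t k ≤ s) → a + s • e ∈ U → ∃ c, (∀ k, t k ≤ c) ∧ c < s) := by
  set U' := U ∩ Kᶜ with hU'
  have hU'o : IsOpen U' := hU.inter hK.isOpen_compl
  set TT : Set ℝ := {s | 0 ≤ s ∧ ∀ s' ∈ Icc 0 s, a + s' • e ∈ U'} with hTT
  have hcont : Continuous fun s : ℝ => a + s • e := by fun_prop
  have h0 : (0:ℝ) ∈ TT := by
    refine ⟨le_rfl, fun s' hs' => ?_⟩
    have : s' = 0 := le_antisymm hs'.2 hs'.1
    have h1 := hray 0 le_rfl (fun s' hs' => by
      have : s' = 0 := le_antisymm hs'.2 hs'.1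
      rw [this]; simpa using ha)
    rw [this]
    simp only [zero_smul, add_zero] at h1 ⊢
    exact ⟨ha, h1⟩
  have hdown : ∀ s ∈ TT, ∀ s', 0 ≤ s' → s' ≤ s → s' ∈ TT := by
    intro s hs s' h1 h2
    exact ⟨h1, fun u hu => hs.2 u ⟨hu.1, hu.2.trans h2⟩⟩
  have hup : ∀ s ∈ TT, ∃ s' ∈ TT, s < s' := by
    intro s hs
    have h1 : ∀ᶠ u in 𝓝 s, a + u • e ∈ U' :=
      hcont.continuousAt.eventually_mem (hU'o.mem_nhds (hs.2 s ⟨hs.1, le_rfl⟩))
    obtain ⟨δ, hδ, hδ2⟩ := Metric.eventually_nhds_iff.1 h1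
    refine ⟨s + δ / 2, ⟨by linarith [hs.1], fun u hu => ?_⟩, by linarith⟩
    rcases le_total u s with hus | hus
    · exact hs.2 u ⟨hu.1, hus⟩
    · refine hδ2 ?_
      rw [Real.dist_eq, abs_of_nonneg (by linarith)]
      linarith [hu.2]
  -- main claim: a cofinal sequence
  have main : ∃ t : ℕ → ℝ, StrictMono t ∧ t 0 = 0 ∧ (∀ k, t k ∈ TT) ∧ ∀ s ∈ TT, ∃ k, s < t k := by
    by_cases hb : BddAbove TT
    · set τ := sSup TT with hτ
      have hτn : τ ∉ TT := by
        intro h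
        obtain ⟨s', hs', hlt⟩ := hup τ h
        exact absurd (le_csSup hb hs') (not_le.2 hlt)
      have hτ0 : 0 < τ := by
        rcases eq_or_lt_of_le (le_csSup hb h0) with h | h
        · exact absurd (by rw [hτ, ← h]; exact h0) hτn
        · exact h
      have hlt : ∀ s ∈ TT, s < τ := fun s hs =>
        lt_of_le_of_ne (le_csSup hb hs) (fun h => hτn (h ▸ hs))
      refine ⟨fun k => τ - τ * (1 / 2) ^ k, ?_, ?_, ?_, ?_⟩
      · refine strictMono_nat_of_lt_succ fun k => ?_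
        have : (0:ℝ) < (1 / 2) ^ k := by positivity
        rw [pow_succ]
        nlinarith
      · simp
      · intro k
        have h1 : (0:ℝ) < (1 / 2) ^ k := by positivity
        have h2 : τ - τ * (1 / 2) ^ k < τ := by nlinarith
        obtain ⟨s, hs, hs2⟩ := exists_lt_of_lt_csSup ⟨0, h0⟩ h2
        refine hdown s hs _ ?_ hs2.le
        have h3 : (1 / 2 : ℝ) ^ k ≤ 1 := pow_le_one₀ (by norm_num) (by norm_num)
        nlinarith
      · intro s hs
        have h1 := hlt s hs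
        obtain ⟨k, hk⟩ := exists_pow_lt_of_lt_one (div_pos (sub_pos.2 h1) hτ0)
          (by norm_num : (1/2 : ℝ) < 1)
        refine ⟨k, ?_⟩
        rw [lt_div_iff₀ hτ0] at hk
        change s < τ - τ * (1 / 2) ^ k
        linarith
    · rw [not_bddAbove_iff] at hb
      refine ⟨fun k => k, fun i j hij => Nat.cast_lt.2 hij, by simp, fun k => ?_,
        fun s _ => ?_⟩
      · obtain ⟨s, hs, hs2⟩ := hb (k:ℝ)
        exact hdown s hs _ (Nat.cast_nonneg k) hs2.le
      · obtain ⟨k, hk⟩ := exists_nat_gt s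
        exact ⟨k, hk⟩
  obtain ⟨t, ht, ht0, htT, htc⟩ := main
  refine ⟨t, ht, ht0, fun k s hs => (htT k).2 s hs, ?_⟩
  intro s hs hsU
  by_contra hcon
  push Not at hcon
  -- every s' < s is below some t k
  have h1 : ∀ s', s' < s → ∃ k, s' < t k := by
    intro s' hs'
    by_contra hc
    push Not at hc
    exact absurd (hcon s' hc) (not_le.2 hs')
  have hs0 : 0 ≤ s := by rw [← ht0]; exact hs 0
  have h2 : ∀ s' ∈ Icc 0 s, a + s' • e ∈ U := by
    intro s' hs'
    rcases eq_or_lt_of_le hs'.2 with h | h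
    · rw [h]; exact hsU
    · obtain ⟨k, hk⟩ := h1 s' h
      exact ((htT k).2 s' ⟨hs'.1, hk.le⟩).1
  have h3 := hray s hs0 h2
  have h4 : s ∈ TT := by
    refine ⟨hs0, fun s' hs' => ?_⟩
    rcases eq_or_lt_of_le hs'.2 with h | h
    · rw [h]; exact ⟨hsU, h3⟩
    · obtain ⟨k, hk⟩ := h1 s' h
      exact (htT k).2 s' ⟨hs'.1, hk.le⟩
  obtain ⟨k, hk⟩ := htc s h4
  linarith [hs k]

/-- choice of the radii -/
lemma exists_eps {b : ℕ → ℝ} (hb : ∀ k, 0 < b k) :
    ∃ ε : ℕ → ℝ, (∀ k, 0 < ε k) ∧ (∀ k, ε (k + 1) ≤ ε k / 2) ∧ ∀ k, ε k ≤ b k := by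
  set ε : ℕ → ℝ := fun k => Nat.rec (b 0) (fun k x => min (x / 2) (b (k + 1))) k with hε
  have hs : ∀ k, ε (k + 1) = min (ε k / 2) (b (k + 1)) := fun k => rfl
  have hpos : ∀ k, 0 < ε k := by
    intro k
    induction k with
    | zero => exact hb 0
    | succ k ih => rw [hs]; exact lt_min (by linarith) (hb _)
  refine ⟨ε, hpos, fun k => by rw [hs]; exact min_le_left _ _, fun k => ?_⟩
  cases k with
  | zero => exact le_rfl
  | succ k => rw [hs]; exact min_le_right _ _

lemma exists_small_rpow (A : ℝ) {γ δ : ℝ} (hγ : 0 < γ) (hδ : 0 < δ) :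
    ∃ b : ℝ, 0 < b ∧ ∀ y, 0 ≤ y → y ≤ b → A * (2 * y) ^ γ ≤ δ := by
  have h1 : 0 < δ / (|A| + 1) := by positivity
  refine ⟨(δ / (|A| + 1)) ^ (1 / γ) / 2, by positivity, fun y hy0 hy => ?_⟩
  have h2 : (2 * y) ^ γ ≤ δ / (|A| + 1) := by
    calc (2 * y) ^ γ ≤ ((δ / (|A| + 1)) ^ (1 / γ)) ^ γ := by
          apply Real.rpow_le_rpow (by positivity) (by linarith) hγ.le
      _ = δ / (|A| + 1) := by
          rw [← Real.rpow_mul h1.le, one_div_mul_cancel hγ.ne', Real.rpow_one]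
  have h3 : 0 ≤ (2 * y) ^ γ := by positivity
  calc A * (2 * y) ^ γ ≤ |A| * (2 * y) ^ γ := by gcongr; exact le_abs_self A
    _ ≤ |A| * (δ / (|A| + 1)) := by gcongr
    _ ≤ δ := by
        rw [← mul_div_assoc, div_le_iff₀ (by positivity)]
        nlinarith [abs_nonneg A]

section
variable {n : ℕ} {t ε : ℕ → ℝ} {m : ℕ} {a e x : E n}

/-- off the tube the derivative of the push is the identity -/
lemma TD.hh_hasFDerivAt_of_not_mem (h : TD t ε) (he : ‖e‖ = 1) (hs : tt a e x ∈ DD t)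
    (hx : x ∉ NN t ε a e) :
    HasFDerivAt (hh t ε m a e) (ContinuousLinearMap.id ℝ (E n)) x := by
  have h0 := h.hh_hasFDerivAt (m := m) (a := a) (x := x) he hs
  have hr0 := h.pos0
  have hal : al t ε m (ss a e x) (tt a e x) = 0 ∧ be t ε m (ss a e x) (tt a e x) = 0 := by
    by_cases h1 : -rr t ε 0 < tt a e x
    · have h2 : rr t ε (tt a e x) ^ 2 ≤ ss a e x := by
        by_contra hc
        push Not at hc
        exact hx ⟨h1, hs, hc⟩
      have hr := h.pos hs
      have h3 : 1 ≤ ss a e x / rr t ε (tt a e x) ^ 2 := (one_le_div (by positivity)).2 h2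
      have h4 : deriv st (zz t ε (ss a e x) (tt a e x)) = 0 :=
        st_deriv_of_one_le (by unfold zz; linarith)
      have h5 : yy t ε (ss a e x) (tt a e x) = 1 := yy_eq_one hr h2
      constructor
      · unfold al; rw [h4, h5]; simp
      · unfold be; rw [h4]; simp
    · push Not at h1
      have h2 := h.vv_of_le h1
      have h3 := rr_deriv_of_neg (ε := ε) h.ht h.ht0 (s := tt a e x) (by linarith)
      have h4 : rr t ε (tt a e x) = rr t ε 0 := rr_const h.ht h.ht0 (by linarith)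
      have hz : tt a e x / rr t ε 0 ≤ -1 := by rw [div_le_iff₀ hr0]; linarith
      have h5 : lamd (tt a e x / rr t ε 0) = -1 := by
        have e1 : st (2 * (tt a e x / rr t ε 0) + 2) = 0 :=
          Real.smoothTransition.zero_of_nonpos (by linarith)
        have e2 : deriv st (2 * (tt a e x / rr t ε 0) + 2) = 0 :=
          st_deriv_of_nonpos (by linarith)
        unfold lamd
        rw [e1, e2]; ring
      have h6 : vd t ε (tt a e x) = 1 := by
        unfold vd
        rw [h3, h4, h5]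
        field_simp
        ring
      constructor
      · unfold al; rw [h2, h6]; ring
      · unfold be; rw [h2]; ring
  rw [hal.1, hal.2] at h0
  refine h0.congr_fderiv ?_
  ext v; simp

end

end Pool.Agent.H945
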