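import Pool.Agent.H945_Excise.Excise
import Pool.Agent.H945_Excise.CollapseLemma

open MeasureTheory Set Filter Topology Metric
open scoped ContDiff ENNReal NNReal InnerProductSpace

namespace Pool.Agent.H945

variable {n : ℕ} {p : ℝ}

/-- absolute continuity of the energy -/
lemma En_small {g : E n → E n} {U : Set (E n)} (hE : En p g U ≠ (⊤ : ℝ≥0∞)) {ε : ℝ≥0∞} (hε : ε ≠ 0) :
    ∃ δ : ℝ≥0∞, 0 < δ ∧ ∀ N : Set (E n), N ⊆ U → MeasurableSet N → volume N < δ →
      En p g N < ε := by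
  obtain ⟨δ, hδ, h⟩ := exists_pos_setLIntegral_lt_of_measure_lt
    (μ := volume.restrict U) (f := fun x => (‖g x‖ₑ ^ p + ‖fderiv ℝ g x‖ₑ ^ p)) hE hε
  refine ⟨δ, hδ, fun N hN hNm hNv => ?_⟩
  have h1 := h N (by rw [Measure.restrict_apply hNm]; exact (measure_mono inter_subset_left).trans_lt hNv)
  rw [Measure.restrict_restrict hNm, inter_eq_left.2 hN] at h1
  exact h1

lemma En_mono {g : E n → E n} {U V : Set (E n)} (h : U ⊆ V) : En p g U ≤ En p g V :=
  lintegral_mono_set h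

lemma En_ne_top_iff (hp : 1 ≤ p) {g : E n → E n} {U : Set (E n)} :
    En p g U ≠ (⊤ : ℝ≥0∞) ↔ eLpNorm g (ENNReal.ofReal p) (volume.restrict U) ≠ (⊤ : ℝ≥0∞) ∧
      eLpNorm (fderiv ℝ g) (ENNReal.ofReal p) (volume.restrict U) ≠ (⊤ : ℝ≥0∞) := by
  have hp0 : 0 < p := by linarith
  constructor
  · intro h
    constructor
    · exact ne_top_of_le_ne_top (ENNReal.rpow_ne_top_of_nonneg (by positivity) h)
        (eLpNorm_le_En hp g U)
    · exact ne_top_of_le_ne_top (ENNReal.rpow_ne_top_of_nonneg (by positivity) h)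
        (eLpNorm_fderiv_le_En hp g U)
  · rintro ⟨h1, h2⟩
    unfold En
    rw [lintegral_add_right _ ((measurable_fderiv ℝ g).enorm.pow_const p)]
    rw [eLpNorm_eq_lintegral_rpow_enorm_toReal (by simpa using hp0) ENNReal.ofReal_ne_top,
      ENNReal.toReal_ofReal hp0.le] at h1 h2
    refine ENNReal.add_ne_top.2 ⟨fun h => h1 ?_, fun h => h2 ?_⟩
    · rw [h, ENNReal.top_rpow_of_pos (by positivity)]
    · rw [h, ENNReal.top_rpow_of_pos (by positivity)]

lemma En_ne_top_of_Dist (hp : 1 ≤ p) {g g' : E n → E n} {U : Set (E n)}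
    (h1 : AEStronglyMeasurable g (volume.restrict U))
    (h2 : AEStronglyMeasurable g' (volume.restrict U))
    (hE : En p g U ≠ (⊤ : ℝ≥0∞)) (hD : Dist p g g' U ≠ (⊤ : ℝ≥0∞)) : En p g' U ≠ (⊤ : ℝ≥0∞) := by
  have hp1 : 1 ≤ ENNReal.ofReal p := by
    rw [← ENNReal.ofReal_one]; exact ENNReal.ofReal_le_ofReal hp
  rw [En_ne_top_iff hp] at hE ⊢
  unfold Dist at hD
  rw [Ne, ENNReal.add_eq_top, not_or] at hD
  constructor
  · have := eLpNorm_add_le (μ := volume.restrict U) (h2.sub h1) h1 hp1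
    refine ne_top_of_le_ne_top (ENNReal.add_ne_top.2 ⟨hD.1, hE.1⟩) (le_trans (le_of_eq ?_) this)
    congr 1; ext x; simp
  · have := eLpNorm_add_le (μ := volume.restrict U)
      ((aesm_fderiv g' _).sub (aesm_fderiv g _)) (aesm_fderiv g _) hp1
    refine ne_top_of_le_ne_top (ENNReal.add_ne_top.2 ⟨hD.2, hE.2⟩) (le_trans (le_of_eq ?_) this)
    congr 1; ext x; simp

lemma exists_small_en {ε : ℝ≥0∞} (hε : 0 < ε) (hp : 1 ≤ p) :
    ∃ δ : ℝ, 0 < δ ∧ (ENNReal.ofReal δ) ^ (1 / p) ≤ ε := by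
  have hp0 : 0 < p := by linarith
  by_cases htop : ε = (⊤ : ℝ≥0∞)
  · exact ⟨1, one_pos, by rw [htop]; exact le_top⟩
  · have h0 : 0 < ε.toReal := ENNReal.toReal_pos hε.ne' htop
    refine ⟨ε.toReal ^ p, by positivity, ?_⟩
    rw [ENNReal.ofReal_rpow_of_nonneg (by positivity) (by positivity), ← Real.rpow_mul h0.le,
      mul_one_div_cancel hp0.ne', Real.rpow_one, ENNReal.ofReal_toReal htop]

/-- the pth-root bound -/
lemma rpow_le_of_le {ε : ℝ≥0∞} {δ : ℝ} (hp : 1 ≤ p) (h : (ENNReal.ofReal δ) ^ (1 / p) ≤ ε)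
    {x : ℝ≥0∞} (hx : x ≤ ENNReal.ofReal δ) : x ^ (1 / p) ≤ ε :=
  (ENNReal.rpow_le_rpow hx (by positivity)).trans h

lemma eighth_le (η : ℝ≥0∞) : 2 * (η / 8 + η / 8) ≤ η / 2 := by
  have h : (η / 2) = 4 * (η / 8) := by
    rw [ENNReal.div_eq_inv_mul, ENNReal.div_eq_inv_mul, ← mul_assoc]
    congr 1
    have : (8 : ℝ≥0∞)⁻¹ = 4⁻¹ * 2⁻¹ := by
      rw [← ENNReal.mul_inv (by norm_num) (by norm_num)]
      congr 1; norm_num
    rw [this, ← mul_assoc, ENNReal.mul_inv_cancel (by norm_num) (by norm_num), one_mul]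
  rw [h]
  refine le_of_eq ?_
  ring

/-- Removing one puncture. -/
lemma remove_puncture {k : ℕ} {p : ℝ} (hp : 1 ≤ p) (hpk : p < k)
    {U K : Set (E (k + 1))} (hU : IsOpen U) (hK : IsClosed K) {a e : E (k + 1)} (ha : a ∈ U)
    (he : ‖e‖ = 1)
    (hray : ∀ s : ℝ, 0 ≤ s → (∀ s' ∈ Icc 0 s, a + s' • e ∈ U) → a + s • e ∉ K)
    {g : E (k + 1) → E (k + 1)} (hg : GoodOn g (U \ {a})) (hE : En p g U ≠ (⊤ : ℝ≥0∞))
    {η : ℝ≥0∞} (hη : 0 < η) :
    ∃ g' : E (k + 1) → E (k + 1), GoodOn g' U ∧ (∀ x ∈ K, g' x = g x) ∧ Dist p g g' U ≤ η := by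
  have hp0 : 0 < p := by linarith
  have hUa : IsOpen (U \ {a}) := hU.sdiff isClosed_singleton
  have hnull : volume (U \ (U \ {a})) = 0 := by
    refine measure_mono_null (t := {a}) ?_ (measure_singleton a)
    rintro x ⟨hx1, hx2⟩
    by_contra hxa
    exact hx2 ⟨hx1, hxa⟩
  have hη8 : 0 < η / 8 := ENNReal.div_pos hη.ne' (by norm_num)
  obtain ⟨δ, hδ, hδη⟩ := exists_small_en hη8 hp
  -- constants
  set Kcc : ℝ := Kc (k + 1) p (1 / 2) with hKcc
  have hKc0 : 0 < Kcc := by rw [hKcc]; unfold Kc; positivity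
  -- smallness of the ball
  have haK : a ∉ K := by
    have := hray 0 le_rfl (fun s' hs' => by
      have : s' = 0 := le_antisymm hs'.2 hs'.1
      rw [this, zero_smul, add_zero]; exact ha)
    rwa [zero_smul, add_zero] at this
  obtain ⟨δ₁, hδ₁, hδ₁E⟩ := En_small (p := p) (g := g) hE
    (ε := ENNReal.ofReal (min δ (δ / Kcc))) (by
      rw [Ne, ENNReal.ofReal_eq_zero, not_le]
      exact lt_min hδ (by positivity))
  have hU'o : IsOpen (U ∩ Kᶜ) := hU.inter hK.isOpen_compl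
  obtain ⟨R₁, hR₁, hR₁b⟩ := Metric.isOpen_iff.1 hU'o a ⟨ha, haK⟩
  have htend : Tendsto (fun R : ℝ => volume (ball a R)) (𝓝[>] 0) (𝓝 0) := by
    have h1 : ∀ R : ℝ, 0 ≤ R → volume (ball a R)
        = ENNReal.ofReal (R ^ (Module.finrank ℝ (E (k + 1)))) * volume (ball (0 : E (k + 1)) 1) :=
      fun R hR => Measure.addHaar_ball volume a hR
    have h2 : Tendsto (fun R : ℝ => ENNReal.ofReal (R ^ (Module.finrank ℝ (E (k + 1)))) *
        volume (ball (0 : E (k + 1)) 1)) (𝓝[>] 0) (𝓝 0) := by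
      have h3 : Tendsto (fun R : ℝ => ENNReal.ofReal (R ^ (Module.finrank ℝ (E (k + 1)))))
          (𝓝[>] 0) (𝓝 0) := by
        have : Tendsto (fun R : ℝ => R ^ (Module.finrank ℝ (E (k + 1)))) (𝓝 0) (𝓝 0) := by
          have hc : Continuous fun R : ℝ => R ^ (Module.finrank ℝ (E (k + 1))) :=
            continuous_pow _
          have := hc.tendsto 0
          simpa using this
        have h4 := (ENNReal.continuous_ofReal.tendsto 0).comp
          (this.mono_left (nhdsWithin_le_nhds (s := Ioi 0)))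
        simpa [Function.comp_def] using h4
      have h5 := ENNReal.Tendsto.mul_const h3
        (Or.inr (measure_ball_lt_top (μ := volume) (x := (0 : E (k + 1))) (r := 1)).ne)
      simpa using h5
    refine h2.congr' ?_
    filter_upwards [self_mem_nhdsWithin] with R hR
    exact (h1 R (le_of_lt hR)).symm
  obtain ⟨R, hR0, hRR₁, hRv⟩ : ∃ R : ℝ, 0 < R ∧ R < R₁ ∧ volume (ball a R) < δ₁ := by
    have h1 : ∀ᶠ R : ℝ in 𝓝[>] 0, volume (ball a R) < δ₁ := htend.eventually_lt_const hδ₁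
    have h2 : ∀ᶠ R : ℝ in 𝓝[>] 0, R < R₁ := by
      filter_upwards [Ioo_mem_nhdsGT hR₁] with R hR using hR.2
    have h3 : ∀ᶠ R : ℝ in 𝓝[>] 0, 0 < R := self_mem_nhdsWithin
    obtain ⟨R, hR⟩ := (h1.and (h2.and h3)).exists
    exact ⟨R, hR.2.2, hR.2.1, hR.1⟩
  have hballU : ball a R ⊆ U ∩ Kᶜ := (ball_subset_ball hRR₁.le).trans hR₁b
  have hcballU : closedBall a R ⊆ U ∩ Kᶜ := (closedBall_subset_ball hRR₁).trans hR₁b
  have hEball : En p g (ball a R) < ENNReal.ofReal (min δ (δ / Kcc)) :=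
    hδ₁E _ (hballU.trans inter_subset_left) measurableSet_ball hRv
  obtain ⟨g₁, hg₁, hg₁off, hg₁E, C₀, hC₀⟩ := collapse (n := k + 1) (p := p) (by omega) hp
    (by push_cast; linarith) hUa hg hR0 (δ := 1 / 2) (by norm_num) (by norm_num) (b := a) (by
      rintro x ⟨hx1, hx2⟩
      refine ⟨(hcballU hx1).1, fun hxa => hx2 ?_⟩
      rw [mem_singleton_iff] at hxa
      rw [hxa]; exact mem_ball_self (by linarith))
  have hset : (U \ {a} ∪ ball a R) \ {a} = U \ {a} := by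
    ext x
    constructor
    · rintro ⟨hx | hx, hxa⟩
      · exact hx
      · exact ⟨(hballU hx).1, hxa⟩
    · intro hx; exact ⟨Or.inl hx, hx.2⟩
  rw [hset] at hg₁
  have hE1ball : En p g₁ (ball a R) ≤ ENNReal.ofReal δ := by
    calc En p g₁ (ball a R) ≤ ENNReal.ofReal Kcc *
          En p g (ball a R \ closedBall a ((1 - 1 / 2) * R)) := hg₁E
      _ ≤ ENNReal.ofReal Kcc * ENNReal.ofReal (δ / Kcc) := by
          gcongr
          refine (En_mono sdiff_subset).trans (hEball.le.trans ?_)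
          exact ENNReal.ofReal_le_ofReal (min_le_right _ _)
      _ = ENNReal.ofReal δ := by
          rw [← ENNReal.ofReal_mul hKc0.le]; congr 1; field_simp
  have hsph : ∀ᵐ x ∂(volume.restrict U), x ∉ sphere a R := by
    refine ae_restrict_of_ae ?_
    exact measure_eq_zero_iff_ae_notMem.1 (Measure.addHaar_sphere volume a R)
  have hD1 : Dist p g g₁ U ≤ η / 2 := by
    have hm1 := hg.aesm' hUa hnull
    have hm2 := hg₁.aesm' hUa hnull
    have h1 := Dist_le_of_eq_off hp (g := g) (g' := g₁) (W := U) (N := ball a R)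
      measurableSet_ball (by
        filter_upwards [hsph] with x hx hxb
        refine ⟨hg₁off x hxb, ?_⟩
        refine fderiv_eq_of_eq_off (A := (closedBall a R)ᶜ) isClosed_closedBall.isOpen_compl
          (fun y hy => hg₁off y (fun h => hy (ball_subset_closedBall h))) x ?_
        intro hxc
        rcases (mem_closedBall.1 hxc).lt_or_eq with h | h
        · exact hxb h
        · exact hx h) hm1 hm2
    refine h1.trans ?_
    have h2 : (En p g₁ (U ∩ ball a R)) ^ (1 / p) ≤ η / 8 :=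
      rpow_le_of_le hp hδη ((En_mono inter_subset_right).trans hE1ball)
    have h3 : (En p g (U ∩ ball a R)) ^ (1 / p) ≤ η / 8 :=
      rpow_le_of_le hp hδη ((En_mono inter_subset_right).trans (hEball.le.trans
        (ENNReal.ofReal_le_ofReal (min_le_left _ _))))
    calc _ ≤ 2 * (η / 8 + η / 8) := by gcongr
      _ ≤ η / 2 := eighth_le η
  have hm1 := hg.aesm' hUa hnull
  have hm2 := hg₁.aesm' hUa hnull
  by_cases htop : η = (⊤ : ℝ≥0∞)
  · -- still need existence: use the excision with any parameter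
    obtain ⟨g₂, N, hN, hNU, hNv, hNE, hg₂, hoff, hoff'⟩ := excise hp hpk hU hK ha he hray hg₁
      (r₀ := R) (C₀ := C₀) hR0 (fun x hx hxa => hC₀ x hx hxa) (η := 1) one_pos
    refine ⟨g₂, hg₂, fun x hx => ?_, by rw [htop]; exact le_top⟩
    rw [hoff x (fun h => (hNU h).2 hx), hg₁off x (fun h => (hballU h).2 hx)]
  have hE1U : En p g₁ U ≠ (⊤ : ℝ≥0∞) := by
    refine En_ne_top_of_Dist hp hm1 hm2 hE (ne_top_of_le_ne_top ?_ hD1)
    exact ENNReal.div_ne_top htop (by norm_num)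
  obtain ⟨δ₂, hδ₂, hδ₂E⟩ := En_small (p := p) (g := g₁) hE1U
    (ε := ENNReal.ofReal δ) (by rw [Ne, ENNReal.ofReal_eq_zero, not_le]; exact hδ)
  obtain ⟨η', hη'0, hη'1, hη'2⟩ : ∃ η' : ℝ, 0 < η' ∧ η' ≤ δ ∧ ENNReal.ofReal η' < δ₂ := by
    by_cases h : δ₂ = (⊤ : ℝ≥0∞)
    · exact ⟨δ, hδ, le_rfl, by rw [h]; exact ENNReal.ofReal_lt_top⟩
    · have h0 := ENNReal.toReal_pos hδ₂.ne' h
      refine ⟨min δ (δ₂.toReal / 2), lt_min hδ (by positivity), min_le_left _ _, ?_⟩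
      rw [ENNReal.ofReal_lt_iff_lt_toReal (le_min hδ.le (by positivity)) h]
      exact lt_of_le_of_lt (min_le_right _ _) (by linarith)
  obtain ⟨g₂, N, hN, hNU, hNv, hNE, hg₂, hoff, hoff'⟩ := excise hp hpk hU hK ha he hray hg₁
      (r₀ := R) (C₀ := C₀) hR0 (fun x hx hxa => hC₀ x hx hxa) hη'0
  have hm3 : AEStronglyMeasurable g₂ (volume.restrict U) := hg₂.aesm hU
  have hD2 : Dist p g₁ g₂ U ≤ η / 2 := by
    have h1 := Dist_le_of_eq_off hp (g := g₁) (g' := g₂) (W := U) (N := N) hN (by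
        filter_upwards [ae_restrict_mem hU.measurableSet] with x hx hxb
        exact ⟨hoff x hxb, hoff' x hx hxb⟩) hm2 hm3
    refine h1.trans ?_
    have h2 : (En p g₂ (U ∩ N)) ^ (1 / p) ≤ η / 8 :=
      rpow_le_of_le hp hδη ((En_mono inter_subset_right).trans
        (hNE.trans (ENNReal.ofReal_le_ofReal hη'1)))
    have h3 : (En p g₁ (U ∩ N)) ^ (1 / p) ≤ η / 8 :=
      rpow_le_of_le hp hδη ((En_mono inter_subset_right).trans
        (hδ₂E N (hNU.trans inter_subset_left) hN (hNv.trans_lt hη'2)).le)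
    calc _ ≤ 2 * (η / 8 + η / 8) := by gcongr
      _ ≤ η / 2 := eighth_le η
  refine ⟨g₂, hg₂, fun x hx => ?_, ?_⟩
  · rw [hoff x (fun h => (hNU h).2 hx), hg₁off x (fun h => (hballU h).2 hx)]
  · calc Dist p g g₂ U ≤ Dist p g g₁ U + Dist p g₁ g₂ U := Dist_triangle hp hm1 hm2 hm3
      _ ≤ η / 2 + η / 2 := add_le_add hD1 hD2
      _ = η := ENNReal.add_halves η

end Pool.Agent.H945
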