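import Pool.Agent.H945_Excise.Puncture

open MeasureTheory Set Filter Topology Metric
open scoped ContDiff ENNReal NNReal InnerProductSpace

namespace Pool.Agent.H945

/-- Removing finitely many punctures. -/
lemma remove_punctures {k : ℕ} {p : ℝ} (hp : 1 ≤ p) (hpk : p < k)
    {K : Set (E (k + 1))} (hK : IsClosed K) (F : Finset (E (k + 1))) :
    ∀ {U : Set (E (k + 1))}, IsOpen U → (∀ a ∈ F, a ∈ U) →
    (∀ a ∈ F, ∃ e : E (k + 1), ‖e‖ = 1 ∧
      ∀ s : ℝ, 0 ≤ s → (∀ s' ∈ Icc 0 s, a + s' • e ∈ U) → a + s • e ∉ K) →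
    ∀ {g : E (k + 1) → E (k + 1)}, GoodOn g (U \ (F : Set (E (k + 1)))) →
    En p g U ≠ (⊤ : ℝ≥0∞) → ∀ {η : ℝ≥0∞}, 0 < η →
    ∃ g' : E (k + 1) → E (k + 1), GoodOn g' U ∧ (∀ x ∈ K, g' x = g x) ∧ Dist p g g' U ≤ η := by
  classical
  induction F using Finset.induction_on with
  | empty =>
    intro U hU _ _ g hg hE η hη
    refine ⟨g, by simpa using hg, fun x _ => rfl, ?_⟩
    have : Dist p g g U = 0 := by
      unfold Dist
      simp only [sub_self]
      have h0 : ∀ {F : Type} [NormedAddCommGroup F],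
          eLpNorm (fun _ : E (k + 1) => (0 : F)) (ENNReal.ofReal p) (volume.restrict U) = 0 :=
        fun {F} _ => eLpNorm_zero'
      rw [h0, h0, add_zero]
    rw [this]; exact hη.le
  | insert a F haF ih =>
    intro U hU hFU hray g hg hE η hη
    set U' : Set (E (k + 1)) := U \ (F : Set (E (k + 1))) with hU'
    have hU'o : IsOpen U' := hU.sdiff F.finite_toSet.isClosed
    have haU' : a ∈ U' := ⟨hFU a (Finset.mem_insert_self _ _), by simpa using haF⟩
    obtain ⟨e, he, hr⟩ := hray a (Finset.mem_insert_self _ _)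
    have hset : U \ ((insert a F : Finset _) : Set (E (k + 1))) = U' \ {a} := by
      ext x; simp only [Finset.coe_insert, Set.mem_sdiff, mem_insert_iff, Finset.mem_coe, hU',
        mem_singleton_iff, not_or]
      tauto
    rw [hset] at hg
    have hnull : volume (U \ U') = 0 := by
      refine measure_mono_null (t := (F : Set (E (k + 1)))) ?_ (F.finite_toSet.measure_zero _)
      rintro x ⟨hx1, hx2⟩
      by_contra hxa
      exact hx2 ⟨hx1, hxa⟩
    have hnull2 : volume (U \ (U' \ {a})) = 0 := by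
      refine measure_mono_null (t := insert a (F : Set (E (k + 1)))) ?_
        ((F.finite_toSet.insert a).measure_zero _)
      rintro x ⟨hx1, hx2⟩
      by_contra hxa
      rw [mem_insert_iff, not_or] at hxa
      exact hx2 ⟨⟨hx1, hxa.2⟩, hxa.1⟩
    have hη2 : 0 < min η 1 / 2 := ENNReal.div_pos (lt_min hη one_pos).ne' (by norm_num)
    have hη2t : min η 1 / 2 ≠ (⊤ : ℝ≥0∞) :=
      ENNReal.div_ne_top (ne_top_of_le_ne_top ENNReal.one_ne_top (min_le_right _ _)) (by norm_num)
    obtain ⟨g₁, hg₁, hg₁K, hD₁⟩ := remove_puncture hp hpk hU'o hK haU' he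
      (fun s hs hs' => hr s hs (fun s' h' => (hs' s' h').1)) hg
      (ne_top_of_le_ne_top hE (En_mono sdiff_subset)) hη2
    have hres : (volume : Measure (E (k + 1))).restrict U = volume.restrict U' := by
      refine Measure.restrict_congr_set ?_
      rw [ae_eq_set]
      refine ⟨hnull, ?_⟩
      have : U' \ U = ∅ := by
        rw [sdiff_eq_empty]; exact sdiff_subset
      rw [this]; exact measure_empty
    have hD₁' : Dist p g g₁ U ≤ min η 1 / 2 := by
      unfold Dist at hD₁ ⊢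
      rw [hres]; exact hD₁
    have hm1 := hg.aesm' (hU'o.sdiff isClosed_singleton) hnull2
    have hm2 := hg₁.aesm' hU'o hnull
    have hE1 : En p g₁ U ≠ (⊤ : ℝ≥0∞) :=
      En_ne_top_of_Dist hp hm1 hm2 hE (ne_top_of_le_ne_top hη2t hD₁')
    obtain ⟨g₂, hg₂, hg₂K, hD₂⟩ := ih hU (fun b hb => hFU b (Finset.mem_insert_of_mem hb))
      (fun b hb => hray b (Finset.mem_insert_of_mem hb)) hg₁ hE1 hη2
    refine ⟨g₂, hg₂, fun x hx => by rw [hg₂K x hx, hg₁K x hx], ?_⟩
    calc Dist p g g₂ U ≤ Dist p g g₁ U + Dist p g₁ g₂ U :=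
          Dist_triangle hp hm1 hm2 (hg₂.aesm hU)
      _ ≤ min η 1 / 2 + min η 1 / 2 := add_le_add hD₁' hD₂
      _ = min η 1 := ENNReal.add_halves _
      _ ≤ η := min_le_left _ _

end Pool.Agent.H945
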