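import Pool.Agent.H945_Excise.Ramp

open MeasureTheory Set Filter Topology Metric
open scoped ContDiff ENNReal NNReal

namespace Pool.Agent.H945

/-- decreasing steps -/
noncomputable def ph (t : ℕ → ℝ) (j : ℕ) (s : ℝ) : ℝ := 1 - st ((s - t j) / (t (j + 1) - t j))

/-- the tube radius -/
noncomputable def rr (t ε : ℕ → ℝ) (s : ℝ) : ℝ := ∑' j, ε j * ph t j s

section
variable {t ε : ℕ → ℝ}

lemma ph_nonneg (t : ℕ → ℝ) (j : ℕ) (s : ℝ) : 0 ≤ ph t j s := by
  unfold ph; linarith [Real.smoothTransition.le_one ((s - t j) / (t (j + 1) - t j))]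

lemma ph_le_one (t : ℕ → ℝ) (j : ℕ) (s : ℝ) : ph t j s ≤ 1 := by
  unfold ph; linarith [Real.smoothTransition.nonneg ((s - t j) / (t (j + 1) - t j))]

lemma ph_antitone (ht : StrictMono t) (j : ℕ) : Antitone (ph t j) := by
  intro a b hab
  have h : 0 < t (j + 1) - t j := sub_pos.2 (ht (Nat.lt_succ_self j))
  unfold ph
  have : st ((a - t j) / (t (j + 1) - t j)) ≤ st ((b - t j) / (t (j + 1) - t j)) :=
    Real.smoothTransition.monotone (by gcongr)
  linarith

lemma ph_eq_one (ht : StrictMono t) {j : ℕ} {s : ℝ} (hs : s ≤ t j) : ph t j s = 1 := by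
  have h : 0 < t (j + 1) - t j := sub_pos.2 (ht (Nat.lt_succ_self j))
  have e : st ((s - t j) / (t (j + 1) - t j)) = 0 :=
    Real.smoothTransition.zero_of_nonpos (div_nonpos_of_nonpos_of_nonneg (by linarith) h.le)
  unfold ph
  rw [e]
  ring

lemma ph_eq_zero (ht : StrictMono t) {j : ℕ} {s : ℝ} (hs : t (j + 1) ≤ s) : ph t j s = 0 := by
  have h : 0 < t (j + 1) - t j := sub_pos.2 (ht (Nat.lt_succ_self j))
  have e : st ((s - t j) / (t (j + 1) - t j)) = 1 :=
    Real.smoothTransition.one_of_one_le ((one_le_div h).2 (by linarith))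
  unfold ph
  rw [e]
  ring

lemma ph_contDiff (t : ℕ → ℝ) (j : ℕ) : ContDiff ℝ ∞ (ph t j) := by
  unfold ph
  have : ContDiff ℝ ∞ (fun s : ℝ => st ((s - t j) / (t (j + 1) - t j))) :=
    Real.smoothTransition.contDiff.comp (by fun_prop)
  fun_prop

lemma ph_hasDerivAt (t : ℕ → ℝ) (j : ℕ) (s : ℝ) :
    HasDerivAt (ph t j) (-(deriv st ((s - t j) / (t (j + 1) - t j)) / (t (j + 1) - t j))) s := by
  have h1 : HasDerivAt (fun s : ℝ => (s - t j) / (t (j + 1) - t j)) (1 / (t (j + 1) - t j)) s :=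
    ((hasDerivAt_id s).sub_const (t j)).div_const _
  have h2 := ((st_hasDerivAt ((s - t j) / (t (j + 1) - t j))).comp s h1).const_sub 1
  refine h2.congr_deriv ?_
  ring

lemma eps_le (hε2 : ∀ k, ε (k + 1) ≤ ε k / 2) (k j : ℕ) :
    ε (j + k) ≤ ε k * (1 / 2) ^ j := by
  induction j with
  | zero => simp
  | succ j ih =>
    have := hε2 (j + k)
    have e : j + 1 + k = j + k + 1 := by ring
    rw [e, pow_succ]
    linarith

lemma eps_summable (hε : ∀ k, 0 < ε k) (hε2 : ∀ k, ε (k + 1) ≤ ε k / 2) : Summable ε := by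
  refine Summable.of_nonneg_of_le (fun k => (hε k).le) (fun k => ?_)
    ((summable_geometric_two).mul_left (ε 0))
  simpa using eps_le hε2 0 k

lemma eps_tail (hε : ∀ k, 0 < ε k) (hε2 : ∀ k, ε (k + 1) ≤ ε k / 2) (k : ℕ) :
    ∑' j, ε (j + k) ≤ 2 * ε k := by
  have h1 : Summable fun j => ε (j + k) := (summable_nat_add_iff k).2 (eps_summable hε hε2)
  have h2 : Summable fun j : ℕ => ε k * (1 / 2 : ℝ) ^ j := (summable_geometric_two).mul_left _
  calc ∑' j, ε (j + k) ≤ ∑' j : ℕ, ε k * (1 / 2 : ℝ) ^ j :=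
        h1.tsum_le_tsum (eps_le hε2 k) h2
    _ = 2 * ε k := by rw [tsum_mul_left, tsum_geometric_two]; ring

lemma rr_summable (hε : ∀ k, 0 < ε k) (hε2 : ∀ k, ε (k + 1) ≤ ε k / 2) (s : ℝ) :
    Summable fun j => ε j * ph t j s :=
  Summable.of_nonneg_of_le (fun k => mul_nonneg (hε k).le (ph_nonneg t k s))
    (fun k => by nlinarith [hε k, ph_le_one t k s]) (eps_summable hε hε2)

lemma rr_eq (ht : StrictMono t) (hε : ∀ k, 0 < ε k) (hε2 : ∀ k, ε (k + 1) ≤ ε k / 2)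
    {k : ℕ} {s : ℝ} (hs : s ≤ t (k + 1)) :
    rr t ε s = ∑ j ∈ Finset.range (k + 1), ε j * ph t j s + ∑' j, ε (j + (k + 1)) := by
  unfold rr
  rw [← (rr_summable (t := t) hε hε2 s).sum_add_tsum_nat_add (k + 1)]
  congr 1
  refine tsum_congr fun j => ?_
  rw [ph_eq_one ht, mul_one]
  exact hs.trans (ht.monotone (by omega))

lemma rr_pos (ht : StrictMono t) (hε : ∀ k, 0 < ε k) (hε2 : ∀ k, ε (k + 1) ≤ ε k / 2)
    {k : ℕ} {s : ℝ} (hs : s < t k) : 0 < rr t ε s := by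
  have h1 : s ≤ t (k + 1) := (hs.trans (ht (Nat.lt_succ_self k))).le
  rw [rr_eq ht hε hε2 h1]
  have h2 : 0 < ∑' j, ε (j + (k + 1)) :=
    ((summable_nat_add_iff (k + 1)).2 (eps_summable hε hε2)).tsum_pos
      (fun j => (hε _).le) 0 (hε _)
  have h3 : 0 ≤ ∑ j ∈ Finset.range (k + 1), ε j * ph t j s :=
    Finset.sum_nonneg fun j _ => mul_nonneg (hε j).le (ph_nonneg t j s)
  linarith

lemma rr_antitone (ht : StrictMono t) (hε : ∀ k, 0 < ε k) (hε2 : ∀ k, ε (k + 1) ≤ ε k / 2) :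
    Antitone (rr t ε) := by
  intro a b hab
  exact (rr_summable hε hε2 b).tsum_le_tsum
    (fun j => mul_le_mul_of_nonneg_left (ph_antitone ht j hab) (hε j).le)
    (rr_summable hε hε2 a)

lemma rr_nonneg (hε : ∀ k, 0 < ε k) (s : ℝ) : 0 ≤ rr t ε s :=
  tsum_nonneg fun j => mul_nonneg (hε j).le (ph_nonneg t j s)

lemma rr_le (ht : StrictMono t) (hε : ∀ k, 0 < ε k) (hε2 : ∀ k, ε (k + 1) ≤ ε k / 2)
    {k : ℕ} {s : ℝ} (hs : t k ≤ s) : rr t ε s ≤ 2 * ε k := by
  unfold rr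
  rw [← (rr_summable (t := t) hε hε2 s).sum_add_tsum_nat_add k]
  have h0 : ∑ j ∈ Finset.range k, ε j * ph t j s = 0 := by
    refine Finset.sum_eq_zero fun j hj => ?_
    rw [ph_eq_zero ht, mul_zero]
    exact (ht.monotone (by have := Finset.mem_range.1 hj; omega)).trans hs
  rw [h0, zero_add]
  refine le_trans ?_ (eps_tail hε hε2 k)
  have h1 : Summable fun j => ε (j + k) := (summable_nat_add_iff k).2 (eps_summable hε hε2)
  have h2 : Summable fun j => ε (j + k) * ph t (j + k) s :=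
    (summable_nat_add_iff k).2 (rr_summable hε hε2 s)
  exact h2.tsum_le_tsum (fun j => by nlinarith [hε (j + k), ph_le_one t (j + k) s]) h1

lemma rr_le_zero (hε : ∀ k, 0 < ε k) (hε2 : ∀ k, ε (k + 1) ≤ ε k / 2)
    (s : ℝ) : rr t ε s ≤ 2 * ε 0 := by
  unfold rr
  refine le_trans ?_ (eps_tail hε hε2 0)
  exact (rr_summable hε hε2 s).tsum_le_tsum
    (fun j => by
      rw [add_zero]
      nlinarith [hε j, ph_le_one t j s]) (by simpa using eps_summable hε hε2)

lemma rr_const (ht : StrictMono t) (ht0 : t 0 = 0) {s : ℝ} (hs : s ≤ 0) :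
    rr t ε s = rr t ε 0 := by
  unfold rr
  refine tsum_congr fun j => ?_
  have h0 : 0 ≤ t j := by rw [← ht0]; exact ht.monotone (Nat.zero_le j)
  rw [ph_eq_one ht (hs.trans h0), ph_eq_one ht h0]

lemma rr_contDiffAt (ht : StrictMono t) (hε : ∀ k, 0 < ε k) (hε2 : ∀ k, ε (k + 1) ≤ ε k / 2)
    {k : ℕ} {s : ℝ} (hs : s < t k) : ContDiffAt ℝ ∞ (rr t ε) s := by
  have h1 : s < t (k + 1) := (hs.trans (ht (Nat.lt_succ_self k)))
  have h2 : rr t ε =ᶠ[𝓝 s]
      fun s => ∑ j ∈ Finset.range (k + 1), ε j * ph t j s + ∑' j, ε (j + (k + 1)) := by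
    filter_upwards [Iio_mem_nhds h1] with y hy
    exact rr_eq ht hε hε2 (le_of_lt hy)
  refine ContDiffAt.congr_of_eventuallyEq ?_ h2
  refine ContDiffAt.add ?_ contDiffAt_const
  refine ContDiffAt.sum fun j _ => ?_
  exact contDiffAt_const.mul (ph_contDiff t j).contDiffAt

lemma rr_deriv_nonpos (ht : StrictMono t) (hε : ∀ k, 0 < ε k)
    (hε2 : ∀ k, ε (k + 1) ≤ ε k / 2) (s : ℝ) : deriv (rr t ε) s ≤ 0 :=
  (rr_antitone ht hε hε2).deriv_nonpos

lemma rr_deriv_of_neg (ht : StrictMono t) (ht0 : t 0 = 0) {s : ℝ} (hs : s < 0) :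
    deriv (rr t ε) s = 0 := by
  have : rr t ε =ᶠ[𝓝 s] fun _ => rr t ε 0 := by
    filter_upwards [Iio_mem_nhds hs] with y hy
    exact rr_const ht ht0 (le_of_lt hy)
  rw [this.deriv_eq]; simp

lemma exists_index (ht0 : t 0 = 0) {s : ℝ} {m : ℕ} (hs : s < t m) (h0 : 0 ≤ s) :
    ∃ k, t k ≤ s ∧ s < t (k + 1) := by
  induction m with
  | zero => rw [ht0] at hs; linarith
  | succ m ih =>
    by_cases h : s < t m
    · exact ih h
    · exact ⟨m, not_lt.1 h, hs⟩

lemma rr_deriv_ge (ht : StrictMono t) (ht0 : t 0 = 0) (hε : ∀ k, 0 < ε k)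
    (hε2 : ∀ k, ε (k + 1) ≤ ε k / 2) (hε3 : ∀ k, ε k * Cst ≤ t (k + 1) - t k)
    {m : ℕ} {s : ℝ} (hs : s < t m) : -1 ≤ deriv (rr t ε) s := by
  by_cases h0 : s < 0
  · rw [rr_deriv_of_neg ht ht0 h0]; norm_num
  push Not at h0
  obtain ⟨k, hk1, hk2⟩ := exists_index ht0 hs h0
  have h2 : rr t ε =ᶠ[𝓝 s]
      fun s => ∑ j ∈ Finset.range (k + 1), ε j * ph t j s + ∑' j, ε (j + (k + 1)) := by
    filter_upwards [Iio_mem_nhds hk2] with y hy
    exact rr_eq ht hε hε2 (le_of_lt hy)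
  rw [h2.deriv_eq]
  have hd : HasDerivAt (fun s => ∑ j ∈ Finset.range (k + 1), ε j * ph t j s
      + ∑' j, ε (j + (k + 1)))
      (∑ j ∈ Finset.range (k + 1), ε j *
        (-(deriv st ((s - t j) / (t (j + 1) - t j)) / (t (j + 1) - t j)))) s := by
    have := (HasDerivAt.fun_sum (u := Finset.range (k + 1)) (x := s)
      (A := fun j s => ε j * ph t j s)
      (fun j _ => (ph_hasDerivAt t j s).const_mul (ε j))).add_const (∑' j, ε (j + (k + 1)))
    exact this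
  rw [hd.deriv, Finset.sum_range_succ]
  have hz : ∑ j ∈ Finset.range k, ε j *
        (-(deriv st ((s - t j) / (t (j + 1) - t j)) / (t (j + 1) - t j))) = 0 := by
    refine Finset.sum_eq_zero fun j hj => ?_
    have h : 0 < t (j + 1) - t j := sub_pos.2 (ht (Nat.lt_succ_self j))
    have h3 : t (j + 1) ≤ s :=
      (ht.monotone (by have := Finset.mem_range.1 hj; omega)).trans hk1
    rw [st_deriv_of_one_le ((one_le_div h).2 (by linarith))]
    simp
  rw [hz, zero_add]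
  have h : 0 < t (k + 1) - t k := sub_pos.2 (ht (Nat.lt_succ_self k))
  have h4 := (abs_le.1 (st_deriv_le ((s - t k) / (t (k + 1) - t k)))).2
  have h5 := st_deriv_nonneg ((s - t k) / (t (k + 1) - t k))
  have h6 : ε k * (deriv st ((s - t k) / (t (k + 1) - t k)) / (t (k + 1) - t k)) ≤ 1 := by
    rw [← mul_div_assoc, div_le_one h]
    exact (mul_le_mul_of_nonneg_left h4 (hε k).le).trans (hε3 k)
  linarith

end

end Pool.Agent.H945
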