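import Pool.Agent.H945_Excise.Basic
import Pool.Agent.H945_Excise.Tube

open MeasureTheory Set Filter Topology Metric
open scoped ContDiff ENNReal NNReal InnerProductSpace

namespace Pool.Agent.H945

variable {n : ℕ}

/-- the data of a tube -/
structure TD (t ε : ℕ → ℝ) : Prop where
  ht : StrictMono t
  ht0 : t 0 = 0
  hε : ∀ k, 0 < ε k
  hε2 : ∀ k, ε (k + 1) ≤ ε k / 2
  hε3 : ∀ k, ε k * Cst ≤ t (k + 1) - t k
  hε4 : 2 * ε 0 ≤ 1

/-- the domain of heights -/
def DD (t : ℕ → ℝ) : Set ℝ := {s | ∃ k, s < t k}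

/-- the lower profile -/
noncomputable def vv (t ε : ℕ → ℝ) (s : ℝ) : ℝ := -(rr t ε s * lam (s / rr t ε 0))

/-- height -/
noncomputable def tt (a e x : E n) : ℝ := ⟪e, x - a⟫_ℝ

/-- horizontal part -/
noncomputable def xp (a e x : E n) : E n := (x - a) - tt a e x • e

/-- horizontal norm squared -/
noncomputable def ss (a e x : E n) : ℝ := ‖xp a e x‖ ^ 2

/-- horizontal cutoff at level `s`. -/
noncomputable def yy (t ε : ℕ → ℝ) (σ s : ℝ) : ℝ := st ((4 * (σ / rr t ε s ^ 2) - 1) / 3)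

/-- new height -/
noncomputable def uu (t ε : ℕ → ℝ) (m : ℕ) (σ s : ℝ) : ℝ :=
  open Classical in
  if s ∈ DD t then vv t ε s + yy t ε σ s ^ m * (s - vv t ε s) else s

/-- the push map -/
noncomputable def hh (t ε : ℕ → ℝ) (m : ℕ) (a e x : E n) : E n :=
  x + (uu t ε m (ss a e x) (tt a e x) - tt a e x) • e

lemma lam_strictAnti : StrictAnti lam :=
  strictAnti_of_deriv_neg fun z => by rw [(lam_hasDerivAt z).deriv]; exact lamd_neg z

section
variable {t ε : ℕ → ℝ} {m : ℕ}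

lemma TD.zero_mem (h : TD t ε) : (0:ℝ) ∈ DD t := ⟨1, by
  rw [← h.ht0]; exact h.ht (by norm_num)⟩

lemma DD_down {s s' : ℝ} (hs : s ∈ DD t) (h : s' ≤ s) : s' ∈ DD t := by
  obtain ⟨k, hk⟩ := hs
  exact ⟨k, h.trans_lt hk⟩

lemma DD_open : IsOpen (DD t) := by
  have : DD t = ⋃ k, Iio (t k) := by ext s; simp [DD]
  rw [this]
  exact isOpen_iUnion fun k => isOpen_Iio

lemma TD.pos (h : TD t ε) {s : ℝ} (hs : s ∈ DD t) : 0 < rr t ε s := by
  obtain ⟨k, hk⟩ := hs
  exact rr_pos h.ht h.hε h.hε2 hk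

lemma TD.pos0 (h : TD t ε) : 0 < rr t ε 0 := h.pos h.zero_mem

lemma TD.le_r0 (h : TD t ε) (s : ℝ) : rr t ε s ≤ rr t ε 0 := by
  rcases le_total s 0 with hs | hs
  · rw [rr_const h.ht h.ht0 hs]
  · exact rr_antitone h.ht h.hε h.hε2 hs

lemma TD.r0_le (h : TD t ε) : rr t ε 0 ≤ 1 :=
  (rr_le_zero h.hε h.hε2 0).trans h.hε4

lemma TD.nonneg_of_not_mem (h : TD t ε) {s : ℝ} (hs : s ∉ DD t) : 0 < s := by
  by_contra hc
  push Not at hc
  exact hs (DD_down h.zero_mem hc)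

lemma TD.vv_neg (h : TD t ε) {s : ℝ} (hs : s ∈ DD t) : vv t ε s < 0 := by
  have h1 := h.pos hs
  have h2 := lam_ge (s / rr t ε 0)
  unfold vv
  nlinarith

lemma TD.vv_strictMono (h : TD t ε) {s s' : ℝ} (hs' : s' ∈ DD t) (hlt : s < s') :
    vv t ε s < vv t ε s' := by
  have h1 := h.pos hs'
  have h3 : rr t ε s' ≤ rr t ε s := rr_antitone h.ht h.hε h.hε2 hlt.le
  have h4 : lam (s' / rr t ε 0) < lam (s / rr t ε 0) :=
    lam_strictAnti ((div_lt_div_iff_of_pos_right h.pos0).2 hlt)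
  have h5 := lam_ge (s' / rr t ε 0)
  have h6 : rr t ε s' * lam (s' / rr t ε 0) < rr t ε s * lam (s / rr t ε 0) :=
    mul_lt_mul' h3 h4 (by linarith) (h1.trans_le h3)
  unfold vv
  linarith

lemma TD.vv_of_le (h : TD t ε) {s : ℝ} (hs : s ≤ -rr t ε 0) : vv t ε s = s := by
  have h0 := h.pos0
  have h1 : s / rr t ε 0 ≤ -1 := by rw [div_le_iff₀ h0]; linarith
  unfold vv
  rw [lam_of_le h1, rr_const h.ht h.ht0 (by linarith)]
  field_simp

lemma TD.abs_vv_le (h : TD t ε) {s : ℝ} (hs : -rr t ε 0 < s) : |vv t ε s| ≤ rr t ε s := by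
  have h0 := h.pos0
  have h1 : -1 ≤ s / rr t ε 0 := by rw [le_div_iff₀ h0]; linarith
  have h2 := lam_le_one h1
  have h3 := lam_ge (s / rr t ε 0)
  have h4 := rr_nonneg (t := t) h.hε s
  unfold vv
  rw [abs_neg, abs_of_nonneg (by positivity)]
  nlinarith

lemma TD.abs_vv_ge (h : TD t ε) (s : ℝ) : rr t ε s / 8 ≤ |vv t ε s| := by
  have h3 := lam_ge (s / rr t ε 0)
  have h4 := rr_nonneg (t := t) h.hε s
  unfold vv
  rw [abs_neg, abs_of_nonneg (by positivity)]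
  nlinarith

lemma yy_nonneg (σ s : ℝ) : 0 ≤ yy t ε σ s := Real.smoothTransition.nonneg _
lemma yy_le_one (σ s : ℝ) : yy t ε σ s ≤ 1 := Real.smoothTransition.le_one _

lemma TD.yy_mono (h : TD t ε) {σ s s' : ℝ} (hσ : 0 ≤ σ) (hs' : s' ∈ DD t) (hle : s ≤ s') :
    yy t ε σ s ≤ yy t ε σ s' := by
  have h1 := h.pos hs'
  have h3 : rr t ε s' ≤ rr t ε s := rr_antitone h.ht h.hε h.hε2 hle
  refine Real.smoothTransition.monotone ?_
  have : σ / rr t ε s ^ 2 ≤ σ / rr t ε s' ^ 2 := by gcongr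
  linarith

lemma yy_eq_one {σ s : ℝ} (hr : 0 < rr t ε s) (hσ : rr t ε s ^ 2 ≤ σ) : yy t ε σ s = 1 := by
  refine Real.smoothTransition.one_of_one_le ?_
  have : 1 ≤ σ / rr t ε s ^ 2 := (one_le_div (by positivity)).2 hσ
  linarith

lemma yy_eq_zero {σ s : ℝ} (hr : 0 < rr t ε s) (hσ : 4 * σ ≤ rr t ε s ^ 2) :
    yy t ε σ s = 0 := by
  refine Real.smoothTransition.zero_of_nonpos ?_
  have : 4 * (σ / rr t ε s ^ 2) ≤ 1 := by
    rw [← mul_div_assoc]; exact (div_le_one (by positivity)).2 hσ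
  linarith

/-- between -/
lemma uu_lt_of {σ s : ℝ} (hs : s ∈ DD t) {c : ℝ} (h1 : s < c)
    (h2 : vv t ε s < c) : uu t ε m σ s < c := by
  have hy0 : 0 ≤ yy t ε σ s ^ m := pow_nonneg (yy_nonneg σ s) m
  have hy1 : yy t ε σ s ^ m ≤ 1 := pow_le_one₀ (yy_nonneg σ s) (yy_le_one σ s)
  unfold uu
  rw [if_pos hs]
  rcases eq_or_lt_of_le hy1 with he | hl
  · rw [he]; linarith
  · nlinarith

lemma uu_le_of {σ s : ℝ} (hs : s ∈ DD t) {c : ℝ} (h1 : s ≤ c)
    (h2 : vv t ε s ≤ c) : uu t ε m σ s ≤ c := by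
  have hy0 : 0 ≤ yy t ε σ s ^ m := pow_nonneg (yy_nonneg σ s) m
  have hy1 : yy t ε σ s ^ m ≤ 1 := pow_le_one₀ (yy_nonneg σ s) (yy_le_one σ s)
  unfold uu
  rw [if_pos hs]
  nlinarith

lemma le_uu_of {σ s : ℝ} (hs : s ∈ DD t) {c : ℝ} (h1 : c ≤ s)
    (h2 : c ≤ vv t ε s) : c ≤ uu t ε m σ s := by
  have hy0 : 0 ≤ yy t ε σ s ^ m := pow_nonneg (yy_nonneg σ s) m
  have hy1 : yy t ε σ s ^ m ≤ 1 := pow_le_one₀ (yy_nonneg σ s) (yy_le_one σ s)
  unfold uu
  rw [if_pos hs]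
  nlinarith

lemma TD.uu_strictMono (h : TD t ε) {σ : ℝ} (hσ : 0 ≤ σ) : StrictMono (uu t ε m σ) := by
  have key : ∀ s s' : ℝ, s' ∈ DD t → s < s' → (0 ≤ s ∨ s' ≤ 0) →
      uu t ε m σ s < uu t ε m σ s' := by
    intro s s' hs' hlt hcase
    have hs : s ∈ DD t := DD_down hs' hlt.le
    have hv := h.vv_strictMono hs' hlt
    have hvn := h.vv_neg hs
    have hy0 : 0 ≤ yy t ε σ s' ^ m := pow_nonneg (yy_nonneg σ s') m
    have hy1 : yy t ε σ s' ^ m ≤ 1 := pow_le_one₀ (yy_nonneg σ s') (yy_le_one σ s')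
    have hym : yy t ε σ s ^ m ≤ yy t ε σ s' ^ m :=
      pow_le_pow_left₀ (yy_nonneg σ s) (h.yy_mono hσ hs' hlt.le) m
    have hthird : 0 ≤ (yy t ε σ s' ^ m - yy t ε σ s ^ m) * (s - vv t ε s) := by
      rcases hcase with h0 | h0
      · exact mul_nonneg (by linarith) (by linarith)
      · have e : yy t ε σ s' = yy t ε σ s := by
          unfold yy
          rw [rr_const h.ht h.ht0 h0, rr_const h.ht h.ht0 (hlt.le.trans h0)]
        rw [e]; simp
    have hmain : 0 < (1 - yy t ε σ s' ^ m) * (vv t ε s' - vv t ε s)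
        + yy t ε σ s' ^ m * (s' - s) := by
      rcases eq_or_lt_of_le hy1 with he | hl
      · rw [he]; linarith
      · have h1 : 0 < (1 - yy t ε σ s' ^ m) * (vv t ε s' - vv t ε s) :=
          mul_pos (by linarith) (by linarith)
        have h2 : 0 ≤ yy t ε σ s' ^ m * (s' - s) := mul_nonneg hy0 (by linarith)
        linarith
    unfold uu
    rw [if_pos hs, if_pos hs']
    nlinarith
  intro s s' hlt
  by_cases hs' : s' ∈ DD t
  · by_cases h0 : 0 ≤ s
    · exact key s s' hs' hlt (Or.inl h0)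
    by_cases h1 : s' ≤ 0
    · exact key s s' hs' hlt (Or.inr h1)
    push Not at h0 h1
    exact (key s 0 h.zero_mem h0 (Or.inr le_rfl)).trans (key 0 s' hs' h1 (Or.inl le_rfl))
  · have e : uu t ε m σ s' = s' := by unfold uu; rw [if_neg hs']
    rw [e]
    by_cases hs : s ∈ DD t
    · exact uu_lt_of hs hlt ((h.vv_neg hs).trans (h.nonneg_of_not_mem hs'))
    · unfold uu; rw [if_neg hs]; exact hlt

/-! ### geometry of the coordinates -/

lemma inner_xp {a e : E n} (he : ‖e‖ = 1) (x : E n) : ⟪e, xp a e x⟫_ℝ = 0 := by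
  unfold xp
  rw [inner_sub_right, inner_smul_right, real_inner_self_eq_norm_sq, he]
  unfold tt
  ring

lemma tt_add {a e : E n} (he : ‖e‖ = 1) (x : E n) (c : ℝ) : tt a e (x + c • e) = tt a e x + c := by
  unfold tt
  have : x + c • e - a = (x - a) + c • e := by abel
  rw [this, inner_add_right, inner_smul_right, real_inner_self_eq_norm_sq, he]
  ring

lemma xp_add {a e : E n} (he : ‖e‖ = 1) (x : E n) (c : ℝ) : xp a e (x + c • e) = xp a e x := by
  unfold xp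
  rw [tt_add he, add_smul]
  abel

lemma decomp (a e x : E n) : x = a + xp a e x + tt a e x • e := by
  unfold xp; abel

lemma norm_sub_sq {a e : E n} (he : ‖e‖ = 1) (x : E n) :
    ‖x - a‖ ^ 2 = ss a e x + tt a e x ^ 2 := by
  have h1 : x - a = xp a e x + tt a e x • e := by unfold xp; abel
  have h2 : ⟪xp a e x, e⟫_ℝ = 0 := by rw [real_inner_comm]; exact inner_xp he x
  unfold ss
  rw [h1, norm_add_sq_real, norm_smul, he, inner_smul_right, h2]
  have h3 : tt a e x ^ 2 = ‖tt a e x‖ ^ 2 := by rw [Real.norm_eq_abs, sq_abs]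
  rw [h3]; ring

lemma tt_hh {a e : E n} (he : ‖e‖ = 1) (x : E n) :
    tt a e (hh t ε m a e x) = uu t ε m (ss a e x) (tt a e x) := by
  unfold hh; rw [tt_add he]; ring

lemma xp_hh {a e : E n} (he : ‖e‖ = 1) (x : E n) :
    xp a e (hh t ε m a e x) = xp a e x := by
  unfold hh; rw [xp_add he]

lemma TD.hh_injective (h : TD t ε) {a e : E n} (he : ‖e‖ = 1) :
    Function.Injective (hh t ε m a e) := by
  intro x y hxy
  have h1 : xp a e x = xp a e y := by rw [← xp_hh (t := t) (ε := ε) (m := m) he x, hxy, xp_hh he]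
  have h2 : uu t ε m (ss a e x) (tt a e x) = uu t ε m (ss a e y) (tt a e y) := by
    rw [← tt_hh he, hxy, tt_hh he]
  have h3 : ss a e x = ss a e y := by unfold ss; rw [h1]
  rw [h3] at h2
  have h4 : tt a e x = tt a e y :=
    (h.uu_strictMono (m := m) (sq_nonneg ‖xp a e y‖)).injective h2
  rw [decomp a e x, decomp a e y, h1, h4]

lemma TD.hh_ne (h : TD t ε) (hm : 1 ≤ m) {a e : E n} (he : ‖e‖ = 1) (x : E n) :
    hh t ε m a e x ≠ a := by
  intro hx
  have h1 : xp a e x = 0 := by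
    rw [← xp_hh (t := t) (ε := ε) (m := m) he x, hx]; simp [xp, tt]
  have h2 : uu t ε m (ss a e x) (tt a e x) = 0 := by
    rw [← tt_hh he, hx]; simp [tt]
  have h3 : ss a e x = 0 := by unfold ss; rw [h1]; simp
  rw [h3] at h2
  by_cases hs : tt a e x ∈ DD t
  · have h4 := h.vv_neg hs
    have h5 : yy t ε 0 (tt a e x) = 0 := yy_eq_zero (h.pos hs) (by rw [mul_zero]; positivity)
    unfold uu at h2
    rw [if_pos hs, h5, zero_pow (by omega)] at h2
    linarith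
  · have h4 := h.nonneg_of_not_mem hs
    unfold uu at h2
    rw [if_neg hs] at h2
    linarith

/-- the support of the modification -/
def NN (t ε : ℕ → ℝ) (a e : E n) : Set (E n) :=
  {x | -rr t ε 0 < tt a e x ∧ tt a e x ∈ DD t ∧ ss a e x < rr t ε (tt a e x) ^ 2}

lemma TD.hh_of_not_mem (h : TD t ε) {a e x : E n} (hx : x ∉ NN t ε a e) :
    hh t ε m a e x = x := by
  have : uu t ε m (ss a e x) (tt a e x) = tt a e x := by
    unfold uu
    by_cases hs : tt a e x ∈ DD t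
    · rw [if_pos hs]
      by_cases h1 : -rr t ε 0 < tt a e x
      · have h2 : rr t ε (tt a e x) ^ 2 ≤ ss a e x := by
          by_contra hc
          push Not at hc
          exact hx ⟨h1, hs, hc⟩
        rw [yy_eq_one (h.pos hs) h2]
        ring
      · rw [h.vv_of_le (not_lt.1 h1)]; ring
    · rw [if_neg hs]
  unfold hh
  rw [this]; simp

lemma TD.norm_hh_ge (h : TD t ε) (hm : 1 ≤ m) {a e x : E n} (he : ‖e‖ = 1)
    (hs : tt a e x ∈ DD t) :
    rr t ε (tt a e x) / 8 ≤ ‖hh t ε m a e x - a‖ := by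
  have hr := h.pos hs
  have h1 := norm_sub_sq (a := a) he (hh t ε m a e x)
  have hss : ss a e (hh t ε m a e x) = ss a e x := by unfold ss; rw [xp_hh he]
  rw [hss, tt_hh he] at h1
  refine abs_le_of_sq_le_sq' ?_ (norm_nonneg _) |>.2
  rw [h1]
  by_cases h2 : 4 * ss a e x ≤ rr t ε (tt a e x) ^ 2
  · have h3 := yy_eq_zero hr h2
    have h4 : uu t ε m (ss a e x) (tt a e x) = vv t ε (tt a e x) := by
      unfold uu; rw [if_pos hs, h3, zero_pow (by omega)]; ring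
    rw [h4]
    have h5 := h.abs_vv_ge (tt a e x)
    have h6 : (rr t ε (tt a e x) / 8) ^ 2 ≤ vv t ε (tt a e x) ^ 2 := by
      rw [← sq_abs (vv t ε (tt a e x))]; gcongr
    have h7 : 0 ≤ ss a e x := sq_nonneg _
    linarith
  · push Not at h2
    nlinarith [sq_nonneg (uu t ε m (ss a e x) (tt a e x)), sq_nonneg (rr t ε (tt a e x))]

end

end Pool.Agent.H945
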