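import Pool.Agent.H945_Excise.Push

open MeasureTheory Set Filter Topology Metric
open scoped ContDiff ENNReal NNReal InnerProductSpace

namespace Pool.Agent.H945

variable {n : ℕ}

section
variable {t ε : ℕ → ℝ} {m : ℕ} {a e x : E n}

lemma tt_hasFDerivAt (a e x : E n) : HasFDerivAt (tt a e) (innerSL ℝ e) x := by
  have h1 : HasFDerivAt (fun x : E n => x - a) (ContinuousLinearMap.id ℝ (E n)) x :=
    (hasFDerivAt_id x).sub_const a
  have h2 := (innerSL ℝ e).hasFDerivAt.comp x h1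
  exact h2

lemma tt_contDiff (a e : E n) : ContDiff ℝ ∞ (tt a e) := by
  have h : tt a e = fun x => (innerSL ℝ e) (x - a) := rfl
  rw [h]
  exact (innerSL ℝ e).contDiff.comp (contDiff_id.sub contDiff_const)

lemma xp_contDiff (a e : E n) : ContDiff ℝ ∞ (xp a e) :=
  (contDiff_id.sub contDiff_const).sub ((tt_contDiff a e).smul contDiff_const)

lemma ss_contDiff (a e : E n) : ContDiff ℝ ∞ (ss a e) :=
  (xp_contDiff a e).norm_sq ℝ

lemma ss_hasFDerivAt (he : ‖e‖ = 1) (x : E n) :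
    HasFDerivAt (ss a e) ((2 : ℝ) • innerSL ℝ (xp a e x)) x := by
  have h1 : HasFDerivAt (fun x : E n => x - a) (ContinuousLinearMap.id ℝ (E n)) x :=
    (hasFDerivAt_id x).sub_const a
  have h2 : HasFDerivAt (fun x : E n => ‖x - a‖ ^ 2) ((2 : ℝ) • innerSL ℝ (x - a)) x := by
    refine h1.norm_sq.congr_fderiv ?_
    ext v; simp
  have h3 : HasFDerivAt (fun x : E n => tt a e x ^ 2) ((2 * tt a e x) • innerSL ℝ e) x := by
    refine ((tt_hasFDerivAt a e x).pow 2).congr_fderiv ?_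
    ext v; simp
  have h4 := h2.sub h3
  refine (h4.congr_of_eventuallyEq (Eventually.of_forall fun y => ?_)).congr_fderiv ?_
  · have := norm_sub_sq (a := a) he y
    simp only [Pi.sub_apply]
    linarith
  · ext v
    simp only [sub_apply, smul_apply, innerSL_apply_apply, smul_eq_mul, xp,
      inner_sub_left, inner_smul_left, RCLike.conj_to_real]
    ring

lemma TD.rr_hasDerivAt (h : TD t ε) {s : ℝ} (hs : s ∈ DD t) :
    HasDerivAt (rr t ε) (deriv (rr t ε) s) s := by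
  obtain ⟨k, hk⟩ := hs
  exact ((rr_contDiffAt h.ht h.hε h.hε2 hk).differentiableAt (by simp)).hasDerivAt

/-- derivative of the lower profile -/
noncomputable def vd (t ε : ℕ → ℝ) (s : ℝ) : ℝ :=
  -(deriv (rr t ε) s * lam (s / rr t ε 0) + rr t ε s * (lamd (s / rr t ε 0) / rr t ε 0))

lemma TD.vv_hasDerivAt (h : TD t ε) {s : ℝ} (hs : s ∈ DD t) :
    HasDerivAt (vv t ε) (vd t ε s) s := by
  have h1 : HasDerivAt (fun s : ℝ => s / rr t ε 0) (1 / rr t ε 0) s :=
    (hasDerivAt_id s).div_const _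
  have h2 : HasDerivAt (fun s : ℝ => lam (s / rr t ε 0)) (lamd (s / rr t ε 0) * (1 / rr t ε 0)) s :=
    HasDerivAt.comp (h₂ := lam) s (lam_hasDerivAt (s / rr t ε 0)) h1
  have h3 := ((h.rr_hasDerivAt hs).mul h2).neg
  refine h3.congr_deriv ?_
  unfold vd
  ring

lemma TD.vd_pos (h : TD t ε) {s : ℝ} (hs : s ∈ DD t) : 0 < vd t ε s := by
  have h1 := h.pos hs
  have h2 := h.pos0
  have h3 := lamd_neg (s / rr t ε 0)
  have h4 := rr_deriv_nonpos h.ht h.hε h.hε2 s
  have h5 := lam_ge (s / rr t ε 0)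
  have h6 : deriv (rr t ε) s * lam (s / rr t ε 0) ≤ 0 :=
    mul_nonpos_of_nonpos_of_nonneg h4 (by linarith)
  have h7 : rr t ε s * (lamd (s / rr t ε 0) / rr t ε 0) < 0 :=
    mul_neg_of_pos_of_neg h1 (div_neg_of_neg_of_pos h3 h2)
  unfold vd
  linarith

lemma TD.vd_le (h : TD t ε) {s : ℝ} (hs : s ∈ DD t) (hs' : -rr t ε 0 < s) :
    vd t ε s ≤ 4 * Cst + 3 := by
  have h1 := h.pos hs
  have h2 := h.pos0
  have h3 := lamd_ge (s / rr t ε 0)
  have h3' := lamd_neg (s / rr t ε 0)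
  obtain ⟨k, hk⟩ := hs
  have h4 := rr_deriv_ge h.ht h.ht0 h.hε h.hε2 h.hε3 hk
  have h5 := lam_ge (s / rr t ε 0)
  have h5' : lam (s / rr t ε 0) ≤ 1 := lam_le_one (by rw [le_div_iff₀ h2]; linarith)
  have h6 : -(deriv (rr t ε) s * lam (s / rr t ε 0)) ≤ 1 := by nlinarith
  have h7 : -(rr t ε s * (lamd (s / rr t ε 0) / rr t ε 0)) ≤ 4 * Cst + 2 := by
    have h8 : rr t ε s / rr t ε 0 ≤ 1 := (div_le_one h2).2 (h.le_r0 s)
    have h9 : 0 ≤ rr t ε s / rr t ε 0 := by positivity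
    have h10 : -(rr t ε s * (lamd (s / rr t ε 0) / rr t ε 0))
        = (rr t ε s / rr t ε 0) * (-lamd (s / rr t ε 0)) := by ring
    rw [h10]
    calc _ ≤ 1 * (-lamd (s / rr t ε 0)) := by
          apply mul_le_mul_of_nonneg_right h8; linarith
      _ ≤ _ := by linarith
  unfold vd
  linarith

/-- the argument of the cutoff -/
noncomputable def zz (t ε : ℕ → ℝ) (σ s : ℝ) : ℝ := (4 * (σ / rr t ε s ^ 2) - 1) / 3

/-- coefficient along `e` -/
noncomputable def al (t ε : ℕ → ℝ) (m : ℕ) (σ s : ℝ) : ℝ :=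
  (1 - yy t ε σ s ^ m) * (vd t ε s - 1)
    + (vv t ε s - s) * (m * yy t ε σ s ^ (m - 1)) * (deriv st (zz t ε σ s) *
      ((8 / 3) * (σ * deriv (rr t ε) s / rr t ε s ^ 3)))

/-- coefficient along the horizontal direction -/
noncomputable def be (t ε : ℕ → ℝ) (m : ℕ) (σ s : ℝ) : ℝ :=
  -((vv t ε s - s) * (m * yy t ε σ s ^ (m - 1)) * (deriv st (zz t ε σ s) *
      ((8 / 3) / rr t ε s ^ 2)))

lemma TD.yy_hasFDerivAt (h : TD t ε) (he : ‖e‖ = 1) (hs : tt a e x ∈ DD t) :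
    HasFDerivAt (fun x => yy t ε (ss a e x) (tt a e x))
      (deriv st (zz t ε (ss a e x) (tt a e x)) • ((4 / 3 : ℝ) •
        ((2 / rr t ε (tt a e x) ^ 2) • innerSL ℝ (xp a e x)
        - (2 * ss a e x * deriv (rr t ε) (tt a e x) / rr t ε (tt a e x) ^ 3) • innerSL ℝ e))) x := by
  have hr := h.pos hs
  have h1 : HasDerivAt (fun s => (rr t ε s ^ 2)⁻¹)
      (-(2 * deriv (rr t ε) (tt a e x) / rr t ε (tt a e x) ^ 3)) (tt a e x) := by
    have := ((h.rr_hasDerivAt hs).pow 2).inv (pow_ne_zero 2 hr.ne')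
    refine this.congr_deriv ?_
    field_simp
    simp
    ring
  have h2 : HasFDerivAt (fun x => (rr t ε (tt a e x) ^ 2)⁻¹)
      ((-(2 * deriv (rr t ε) (tt a e x) / rr t ε (tt a e x) ^ 3)) • innerSL ℝ e) x :=
    HasDerivAt.comp_hasFDerivAt (h₂ := fun s => (rr t ε s ^ 2)⁻¹) (f := tt a e) x h1
      (tt_hasFDerivAt a e x)
  have h3 := (ss_hasFDerivAt (a := a) he x).mul h2
  have h4 : HasFDerivAt (fun x => zz t ε (ss a e x) (tt a e x))
      ((4 / 3 : ℝ) • ((2 / rr t ε (tt a e x) ^ 2) • innerSL ℝ (xp a e x)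
        - (2 * ss a e x * deriv (rr t ε) (tt a e x) / rr t ε (tt a e x) ^ 3) • innerSL ℝ e)) x := by
    have := ((h3.const_mul (4:ℝ)).sub_const 1).const_mul (1/3 : ℝ)
    refine (this.congr_of_eventuallyEq (Eventually.of_forall fun y => ?_)).congr_fderiv ?_
    · simp only [zz, Pi.mul_apply]
      ring
    · ext v
      simp only [add_apply, sub_apply, smul_apply, innerSL_apply_apply, smul_eq_mul]
      field_simp
      ring
  exact HasDerivAt.comp_hasFDerivAt (h₂ := st)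
    (f := fun x => zz t ε (ss a e x) (tt a e x)) x (st_hasDerivAt _) h4

lemma TD.uu_hasFDerivAt (h : TD t ε) (he : ‖e‖ = 1) (hs : tt a e x ∈ DD t) :
    HasFDerivAt (fun x => uu t ε m (ss a e x) (tt a e x) - tt a e x)
      (al t ε m (ss a e x) (tt a e x) • innerSL ℝ e
        + be t ε m (ss a e x) (tt a e x) • innerSL ℝ (xp a e x)) x := by
  have hev : (fun x => uu t ε m (ss a e x) (tt a e x) - tt a e x) =ᶠ[𝓝 x]
      fun x => (1 - yy t ε (ss a e x) (tt a e x) ^ m) * (vv t ε (tt a e x) - tt a e x) := by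
    have : ∀ᶠ y in 𝓝 x, tt a e y ∈ DD t :=
      (tt_contDiff a e).continuous.continuousAt.eventually_mem (DD_open.mem_nhds hs)
    filter_upwards [this] with y hy
    unfold uu
    rw [if_pos hy]
    ring
  have h1 := h.yy_hasFDerivAt (a := a) (x := x) he hs
  have h2 : HasFDerivAt (fun x => vv t ε (tt a e x)) (vd t ε (tt a e x) • innerSL ℝ e) x :=
    HasDerivAt.comp_hasFDerivAt (h₂ := vv t ε) (f := tt a e) x (h.vv_hasDerivAt hs)
      (tt_hasFDerivAt a e x)
  have h3 := ((h1.pow m).const_sub 1).mul (h2.sub (tt_hasFDerivAt a e x))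
  refine (h3.congr_of_eventuallyEq (hev.trans (Eventually.of_forall fun y => ?_))).congr_fderiv ?_
  · simp only [Pi.mul_apply, Pi.sub_apply]
  · have hr := (h.pos hs).ne'
    ext v
    simp only [add_apply, sub_apply, smul_apply, neg_apply, innerSL_apply_apply, smul_eq_mul, al,
      be, Pi.sub_apply, nsmul_eq_mul]
    field_simp
    ring

lemma TD.hh_hasFDerivAt (h : TD t ε) (he : ‖e‖ = 1) (hs : tt a e x ∈ DD t) :
    HasFDerivAt (hh t ε m a e) (ContinuousLinearMap.id ℝ (E n) +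
      (al t ε m (ss a e x) (tt a e x) • innerSL ℝ e
        + be t ε m (ss a e x) (tt a e x) • innerSL ℝ (xp a e x)).smulRight e) x :=
  (hasFDerivAt_id x).add ((h.uu_hasFDerivAt he hs).smul_const e)

lemma TD.one_add_al_pos (h : TD t ε) {σ s : ℝ} (hσ : 0 ≤ σ) (hs : s ∈ DD t) :
    0 < 1 + al t ε m σ s := by
  have hy0 : 0 ≤ yy t ε σ s ^ m := pow_nonneg (yy_nonneg σ s) m
  have hy0' : 0 ≤ yy t ε σ s ^ (m - 1) := pow_nonneg (yy_nonneg σ s) (m - 1)
  have hy1 : yy t ε σ s ^ m ≤ 1 := pow_le_one₀ (yy_nonneg σ s) (yy_le_one σ s)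
  have hvd := h.vd_pos hs
  have hr := h.pos hs
  have hmain : 0 < yy t ε σ s ^ m + (1 - yy t ε σ s ^ m) * vd t ε s := by
    rcases eq_or_lt_of_le hy1 with he | hl
    · rw [he]; linarith
    · have := mul_pos (sub_pos.2 hl) hvd
      linarith
  have hrest : 0 ≤ (vv t ε s - s) * (m * yy t ε σ s ^ (m - 1)) * (deriv st (zz t ε σ s) *
      ((8 / 3) * (σ * deriv (rr t ε) s / rr t ε s ^ 3))) := by
    by_cases h0 : s < 0
    · rw [rr_deriv_of_neg h.ht h.ht0 h0]; simp
    · push Not at h0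
      have h1 := h.vv_neg hs
      have h2 := rr_deriv_nonpos h.ht h.hε h.hε2 s
      have h3 := st_deriv_nonneg (zz t ε σ s)
      have h4 : σ * deriv (rr t ε) s / rr t ε s ^ 3 ≤ 0 :=
        div_nonpos_of_nonpos_of_nonneg (mul_nonpos_of_nonneg_of_nonpos hσ h2) (by positivity)
      have h5 : (vv t ε s - s) * (m * yy t ε σ s ^ (m - 1)) ≤ 0 :=
        mul_nonpos_of_nonpos_of_nonneg (by linarith) (by positivity)
      refine mul_nonneg_of_nonpos_of_nonpos h5 ?_
      exact mul_nonpos_of_nonneg_of_nonpos h3 (by linarith)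
  unfold al
  nlinarith

lemma TD.hh_fderiv_injective (h : TD t ε) (he : ‖e‖ = 1) (hs : tt a e x ∈ DD t) :
    Function.Injective (fderiv ℝ (hh t ε m a e) x) := by
  rw [(h.hh_hasFDerivAt he hs).fderiv, injective_iff_map_eq_zero]
  intro v hv
  simp only [add_apply, smul_apply, ContinuousLinearMap.smulRight_apply,
    ContinuousLinearMap.id_apply, innerSL_apply_apply, smul_eq_mul] at hv
  set l := al t ε m (ss a e x) (tt a e x) * ⟪e, v⟫_ℝ
    + be t ε m (ss a e x) (tt a e x) * ⟪xp a e x, v⟫_ℝ with hl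
  have hv2 : v = (-l) • e := by
    rw [neg_smul]; exact eq_neg_of_add_eq_zero_left hv
  have h1 : ⟪e, v⟫_ℝ = -l := by
    rw [hv2, inner_smul_right, real_inner_self_eq_norm_sq, he]; ring
  have h2 : ⟪xp a e x, v⟫_ℝ = 0 := by
    rw [hv2, inner_smul_right, real_inner_comm, inner_xp he]; ring
  rw [h1, h2] at hl
  have h3 := h.one_add_al_pos (m := m) (σ := ss a e x) (sq_nonneg _) hs
  have h4 : l * (1 + al t ε m (ss a e x) (tt a e x)) = 0 := by linarith
  rcases mul_eq_zero.1 h4 with h5 | h5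
  · rw [hv2, h5]; simp
  · linarith

end

end Pool.Agent.H945
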