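import Pool.Agent.H945_Excise.Push2

open MeasureTheory Set Filter Topology Metric
open scoped ContDiff ENNReal NNReal InnerProductSpace

namespace Pool.Agent.H945

variable {n : ℕ}

/-- the constant in the derivative bound -/
noncomputable def C1 (m : ℕ) : ℝ := 8 * (4 * Cst + 5) + 38 * m * Cst

section
variable {t ε : ℕ → ℝ} {m : ℕ} {a e x : E n}

lemma TD.hh_contDiffAt (h : TD t ε) (hs : tt a e x ∈ DD t) :
    ContDiffAt ℝ ∞ (hh t ε m a e) x := by
  have hr := h.pos hs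
  have htt : ContDiffAt ℝ ∞ (tt a e) x := (tt_contDiff a e).contDiffAt
  have hss : ContDiffAt ℝ ∞ (ss a e) x := (ss_contDiff a e).contDiffAt
  obtain ⟨k, hk⟩ := hs
  have hrr : ContDiffAt ℝ ∞ (fun x => rr t ε (tt a e x)) x :=
    (rr_contDiffAt h.ht h.hε h.hε2 hk).comp x htt
  have hlam : ContDiffAt ℝ ∞ (fun x => lam (tt a e x / rr t ε 0)) x :=
    lam_contDiff.contDiffAt.comp x (htt.div_const _)
  have hvv : ContDiffAt ℝ ∞ (fun x => vv t ε (tt a e x)) x := (hrr.mul hlam).neg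
  have hyy : ContDiffAt ℝ ∞ (fun x => yy t ε (ss a e x) (tt a e x)) x := by
    have h1 : ContDiffAt ℝ ∞ (fun x => ss a e x / rr t ε (tt a e x) ^ 2) x :=
      hss.div (hrr.pow 2) (pow_ne_zero 2 hr.ne')
    have h2 : ContDiffAt ℝ ∞ (fun x => (4 * (ss a e x / rr t ε (tt a e x) ^ 2) - 1) / 3) x :=
      ((contDiffAt_const.mul h1).sub contDiffAt_const).div_const _
    exact Real.smoothTransition.contDiff.contDiffAt.comp x h2
  have hev : hh t ε m a e =ᶠ[𝓝 x]
      fun x => x + ((1 - yy t ε (ss a e x) (tt a e x) ^ m) * (vv t ε (tt a e x) - tt a e x)) • e := by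
    have : ∀ᶠ y in 𝓝 x, tt a e y ∈ DD t :=
      (tt_contDiff a e).continuous.continuousAt.eventually_mem (DD_open.mem_nhds ⟨k, hk⟩)
    filter_upwards [this] with y hy
    unfold hh uu
    rw [if_pos hy]
    congr 2
    ring
  refine ContDiffAt.congr_of_eventuallyEq ?_ hev
  exact contDiffAt_id.add (((contDiffAt_const.sub (hyy.pow m)).mul (hvv.sub htt)).smul
    contDiffAt_const)

lemma TD.eps_small (h : TD t ε) {c : ℝ} (hc : 0 < c) : ∃ k, 2 * ε k < c := by
  obtain ⟨k, hk⟩ := exists_pow_lt_of_lt_one (div_pos hc (by linarith [h.hε 0] : 0 < 2 * ε 0 + 1))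
    (by norm_num : (1/2 : ℝ) < 1)
  refine ⟨k, ?_⟩
  have h1 := eps_le h.hε2 0 k
  simp only [add_zero] at h1
  have h0 := h.hε 0
  have h2 : (1 / 2 : ℝ) ^ k * (2 * ε 0 + 1) < c := by rwa [lt_div_iff₀ (by linarith)] at hk
  have h3 : (0:ℝ) < (1 / 2) ^ k := by positivity
  nlinarith

lemma TD.hh_eventually_of_pos (h : TD t ε) (hs : tt a e x ∉ DD t) (hx : 0 < ss a e x) :
    ∀ᶠ y in 𝓝 x, hh t ε m a e y = y := by
  have hsq : 0 < Real.sqrt (ss a e x / 2) := Real.sqrt_pos.2 (by linarith)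
  obtain ⟨k, hk⟩ := h.eps_small hsq
  have h1 : ∀ᶠ y in 𝓝 x, t k < tt a e y := by
    refine (tt_contDiff a e).continuous.continuousAt.eventually_mem (Ioi_mem_nhds ?_)
    have : t (k + 1) ≤ tt a e x := by
      by_contra hc
      exact hs ⟨k + 1, not_le.1 hc⟩
    exact (h.ht (Nat.lt_succ_self k)).trans_le this
  have h2 : ∀ᶠ y in 𝓝 x, ss a e x / 2 < ss a e y :=
    (ss_contDiff a e).continuous.continuousAt.eventually_mem (Ioi_mem_nhds (by linarith))
  filter_upwards [h1, h2] with y hy1 hy2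
  refine h.hh_of_not_mem fun hy => ?_
  obtain ⟨-, hy3, hy4⟩ := hy
  have h3 := rr_le h.ht h.hε h.hε2 hy1.le
  have h4 := h.pos hy3
  have h5 : rr t ε (tt a e y) ^ 2 ≤ ss a e x / 2 := by
    calc rr t ε (tt a e y) ^ 2 ≤ Real.sqrt (ss a e x / 2) ^ 2 := by gcongr; linarith
      _ = ss a e x / 2 := Real.sq_sqrt (by linarith)
  linarith

lemma TD.hh_eventually_of_gt (h : TD t ε) {c : ℝ} (hc : ∀ k, t k ≤ c) (hx : c < tt a e x) :
    ∀ᶠ y in 𝓝 x, hh t ε m a e y = y := by
  have h1 : ∀ᶠ y in 𝓝 x, c < tt a e y :=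
    (tt_contDiff a e).continuous.continuousAt.eventually_mem (Ioi_mem_nhds hx)
  filter_upwards [h1] with y hy1
  refine h.hh_of_not_mem fun hy => ?_
  obtain ⟨-, ⟨k, hk⟩, -⟩ := hy
  linarith [hc k]

/-- the derivative bound. -/
lemma TD.fderiv_bound (h : TD t ε) (hm : 1 ≤ m) (he : ‖e‖ = 1) (hx : x ∈ NN t ε a e)
    {T l : ℝ} (hT0 : 0 ≤ T) (hT : tt a e x ≤ T) (hl0 : 0 < l) (hl1 : l ≤ 1)
    (hl : l ^ m = rr t ε (tt a e x)) :
    ‖fderiv ℝ (hh t ε m a e) x‖ ≤
      C1 m * (1 + T) * (‖hh t ε m a e x - a‖ / (rr t ε (tt a e x) * l)) := by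
  obtain ⟨hx1, hs, hx2⟩ := hx
  set s := tt a e x with hsdef
  set σ := ss a e x with hσdef
  set r := rr t ε s with hrdef
  have hr : 0 < r := h.pos hs
  have hr0 := h.r0_le
  have hrr0 : r ≤ rr t ε 0 := h.le_r0 s
  have hσ0 : 0 ≤ σ := sq_nonneg _
  set d := ‖hh t ε m a e x - a‖ with hd
  have hd8 : r / 8 ≤ d := h.norm_hh_ge hm he hs
  have hd0 : 0 < d := by linarith
  have hdsq : d ^ 2 = σ + uu t ε m σ s ^ 2 := by
    have h1 := norm_sub_sq (a := a) he (hh t ε m a e x)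
    have hss : ss a e (hh t ε m a e x) = ss a e x := by unfold ss; rw [xp_hh he]
    rw [hss, tt_hh he] at h1
    exact h1
  have hdu : |uu t ε m σ s| ≤ d := by
    rw [← abs_of_pos hd0]
    refine sq_le_sq.1 ?_
    linarith
  have hdx : ‖xp a e x‖ ≤ d := by
    have : ‖xp a e x‖ ^ 2 ≤ d ^ 2 := by
      rw [hdsq]; change ‖xp a e x‖ ^ 2 ≤ ‖xp a e x‖ ^ 2 + _
      nlinarith [sq_nonneg (uu t ε m σ s)]
    exact (abs_le_of_sq_le_sq' this hd0.le).2
  have hxr : ‖xp a e x‖ ≤ r := by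
    have : ‖xp a e x‖ ^ 2 ≤ r ^ 2 := hx2.le
    exact (abs_le_of_sq_le_sq' this hr.le).2
  set y := yy t ε σ s with hydef
  have hy0 : 0 ≤ y := yy_nonneg σ s
  have hy1 : y ≤ 1 := yy_le_one σ s
  have hym0 : 0 ≤ y ^ m := pow_nonneg hy0 m
  have hym1 : y ^ m ≤ 1 := pow_le_one₀ hy0 hy1
  have hyk0 : 0 ≤ y ^ (m - 1) := pow_nonneg hy0 (m - 1)
  set X := |vv t ε s - s| with hX
  have hvle := h.abs_vv_le hx1
  have hXT : X ≤ 2 + T := by
    have h1 : |s| ≤ 1 + T := by rw [abs_le]; constructor <;> linarith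
    have h2 := abs_sub (vv t ε s) s
    linarith
  have hX0 : 0 ≤ X := abs_nonneg _
  set S := deriv st (zz t ε σ s) with hS
  have hS0 : 0 ≤ S := st_deriv_nonneg _
  have hS1 : S ≤ Cst := (abs_le.1 (st_deriv_le _)).2
  have hC := one_le_Cst
  -- key estimate
  have hkey : S * (X * y ^ (m - 1)) ≤ Cst * ((3 + 2 * X) * (d / l)) := by
    by_cases hz : zz t ε σ s ≤ 0
    · rw [hS, st_deriv_of_nonpos hz, zero_mul]; positivity
    push Not at hz
    have hσr : r ^ 2 < 4 * σ := by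
      unfold zz at hz
      have h1 : 1 < 4 * (σ / r ^ 2) := by linarith
      rw [← mul_div_assoc, lt_div_iff₀ (by positivity)] at h1
      linarith
    have hr2x : r < 2 * ‖xp a e x‖ := by
      have h1 : r ^ 2 < (2 * ‖xp a e x‖) ^ 2 := by
        have : σ = ‖xp a e x‖ ^ 2 := rfl
        rw [mul_pow, ← this]; linarith
      exact lt_of_pow_lt_pow_left₀ 2 (by positivity) h1
    refine mul_le_mul hS1 ?_ (by positivity) (by linarith)
    obtain ⟨k, rfl⟩ : ∃ k, m = k + 1 := ⟨m - 1, by omega⟩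
    simp only [Nat.add_sub_cancel] at *
    rcases le_total l y with hly | hly
    · have h1 : X * y ^ (k + 1) ≤ 3 * d := by
        have h2 : uu t ε (k + 1) σ s - vv t ε s = y ^ (k + 1) * (s - vv t ε s) := by
          unfold uu; rw [if_pos hs]; ring
        have h3 : X * y ^ (k + 1) = |uu t ε (k + 1) σ s - vv t ε s| := by
          rw [h2, abs_mul, abs_of_nonneg hym0, hX, abs_sub_comm]; ring
        rw [h3]
        have h4 := abs_sub (uu t ε (k + 1) σ s) (vv t ε s)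
        linarith
      have h2 : X * y ^ k * l ≤ X * y ^ (k + 1) := by
        rw [pow_succ, ← mul_assoc]; gcongr
      have h3 : X * y ^ k ≤ 3 * d / l := by
        rw [le_div_iff₀ hl0]; linarith
      calc X * y ^ k ≤ 3 * d / l := h3
        _ ≤ (3 + 2 * X) * (d / l) := by
          rw [mul_div_assoc]; gcongr; linarith
    · have h1 : X * y ^ k ≤ X * l ^ k := by gcongr
      have h2 : l ^ k = r / l := by
        rw [eq_div_iff hl0.ne', ← pow_succ]; exact hl
      have h3 : r / l ≤ 2 * (d / l) := by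
        rw [← mul_div_assoc]; gcongr; linarith
      have h4 : 0 ≤ d / l := by positivity
      calc X * y ^ k ≤ X * (r / l) := by rw [← h2]; exact h1
        _ ≤ X * (2 * (d / l)) := by gcongr
        _ ≤ (3 + 2 * X) * (d / l) := by nlinarith
  -- bound of the coefficients
  have hrd1 : -1 ≤ deriv (rr t ε) s := by
    obtain ⟨k, hk⟩ := hs
    exact rr_deriv_ge h.ht h.ht0 h.hε h.hε2 h.hε3 hk
  have hrd0 := rr_deriv_nonpos h.ht h.hε h.hε2 s
  have hvd0 := h.vd_pos hs
  have hvd1 := h.vd_le hs hx1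
  have hm0 : (0:ℝ) ≤ m := Nat.cast_nonneg m
  have hal : |al t ε m σ s| ≤ (4 * Cst + 4) + (8 / 3) * m * (S * (X * y ^ (m - 1))) / r := by
    unfold al
    refine (abs_add_le _ _).trans (add_le_add ?_ ?_)
    · rw [abs_mul]
      have h1 : |1 - y ^ m| ≤ 1 := by rw [abs_le]; constructor <;> linarith
      have h2 : |vd t ε s - 1| ≤ 4 * Cst + 4 := by rw [abs_le]; constructor <;> linarith
      calc _ ≤ 1 * (4 * Cst + 4) := mul_le_mul h1 h2 (abs_nonneg _) (by norm_num)
        _ = _ := one_mul _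
    · change |(vv t ε s - s) * (m * y ^ (m - 1)) *
        (S * ((8 / 3) * (σ * deriv (rr t ε) s / r ^ 3)))| ≤ _
      rw [abs_mul, abs_mul (vv t ε s - s), abs_mul S, abs_mul (8 / 3 : ℝ), abs_div (σ * deriv (rr t ε) s),
        abs_mul σ,
        abs_of_nonneg hS0, abs_of_nonneg (mul_nonneg hm0 hyk0), abs_of_nonneg hσ0,
        abs_of_pos (by norm_num : (0:ℝ) < 8/3), abs_of_pos (by positivity : 0 < r ^ 3)]
      have h1 : |deriv (rr t ε) s| ≤ 1 := by rw [abs_le]; constructor <;> linarith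
      have h2 : σ * |deriv (rr t ε) s| / r ^ 3 ≤ 1 / r := by
        rw [div_le_div_iff₀ (by positivity) hr]
        have : σ * |deriv (rr t ε) s| ≤ r ^ 2 * 1 :=
          mul_le_mul hx2.le h1 (abs_nonneg _) (by positivity)
        nlinarith
      calc X * (m * y ^ (m - 1)) * (S * ((8 / 3) * (σ * |deriv (rr t ε) s| / r ^ 3)))
          ≤ X * (m * y ^ (m - 1)) * (S * ((8 / 3) * (1 / r))) := by gcongr
        _ = _ := by ring
  have hbe : |be t ε m σ s| * ‖xp a e x‖ ≤ (8 / 3) * m * (S * (X * y ^ (m - 1))) / r := by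
    change |-((vv t ε s - s) * (m * y ^ (m - 1)) * (S * ((8 / 3) / r ^ 2)))| * ‖xp a e x‖ ≤ _
    rw [abs_neg, abs_mul, abs_mul (vv t ε s - s), abs_mul S, abs_of_nonneg hS0,
        abs_of_nonneg (mul_nonneg hm0 hyk0),
        abs_of_pos (by positivity : 0 < (8/3 : ℝ) / r ^ 2)]
    calc X * (m * y ^ (m - 1)) * (S * ((8 / 3) / r ^ 2)) * ‖xp a e x‖
        ≤ X * (m * y ^ (m - 1)) * (S * ((8 / 3) / r ^ 2)) * r := by gcongr
      _ = _ := by field_simp
  -- assemble
  have hnorm : ‖fderiv ℝ (hh t ε m a e) x‖ ≤ 1 + (|al t ε m σ s| + |be t ε m σ s| * ‖xp a e x‖) := by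
    rw [(h.hh_hasFDerivAt he hs).fderiv]
    refine (norm_add_le _ _).trans (add_le_add ContinuousLinearMap.norm_id_le ?_)
    rw [ContinuousLinearMap.norm_smulRight_apply, he, mul_one]
    refine (norm_add_le _ _).trans (add_le_add ?_ ?_)
    · rw [norm_smul, innerSL_apply_norm, he, mul_one]; exact le_rfl
    · rw [norm_smul, innerSL_apply_norm]; exact le_rfl
  have h1l : d / r ≤ d / (r * l) := by
    gcongr
    nlinarith
  have hone : 1 ≤ 8 * (d / r) := by
    rw [← mul_div_assoc, le_div_iff₀ hr]; linarith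
  have hSX : S * (X * y ^ (m - 1)) / r ≤ Cst * (7 * (1 + T)) * (d / (r * l)) := by
    calc S * (X * y ^ (m - 1)) / r ≤ Cst * ((3 + 2 * X) * (d / l)) / r := by gcongr
      _ = Cst * (3 + 2 * X) * (d / (r * l)) := by field_simp
      _ ≤ Cst * (7 * (1 + T)) * (d / (r * l)) := by gcongr; linarith
  have hQ : 0 ≤ d / (r * l) := by positivity
  calc ‖fderiv ℝ (hh t ε m a e) x‖
      ≤ 1 + (((4 * Cst + 4) + (8 / 3) * m * (S * (X * y ^ (m - 1))) / r)
        + (8 / 3) * m * (S * (X * y ^ (m - 1))) / r) := by linarith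
    _ = (4 * Cst + 5) + (16 / 3) * m * (S * (X * y ^ (m - 1)) / r) := by ring
    _ ≤ (4 * Cst + 5) * (8 * (d / (r * l)))
        + (16 / 3) * m * (Cst * (7 * (1 + T)) * (d / (r * l))) := by
        gcongr
        have : 1 ≤ 8 * (d / (r * l)) := by linarith
        nlinarith
    _ ≤ C1 m * (1 + T) * (d / (r * l)) := by
        unfold C1
        have e1 : 0 ≤ (4 * Cst + 5) * T * (d / (r * l)) := by positivity
        have e2 : 0 ≤ m * Cst * (1 + T) * (d / (r * l)) := by positivity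
        nlinarith

end

end Pool.Agent.H945
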