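import Pool.Agent.H945_Excise.Core
import Pool.Agent.H945_Excise.Cover
import Pool.Agent.H945_Excise.Punctures

open MeasureTheory Set Filter Topology Metric
open scoped ContDiff ENNReal NNReal

namespace Pool.Agent.H945

variable {k : ℕ} {p : ℝ}

/-- the escape property: from every point of `Ω` outside `K` one can run straight to the boundary
(or to infinity) without meeting `K`. -/
def Escape {n : ℕ} (Ω K : Set (E n)) : Prop :=
  ∀ a ∈ Ω, a ∉ K → ∃ e : E n, ‖e‖ = 1 ∧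
    ∀ s : ℝ, 0 ≤ s → (∀ s' ∈ Icc 0 s, a + s' • e ∈ Ω) → a + s • e ∉ K

lemma restrict_eq_of_null {n : ℕ} {U V : Set (E n)} (h : V ⊆ U) (h0 : volume (U \ V) = 0) :
    (volume : Measure (E n)).restrict U = volume.restrict V := by
  refine Measure.restrict_congr_set ?_
  rw [ae_eq_set]
  refine ⟨h0, ?_⟩
  rw [sdiff_eq_empty.2 h]; exact measure_empty

lemma Dist_eq_of_null {n : ℕ} {p : ℝ} {U V : Set (E n)} (h : V ⊆ U) (h0 : volume (U \ V) = 0)
    (g g' : E n → E n) : Dist p g g' U = Dist p g g' V := by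
  unfold Dist
  rw [restrict_eq_of_null h h0]

open Classical in
lemma stage (hp : 1 ≤ p) (hpk : p < k) {Ω S K L L' : Set (E (k + 1))}
    (hΩ : IsOpen Ω) (hSΩ : S ⊆ Ω) (hScl : IsOpen (Ω \ S))
    (hS : Measure.hausdorffMeasure 1 S = 0)
    (hK : IsClosed K) (hL : IsCompact L) (hL' : IsCompact L') (hL'Ω : L' ⊆ Ω)
    (hLL' : L ⊆ interior L') (hSK : Disjoint S K) (hesc : Escape Ω K)
    {g : E (k + 1) → E (k + 1)} (hg : GoodOn g (Ω \ S)) (hE : En p g Ω ≠ (⊤ : ℝ≥0∞))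
    {ε : ℝ≥0∞} (hε : 0 < ε) (htop : ε ≠ (⊤ : ℝ≥0∞)) :
    ∃ (g' : E (k + 1) → E (k + 1)) (S' : Set (E (k + 1))), S' ⊆ S ∧ IsOpen (Ω \ S') ∧
      Disjoint S' L ∧ GoodOn g' (Ω \ S') ∧ (∀ x ∈ K, g' x = g x) ∧ Dist p g g' Ω ≤ ε := by
  have hp0 : 0 < p := by linarith
  have hk1 : (1 : ℝ) < k := by linarith
  -- the compact bad set
  set T : Set (E (k + 1)) := L' \ (Ω \ S) with hT
  have hTc : IsCompact T := hL'.diff hScl
  have hTS : T ⊆ S := by
    intro x hx
    by_contra h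
    exact hx.2 ⟨hL'Ω hx.1, h⟩
  have hST : S ∩ L' ⊆ T := fun x hx => ⟨hx.2, fun h => h.2 hx.1⟩
  have hT0 : Measure.hausdorffMeasure 1 T = 0 := measure_mono_null hTS hS
  have hTv : volume T = 0 := volume_eq_zero_of_hausdorff (by omega) hT0
  have hSv : volume S = 0 := volume_eq_zero_of_hausdorff (by omega) hS
  have hW₀ : IsOpen (Ω ∩ Kᶜ) := hΩ.inter hK.isOpen_compl
  obtain ⟨ρ₁, hρ₁, hρ₁T⟩ := hTc.exists_cthickening_subset_open hW₀ (fun x hx =>
    ⟨hSΩ (hTS hx), fun h => Set.disjoint_left.1 hSK (hTS hx) h⟩)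
  obtain ⟨ρ₂, hρ₂, hρ₂L⟩ := hL.exists_cthickening_subset_open isOpen_interior hLL'
  -- small energies
  have hε8 : 0 < ε / 8 := ENNReal.div_pos hε.ne' (by norm_num)
  obtain ⟨δ, hδ, hδε⟩ := exists_small_en hε8 hp
  have hC0 : 0 < C0 (k + 1) p := C0_pos
  set ε' : ℝ := min δ (δ / C0 (k + 1) p) with hε'
  have hε'0 : 0 < ε' := lt_min hδ (by positivity)
  obtain ⟨δ₀, hδ₀, hδ₀E⟩ := En_small (p := p) (g := g) hE (ε := ENNReal.ofReal ε') (by
    rw [Ne, ENNReal.ofReal_eq_zero, not_le]; exact hε'0)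
  obtain ⟨ρ, hρ0, hρρ₁, hρρ₂, hρv⟩ : ∃ ρ : ℝ, 0 < ρ ∧ ρ ≤ ρ₁ ∧ ρ ≤ ρ₂ ∧
      volume (cthickening ρ T) < δ₀ := by
    have h1 : Tendsto (fun r => volume (cthickening r T)) (𝓝 0) (𝓝 (volume T)) :=
      tendsto_measure_cthickening_of_isCompact hTc
    rw [hTv] at h1
    have h2 : ∀ᶠ r : ℝ in 𝓝[>] 0, volume (cthickening r T) < δ₀ :=
      (h1.mono_left nhdsWithin_le_nhds).eventually_lt_const hδ₀
    have h3 : ∀ᶠ r : ℝ in 𝓝[>] 0, r ∈ Ioo 0 (min ρ₁ ρ₂) :=
      Ioo_mem_nhdsGT (lt_min hρ₁ hρ₂)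
    obtain ⟨r, hr1, hr2⟩ := (h2.and h3).exists
    exact ⟨r, hr2.1, (hr2.2.trans_le (min_le_left _ _)).le,
      (hr2.2.trans_le (min_le_right _ _)).le, hr1⟩
  set W : Set (E (k + 1)) := cthickening ρ T with hW
  have hWW₀ : W ⊆ Ω ∩ Kᶜ := (cthickening_mono hρρ₁ T).trans hρ₁T
  have hWΩ : W ⊆ Ω := hWW₀.trans inter_subset_left
  have hEW : En p g W ≤ ENNReal.ofReal ε' :=
    (hδ₀E W hWΩ isClosed_cthickening.measurableSet hρv).le
  -- the cover
  have he1 : 0 < Real.exp 1 := Real.exp_pos 1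
  obtain ⟨F, hF, hFT, hFs⟩ := exists_cover hTc hT0 (η := ρ / (2 * Real.exp 1)) (by positivity)
  have hFs' : Real.exp 1 * ∑ x ∈ F, x.2 ≤ ρ / 2 := by
    calc Real.exp 1 * ∑ x ∈ F, x.2 ≤ Real.exp 1 * (ρ / (2 * Real.exp 1)) := by gcongr
      _ = ρ / 2 := by field_simp
  have hFW : ∀ x ∈ F, closedBall x.1 (2 * (Real.exp 1 * ∑ x ∈ F, x.2)) ⊆ W := by
    intro x hx z hz
    refine mem_cthickening_of_dist_le z x.1 ρ T (hF x hx).2 ?_
    rw [mem_closedBall] at hz
    linarith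
  obtain ⟨τ, hτ0, hτ1, G, hG, hGd, hG1, hG2, hG3, hcore⟩ := core (n := k + 1) (p := p)
    (by omega) hp (by push_cast; linarith) hScl hg hε'0.le hEW F (fun x hx => (hF x hx).1) hFW
  have hGW : ∀ y ∈ G, closedBall y.1 (Real.exp τ * y.2) ⊆ W := by
    intro y hy
    obtain ⟨x, hx, hxy⟩ := hG2 y hy
    exact hxy.trans (hFW x hx)
  have hGr : ∀ y ∈ G, Real.exp τ * y.2 ≤ ρ / 2 := fun y hy => (hG3 y hy).trans hFs'
  have hx1 : Real.exp (2 * τ / 3) < Real.exp τ := Real.exp_lt_exp.2 (by linarith)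
  have hx2 : 1 < Real.exp (τ / 3) := Real.one_lt_exp_iff.2 (by positivity)
  have hx3 : 1 < Real.exp (2 * τ / 3) := Real.one_lt_exp_iff.2 (by positivity)
  have hx4 : 1 < Real.exp τ := Real.one_lt_exp_iff.2 hτ0
  -- the selected balls
  set J : Finset (E (k + 1) × ℝ) :=
    G.filter (fun y => (closedBall y.1 (Real.exp τ * y.2) ∩ L).Nonempty) with hJ
  have hJG : J ⊆ G := Finset.filter_subset _ _
  set N : Set (E (k + 1)) := ⋃ y ∈ J, ball y.1 (Real.exp (2 * τ / 3) * y.2) with hN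
  have hbig : ∀ y ∈ G, closedBall y.1 (Real.exp (2 * τ / 3) * y.2) ⊆
      ball y.1 (Real.exp τ * y.2) := fun y hy => by
    refine closedBall_subset_ball ?_
    have := hG y hy
    gcongr
  have hNo : IsOpen N := isOpen_biUnion fun _ _ => isOpen_ball
  have hNW : N ⊆ W := by
    intro z hz
    simp only [hN, mem_iUnion, exists_prop] at hz
    obtain ⟨y, hy, hz⟩ := hz
    exact hGW y (hJG hy) (ball_subset_closedBall (hbig y (hJG hy) (ball_subset_closedBall hz)))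
  obtain ⟨g₁, hg₁, hoff₁, hE₁⟩ := hcore J hJG (by
    rintro y hy z ⟨hz1, hz2⟩
    have hyG := hJG hy
    have hzb := hbig y hyG hz1
    refine ⟨hWΩ (hGW y hyG (ball_subset_closedBall hzb)), fun hzS => ?_⟩
    obtain ⟨l, hl1, hl2⟩ := (Finset.mem_filter.1 hy).2
    have hzL' : z ∈ L' := by
      refine interior_subset (hρ₂L (mem_cthickening_of_dist_le z l ρ₂ L hl2 ?_))
      have h1 : dist z y.1 < Real.exp τ * y.2 := hzb
      have h2 : dist l y.1 ≤ Real.exp τ * y.2 := hl1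
      have h3 := hGr y hyG
      have h4 := dist_triangle_right z l y.1
      linarith
    have hzT : z ∈ T := hST ⟨hzS, hzL'⟩
    obtain ⟨x, hx, hzx⟩ : ∃ x ∈ F, z ∈ closedBall x.1 x.2 := by
      have := hFT hzT
      simpa only [mem_iUnion, exists_prop] using this
    obtain ⟨v, hv, hxv⟩ := hG1 x hx
    have hzv := hxv hzx
    by_cases hvy : v = y
    · rw [hvy] at hzv
      refine hz2 (closedBall_subset_ball ?_ hzv)
      have := hG y hyG
      nlinarith
    · refine Set.disjoint_left.1 (hGd hv hyG hvy) (closedBall_subset_ball ?_ hzv) hzb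
      have := hG v hv
      nlinarith)
  -- the new singular set
  set S' : Set (E (k + 1)) := S \ N with hS'
  have hS'S : S' ⊆ S := sdiff_subset
  have hU : Ω \ S' = (Ω \ S) ∪ N := by
    ext x
    constructor
    · rintro ⟨hx1, hx2⟩
      by_cases hxN : x ∈ N
      · exact Or.inr hxN
      · exact Or.inl ⟨hx1, fun h => hx2 ⟨h, hxN⟩⟩
    · rintro (hx | hx)
      · exact ⟨hx.1, fun h => hx.2 h.1⟩
      · exact ⟨hWΩ (hNW hx), fun h => h.2 hx⟩
  have hUo : IsOpen (Ω \ S') := by rw [hU]; exact hScl.union hNo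
  have hS'L : Disjoint S' L := by
    rw [Set.disjoint_left]
    rintro x ⟨hxS, hxN⟩ hxL
    have hxT : x ∈ T := hST ⟨hxS, interior_subset (hLL' hxL)⟩
    obtain ⟨u, hu, hxu⟩ : ∃ u ∈ F, x ∈ closedBall u.1 u.2 := by
      have := hFT hxT
      simpa only [mem_iUnion, exists_prop] using this
    obtain ⟨v, hv, huv⟩ := hG1 u hu
    have hxv := huv hxu
    have hv0 := hG v hv
    refine hxN ?_
    simp only [hN, mem_iUnion, exists_prop]
    refine ⟨v, Finset.mem_filter.2 ⟨hv, x, closedBall_subset_closedBall (by nlinarith) hxv, hxL⟩,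
      closedBall_subset_ball (by nlinarith) hxv⟩
  -- measure-theoretic bookkeeping
  have hnull1 : volume (Ω \ (Ω \ S)) = 0 := by
    refine measure_mono_null ?_ hSv
    rintro x ⟨hx1, hx2⟩
    by_contra h
    exact hx2 ⟨hx1, h⟩
  have hnull2 : volume (Ω \ (Ω \ S')) = 0 := by
    refine measure_mono_null ?_ hSv
    rintro x ⟨hx1, hx2⟩
    by_contra h
    exact hx2 ⟨hx1, fun h' => h h'.1⟩
  set Cn : Finset (E (k + 1)) := J.image Prod.fst with hCn
  rw [← hU] at hg₁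
  have hCno : IsOpen ((Ω \ S') \ (Cn : Set (E (k + 1)))) := hUo.sdiff Cn.finite_toSet.isClosed
  have hnull3 : volume (Ω \ ((Ω \ S') \ (Cn : Set (E (k + 1))))) = 0 := by
    refine measure_mono_null (t := (Ω \ (Ω \ S')) ∪ (Cn : Set (E (k + 1)))) ?_
      (measure_union_null hnull2 (Cn.finite_toSet.measure_zero _))
    rintro x ⟨hx1, hx2⟩
    by_cases hxC : x ∈ (Cn : Set (E (k + 1)))
    · exact Or.inr hxC
    · exact Or.inl ⟨hx1, fun h => hx2 ⟨h, hxC⟩⟩
  have hm0 := hg.aesm' hScl hnull1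
  have hm1 := hg₁.aesm' hCno hnull3
  have hD1 : Dist p g g₁ Ω ≤ ε / 2 := by
    have hbd : ∀ᵐ x ∂(volume.restrict Ω), x ∉ ⋃ y ∈ J, sphere y.1
        (Real.exp (2 * τ / 3) * y.2) := by
      refine ae_restrict_of_ae ?_
      refine measure_eq_zero_iff_ae_notMem.1 ?_
      refine (measure_biUnion_null_iff J.countable_toSet).2 fun y hy => ?_
      exact Measure.addHaar_sphere_of_ne_zero volume _ (by
        have := hG y (hJG hy)
        have := Real.exp_pos (2 * τ / 3)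
        positivity)
    have h1 := Dist_le_of_eq_off hp (g := g) (g' := g₁) (W := Ω) (N := N) hNo.measurableSet (by
      filter_upwards [hbd] with x hx hxN
      refine ⟨hoff₁ x hxN, ?_⟩
      refine fderiv_congr_open (W := (⋃ y ∈ J, closedBall y.1 (Real.exp (2 * τ / 3) * y.2))ᶜ)
        ?_ ?_ x ?_
      · exact (J.finite_toSet.isClosed_biUnion fun _ _ => isClosed_closedBall).isOpen_compl
      · intro z hz
        refine hoff₁ z fun h => hz ?_
        simp only [mem_iUnion, exists_prop] at h ⊢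
        obtain ⟨y, hy, hzy⟩ := h
        exact ⟨y, hy, ball_subset_closedBall hzy⟩
      · intro h
        simp only [mem_iUnion, exists_prop] at h
        obtain ⟨y, hy, hxy⟩ := h
        rcases (mem_closedBall.1 hxy).lt_or_eq with h' | h'
        · exact hxN (mem_biUnion (Finset.mem_coe.2 hy) h')
        · exact hx (mem_biUnion (Finset.mem_coe.2 hy) h')) hm0 hm1
    refine h1.trans ?_
    have h2 : (En p g₁ (Ω ∩ N)) ^ (1 / p) ≤ ε / 8 := by
      refine rpow_le_of_le hp hδε ((En_mono inter_subset_right).trans (hE₁.trans ?_))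
      refine ENNReal.ofReal_le_ofReal ?_
      calc C0 (k + 1) p * ε' ≤ C0 (k + 1) p * (δ / C0 (k + 1) p) := by
            have := min_le_right δ (δ / C0 (k + 1) p)
            gcongr
        _ = δ := by field_simp
    have h3 : (En p g (Ω ∩ N)) ^ (1 / p) ≤ ε / 8 := by
      refine rpow_le_of_le hp hδε ((En_mono (inter_subset_right.trans hNW)).trans (hEW.trans ?_))
      exact ENNReal.ofReal_le_ofReal (min_le_left _ _)
    calc _ ≤ 2 * (ε / 8 + ε / 8) := by gcongr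
      _ ≤ ε / 2 := eighth_le ε
  have hNK : ∀ x ∈ K, x ∉ N := fun x hx h => (hWW₀ (hNW h)).2 hx
  have hE1 : En p g₁ Ω ≠ (⊤ : ℝ≥0∞) := En_ne_top_of_Dist hp hm0 hm1 hE
    (ne_top_of_le_ne_top (ENNReal.div_ne_top htop (by norm_num)) hD1)
  obtain ⟨g₂, hg₂, hg₂K, hD₂⟩ := remove_punctures hp hpk hK Cn (U := Ω \ S') hUo (by
      intro a ha
      obtain ⟨y, hy, rfl⟩ := Finset.mem_image.1 ha
      rw [hU]
      refine Or.inr (mem_biUnion (Finset.mem_coe.2 hy) (mem_ball_self ?_))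
      have := hG y (hJG hy)
      positivity) (by
      intro a ha
      obtain ⟨y, hy, rfl⟩ := Finset.mem_image.1 ha
      have haN : y.1 ∈ N := by
        refine mem_biUnion (Finset.mem_coe.2 hy) (mem_ball_self ?_)
        have := hG y (hJG hy)
        positivity
      obtain ⟨e, he, hr⟩ := hesc y.1 (hWΩ (hNW haN)) (fun h => hNK _ h haN)
      exact ⟨e, he, fun s hs hs' => hr s hs fun s' h' => (hs' s' h').1⟩) hg₁
      (ne_top_of_le_ne_top hE1 (En_mono sdiff_subset)) (η := ε / 2)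
      (ENNReal.div_pos hε.ne' (by norm_num))
  refine ⟨g₂, S', hS'S, hUo, hS'L, hg₂, fun x hx => ?_, ?_⟩
  · rw [hg₂K x hx, hoff₁ x (hNK x hx)]
  · have hm2 := hg₂.aesm' hUo hnull2
    calc Dist p g g₂ Ω ≤ Dist p g g₁ Ω + Dist p g₁ g₂ Ω := Dist_triangle hp hm0 hm1 hm2
      _ ≤ ε / 2 + ε / 2 := by
        refine add_le_add hD1 ?_
        rw [Dist_eq_of_null sdiff_subset hnull2]
        exact hD₂
      _ = ε := ENNReal.add_halves ε

end Pool.Agent.H945
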